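import Mathlib

/-! Taylor coefficients of entire vector functions, remainders, zeros of limits. -/

set_option autoImplicit false
set_option linter.unusedSectionVars false

namespace Pool.Agent.K7.H75.LC

open Filter Topology Metric Set

variable {N : ℕ}

/-- the Taylor coefficients at the origin -/
noncomputable def coef {E : Type} [NormedAddCommGroup E] [NormedSpace ℂ E] (f : ℂ → E) (k : ℕ) : E :=
  (k.factorial : ℂ)⁻¹ • iteratedDeriv k f 0

section coef

variable {E : Type} [NormedAddCommGroup E] [NormedSpace ℂ E]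

theorem coef_zero (f : ℂ → E) : coef f 0 = f 0 := by
  simp [coef]

variable [CompleteSpace E]

theorem cd {f : ℂ → E} (hf : Differentiable ℂ f) (n : ℕ) (x : ℂ) : ContDiffAt ℂ n f x :=
  hf.contDiff.contDiffAt

theorem coef_sub {f g : ℂ → E} (hf : Differentiable ℂ f) (hg : Differentiable ℂ g) (k : ℕ) :
    coef (fun z => f z - g z) k = coef f k - coef g k := by
  unfold coef
  rw [iteratedDeriv_fun_sub (cd hf k 0) (cd hg k 0), smul_sub]

theorem coef_smul_const {φ : ℂ → ℂ} (hφ : Differentiable ℂ φ) (u : E) (k : ℕ) :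
    coef (fun z => φ z • u) k = coef φ k • u := by
  unfold coef
  rw [iteratedDeriv_smul_const (cd hφ k 0), smul_assoc]

theorem hasSum_coef {f : ℂ → E} (hf : Differentiable ℂ f) (z : ℂ) :
    HasSum (fun k => z ^ k • coef f k) (f z) := by
  have h := Complex.hasSum_taylorSeries_of_entire hf 0 z
  have h2 : (fun k => z ^ k • coef f k) =
      fun n : ℕ => (n.factorial : ℂ)⁻¹ • (z - 0) ^ n • iteratedDeriv n f 0 := by
    funext k
    unfold coef
    rw [sub_zero, smul_comm]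
  rw [h2]
  exact h

theorem norm_coef_le {f : ℂ → E} (hf : Differentiable ℂ f) {M : ℝ}
    (hM : ∀ z : ℂ, ‖z‖ = 1 → ‖f z‖ ≤ M) (k : ℕ) : ‖coef f k‖ ≤ M := by
  have h := Complex.norm_iteratedDeriv_le_of_forall_mem_sphere_norm_le (c := 0) (R := 1) (C := M)
    (f := f) k one_pos hf.diffContOnCl (fun z hz => hM z (by simpa using hz))
  unfold coef
  rw [norm_smul, norm_inv, Complex.norm_natCast, one_pow, div_one] at *
  have h2 : (0 : ℝ) < k.factorial := by exact_mod_cast k.factorial_pos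
  calc (k.factorial : ℝ)⁻¹ * ‖iteratedDeriv k f 0‖ ≤ (k.factorial : ℝ)⁻¹ * (k.factorial * M) := by
        gcongr
    _ = M := by field_simp

/-- Taylor's formula with remainder -/
theorem remainder {f : ℂ → E} (hf : Differentiable ℂ f) {M : ℝ}
    (hM : ∀ z : ℂ, ‖z‖ = 1 → ‖f z‖ ≤ M) (m : ℕ) {z : ℂ} (hz : ‖z‖ ≤ 1 / 2) :
    ‖f z - ∑ k ∈ Finset.range (m + 1), z ^ k • coef f k‖ ≤ 2 * M * ‖z‖ ^ (m + 1) := by
  have h1 := hasSum_coef hf z
  have hM0 : 0 ≤ M := (norm_nonneg _).trans (hM 1 (by simp))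
  have h2 := (hasSum_nat_add_iff' (m + 1)).2 h1
  rw [← h2.tsum_eq]
  have h3 : HasSum (fun k : ℕ => M * ‖z‖ ^ (m + 1) * ‖z‖ ^ k) (M * ‖z‖ ^ (m + 1) * (1 - ‖z‖)⁻¹) :=
    (hasSum_geometric_of_lt_one (norm_nonneg _) (by linarith)).mul_left _
  refine (tsum_of_norm_bounded h3 fun k => ?_).trans ?_
  · rw [norm_smul, norm_pow]
    calc ‖z‖ ^ (k + (m + 1)) * ‖coef f (k + (m + 1))‖ ≤ ‖z‖ ^ (k + (m + 1)) * M := by
          gcongr; exact norm_coef_le hf hM _
      _ = M * ‖z‖ ^ (m + 1) * ‖z‖ ^ k := by ring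
  · have h4 : (1 - ‖z‖)⁻¹ ≤ 2 := by
      rw [inv_le_comm₀ (by linarith) two_pos]
      linarith
    calc M * ‖z‖ ^ (m + 1) * (1 - ‖z‖)⁻¹ ≤ M * ‖z‖ ^ (m + 1) * 2 := by gcongr
      _ = _ := by ring

end coef

theorem coef_poly (P : Polynomial ℂ) (k : ℕ) : coef (fun z => P.eval z) k = P.coeff k := by
  unfold coef
  have h1 : (fun z => P.eval z) = fun z => ∑ i ∈ P.support, P.coeff i * z ^ i := by
    funext z
    rw [Polynomial.eval_eq_sum, Polynomial.sum]
  rw [h1, iteratedDeriv_fun_sum (fun i _ => by fun_prop)]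
  have h3 : ∀ i ∈ P.support, iteratedDeriv k (fun z : ℂ => P.coeff i * z ^ i) 0
      = if k = i then P.coeff i * (i.factorial : ℂ) else 0 := by
    intro i _
    rw [iteratedDeriv_const_mul_field, iteratedDeriv_fun_pow_zero]
    split_ifs <;> simp
  rw [Finset.sum_congr rfl h3, Finset.sum_ite_eq]
  simp only [Polynomial.mem_support_iff]
  by_cases h : P.coeff k = 0
  · simp [h]
  · have h2 : (k.factorial : ℂ) ≠ 0 := by exact_mod_cast k.factorial_pos.ne'
    rw [if_pos h, smul_eq_mul]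
    field_simp

/-- locally uniform convergence on the plane -/
def Conv {E : Type} [NormedAddCommGroup E] (g : ℕ → ℂ → E) (G : ℂ → E) : Prop :=
  ∀ R ε : ℝ, 0 < ε → ∀ᶠ j in atTop, ∀ z, ‖z‖ ≤ R → ‖g j z - G z‖ < ε

theorem Conv.at {E : Type} [NormedAddCommGroup E] {g : ℕ → ℂ → E} {G : ℂ → E} (h : Conv g G)
    (z : ℂ) : Tendsto (fun j => g j z) atTop (𝓝 (G z)) := by
  rw [Metric.tendsto_nhds]
  intro ε hε
  filter_upwards [h ‖z‖ ε hε] with j hj
  rw [dist_eq_norm]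
  exact hj z le_rfl

theorem Conv.coef {E : Type} [NormedAddCommGroup E] [NormedSpace ℂ E] [CompleteSpace E]
    {g : ℕ → ℂ → E} {G : ℂ → E} (h : Conv g G) (hg : ∀ j, Differentiable ℂ (g j))
    (hG : Differentiable ℂ G) (k : ℕ) :
    Tendsto (fun j => coef (g j) k) atTop (𝓝 (LC.coef G k)) := by
  rw [Metric.tendsto_nhds]
  intro ε hε
  filter_upwards [h 1 (ε / 2) (by linarith)] with j hj
  rw [dist_eq_norm, ← coef_sub (hg j) hG]
  refine lt_of_le_of_lt (norm_coef_le (M := ε / 2) ((hg j).sub hG) (fun z hz => ?_) k) (by linarith)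
  exact (hj z hz.le).le

/-- **Zeros of limits.** -/
theorem hurwitz {g : ℕ → ℂ → ℂ} {φ : ℂ → ℂ} (h : Conv g φ) (hg : ∀ j, Differentiable ℂ (g j))
    (hφ : Differentiable ℂ φ) (h0 : φ 0 = 0) (hne : ∃ k, coef φ k ≠ 0) {δ : ℝ} (hδ : 0 < δ) :
    ∀ᶠ j in atTop, ∃ c, ‖c‖ < δ ∧ g j c = 0 := by
  -- a small circle without zeros
  have h1 : ∀ᶠ z in 𝓝[≠] (0 : ℂ), φ z ≠ 0 := by
    rcases (hφ.analyticAt 0).eventually_eq_zero_or_eventually_ne_zero with h1 | h1
    · exfalso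
      obtain ⟨k, hk⟩ := hne
      apply hk
      have h2 : φ =ᶠ[𝓝 0] fun _ => 0 := h1
      unfold coef
      rw [h2.iteratedDeriv_eq, iteratedDeriv_const]
      simp
    · exact h1
  obtain ⟨η, hη, hη'⟩ : ∃ η > 0, ∀ z : ℂ, z ≠ 0 → ‖z‖ < η → φ z ≠ 0 := by
    rw [eventually_nhdsWithin_iff, Metric.eventually_nhds_iff] at h1
    obtain ⟨η, hη, h2⟩ := h1
    exact ⟨η, hη, fun z hz hzη => h2 (by simpa using hzη) hz⟩
  set ρ := min (δ / 2) (η / 2) with hρ
  have hρ0 : 0 < ρ := by positivity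
  have hρδ : ρ < δ := lt_of_le_of_lt (min_le_left _ _) (by linarith)
  have hρη : ρ < η := lt_of_le_of_lt (min_le_right _ _) (by linarith)
  have hne0 : ∀ z ∈ sphere (0 : ℂ) ρ, φ z ≠ 0 := by
    intro z hz
    have hz' : ‖z‖ = ρ := by simpa using hz
    exact hη' z (fun h0 => by rw [h0, norm_zero] at hz'; linarith) (by linarith)
  obtain ⟨z0, hz0, hmin⟩ := (isCompact_sphere (0 : ℂ) ρ).exists_isMinOn
    (NormedSpace.sphere_nonempty.2 hρ0.le) hφ.continuous.norm.continuousOn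
  have hμ : 0 < ‖φ z0‖ := norm_pos_iff.2 (hne0 z0 hz0)
  filter_upwards [h ρ (‖φ z0‖ / 2) (by linarith)] with j hj
  by_contra hcon
  push Not at hcon
  have hnz : ∀ z ∈ closedBall (0 : ℂ) ρ, g j z ≠ 0 := fun z hz => hcon z (lt_of_le_of_lt (by
    simpa using hz) hρδ)
  have hcl : DiffContOnCl ℂ (fun z => (g j z)⁻¹) (ball (0 : ℂ) ρ) := by
    apply DifferentiableOn.diffContOnCl
    rw [closure_ball _ hρ0.ne']
    exact (hg j).differentiableOn.inv hnz
  have h5 := Complex.norm_le_of_forall_mem_frontier_norm_le isBounded_ball hcl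
    (C := (‖φ z0‖ / 2)⁻¹) (fun z hz => by
      rw [frontier_ball _ hρ0.ne'] at hz
      rw [norm_inv]
      apply inv_anti₀ (by linarith)
      have h6 := hj z (by simpa using (mem_sphere_zero_iff_norm.1 hz).le)
      have h7 : ‖φ z0‖ ≤ ‖φ z‖ := hmin hz
      have h8 : ‖φ z‖ ≤ ‖g j z‖ + ‖g j z - φ z‖ := by
        calc ‖φ z‖ = ‖g j z - (g j z - φ z)‖ := by congr 1; ring
          _ ≤ _ := norm_sub_le _ _
      linarith) (z := 0) (subset_closure (mem_ball_self hρ0))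
  have h6 := hj 0 (by rw [norm_zero]; exact hρ0.le)
  rw [h0, sub_zero] at h6
  rw [norm_inv] at h5
  have h7 : 0 < ‖g j 0‖ := norm_pos_iff.2 (hnz 0 (mem_closedBall_self hρ0.le))
  have h8 := (inv_le_inv₀ h7 (by linarith)).1 h5
  linarith

end Pool.Agent.K7.H75.LC
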