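import Pool.Agent.K7.H75.LC.Rat

/-! Sequences of entire curves in `X` tending to a multiple of a fixed vector: rescaling at a zero. -/

set_option autoImplicit false
set_option linter.unusedSectionVars false

namespace Pool.Agent.K7.H75.LC

open Filter Topology Metric Set MvPolynomial

variable {N : ℕ} {ι : Type} {F : ι → MvPolynomial (Fin N) ℂ}

/-- homogeneous coordinates without common zeros of an entire curve in `X = {F = 0}` -/
structure Cur (F : ι → MvPolynomial (Fin N) ℂ) (f : ℂ → Fin N → ℂ) : Prop where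
  diff : Differentiable ℂ f
  ne : ∀ z, f z ≠ 0
  mem : ∀ z i, eval (f z) (F i) = 0

theorem Cur.aff (hF : ∀ i, ∃ e, (F i).IsHomogeneous e) {f : ℂ → Fin N → ℂ} (h : Cur F f)
    {a : ℂ} (ha : a ≠ 0) (b c : ℂ) : Cur F (fun z => a • f (c + b * z)) where
  diff := (h.diff.comp (by fun_prop)).const_smul a
  ne z := smul_ne_zero ha (h.ne _)
  mem z i := by
    obtain ⟨e, he⟩ := hF i
    rw [eval_smul_hom he, h.mem, mul_zero]

theorem Conv.comp {E : Type} [NormedAddCommGroup E] {g : ℕ → ℂ → E} {G : ℂ → E} (h : Conv g G)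
    {ψ : ℕ → ℕ} (hψ : Tendsto ψ atTop atTop) : Conv (fun n => g (ψ n)) G :=
  fun R ε hε => hψ.eventually (h R ε hε)

theorem Conv.coord {g : ℕ → ℂ → Fin N → ℂ} {G : ℂ → Fin N → ℂ} (h : Conv g G) (p : Fin N) :
    Conv (fun j z => g j z p) (fun z => G z p) := by
  intro R ε hε
  filter_upwards [h R ε hε] with j hj z hz
  exact lt_of_le_of_lt (norm_le_pi_norm (g j z - G z) p) (hj z hz)

theorem recenter (hF : ∀ i, ∃ e, (F i).IsHomogeneous e) {g : ℕ → ℂ → Fin N → ℂ}
    (hg : ∀ j, Cur F (g j)) {φ : ℂ → ℂ} {u : Fin N → ℂ} {p0 : Fin N} (hφ : Differentiable ℂ φ)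
    (hc : Conv g (fun z => φ z • u)) (h0 : φ 0 = 0) (hne : ∃ k, coef φ k ≠ 0) (hu : u p0 ≠ 0) :
    ∃ h : ℕ → ℂ → Fin N → ℂ, (∀ n, Cur F (h n)) ∧ Conv h (fun z => φ z • u) ∧
      ∀ n, h n 0 p0 = 0 := by
  have h1 : ∀ n : ℕ, ∃ j, (∃ c, ‖c‖ < 1 / ((n : ℝ) + 1) ∧ g j c p0 = 0) ∧
      ∀ z, ‖z‖ ≤ (n : ℝ) + 1 → ‖g j z - φ z • u‖ < 1 / ((n : ℝ) + 1) := by
    intro n
    have hn : (0 : ℝ) < 1 / ((n : ℝ) + 1) := by positivity
    have h2 := hurwitz (g := fun j z => g j z p0) (φ := fun z => φ z • u p0)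
      (hc.coord p0) (fun j => differentiable_pi.1 (hg j).diff p0) (hφ.smul_const _)
      (by simp [h0]) (by
        obtain ⟨k, hk⟩ := hne
        refine ⟨k, ?_⟩
        rw [coef_smul_const hφ]
        exact smul_ne_zero hk hu) hn
    exact (h2.and (hc ((n : ℝ) + 1) _ hn)).exists
  choose j hj1 hj2 using h1
  choose c hc1 hc2 using hj1
  refine ⟨fun n z => g (j n) (c n + z), fun n => ?_, ?_, fun n => ?_⟩
  · have h3 := (hg (j n)).aff hF one_ne_zero 1 (c n)
    simpa using h3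
  · intro R ε hε
    -- uniform continuity of `φ`
    have h4 : UniformContinuousOn φ (closedBall (0 : ℂ) (max R 0 + 1)) :=
      (isCompact_closedBall _ _).uniformContinuousOn_of_continuous hφ.continuous.continuousOn
    rw [Metric.uniformContinuousOn_iff] at h4
    obtain ⟨δ, hδ, h5⟩ := h4 (ε / 2 / (‖u‖ + 1)) (by positivity)
    have h6 : Tendsto (fun n : ℕ => 1 / ((n : ℝ) + 1)) atTop (𝓝 0) :=
      tendsto_one_div_add_atTop_nhds_zero_nat
    filter_upwards [h6.eventually (gt_mem_nhds hδ), h6.eventually (gt_mem_nhds (half_pos hε)),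
      h6.eventually (gt_mem_nhds one_pos),
      tendsto_natCast_atTop_atTop.eventually_ge_atTop (max R 0)] with n h7 h8 h9 h10 z hz
    have hz' : ‖z‖ ≤ max R 0 := hz.trans (le_max_left _ _)
    have h11 : ‖c n + z‖ ≤ max R 0 + 1 := by
      calc ‖c n + z‖ ≤ ‖c n‖ + ‖z‖ := norm_add_le _ _
        _ ≤ max R 0 + 1 := by linarith [hc1 n]
    have h12 := hj2 n (c n + z) (by linarith)
    have h13 := h5 (c n + z) (by simpa using h11) z (by simp; linarith) (by
      rw [dist_eq_norm]; simp; linarith [hc1 n])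
    rw [dist_eq_norm] at h13
    have h14 : ‖φ (c n + z) • u - φ z • u‖ ≤ ε / 2 := by
      rw [← sub_smul, norm_smul]
      calc ‖φ (c n + z) - φ z‖ * ‖u‖ ≤ (ε / 2 / (‖u‖ + 1)) * (‖u‖ + 1) := by
            gcongr
            linarith
        _ = ε / 2 := by field_simp
    calc ‖g (j n) (c n + z) - φ z • u‖
        = ‖(g (j n) (c n + z) - φ (c n + z) • u) + (φ (c n + z) • u - φ z • u)‖ := by
          congr 1; abel
      _ ≤ _ := norm_add_le _ _
      _ < ε := by linarith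
  · show g (j n) (c n + 0) p0 = 0
    rw [add_zero]
    exact hc2 n

/-- the scale at which the coefficient `m` is the largest and is attained once more -/
theorem exists_scale {m : ℕ} (x : ℕ → ℝ) (hx : ∀ i, 0 ≤ x i) (h0 : 0 < x 0) (hm : 0 < m)
    (hxm : 0 < x m) : ∃ l : ℝ, 0 < l ∧ (∀ i < m, x i * l ^ i ≤ x m * l ^ m) ∧
      ∃ i < m, x i * l ^ i = x m * l ^ m := by
  set s : ℕ → ℝ := fun i => (x i / x m) ^ ((m - i : ℕ) : ℝ)⁻¹ with hs
  have hsn : ∀ i, 0 ≤ s i := fun i => Real.rpow_nonneg (div_nonneg (hx i) hxm.le) _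
  have hspow : ∀ i < m, s i ^ (m - i) = x i / x m := fun i hi =>
    Real.rpow_inv_natCast_pow (div_nonneg (hx i) hxm.le) (by omega)
  obtain ⟨i0, hi0, hmax⟩ := Finset.exists_max_image (Finset.range m) s ⟨0, Finset.mem_range.2 hm⟩
  have hi0' : i0 < m := Finset.mem_range.1 hi0
  have hl : 0 < s i0 := by
    have h1 : 0 < s 0 := Real.rpow_pos_of_pos (div_pos h0 hxm) _
    exact h1.trans_le (hmax 0 (Finset.mem_range.2 hm))
  have key : ∀ i < m, x i * s i0 ^ i ≤ x m * s i0 ^ m := by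
    intro i hi
    have h2 : x i / x m ≤ s i0 ^ (m - i) := by
      rw [← hspow i hi]
      exact pow_le_pow_left₀ (hsn i) (hmax i (Finset.mem_range.2 hi)) _
    rw [div_le_iff₀ hxm] at h2
    calc x i * s i0 ^ i ≤ (s i0 ^ (m - i) * x m) * s i0 ^ i := by gcongr
      _ = x m * (s i0 ^ (m - i) * s i0 ^ i) := by ring
      _ = x m * s i0 ^ m := by rw [← pow_add, Nat.sub_add_cancel hi.le]
  refine ⟨s i0, hl, key, i0, hi0', ?_⟩
  have h2 : x i0 = s i0 ^ (m - i0) * x m := by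
    rw [hspow i0 hi0']
    field_simp
  calc x i0 * s i0 ^ i0 = (s i0 ^ (m - i0) * x m) * s i0 ^ i0 := by rw [← h2]
    _ = x m * (s i0 ^ (m - i0) * s i0 ^ i0) := by ring
    _ = x m * s i0 ^ m := by rw [← pow_add, Nat.sub_add_cancel hi0'.le]

theorem scale_small {m : ℕ} {x : ℕ → ℝ} {l η : ℝ} (hη : 0 < η) (hη1 : η ≤ 1)
    (hl : 0 < l) (hxm : 0 < x m) (hsm : ∀ i < m, x i < η ^ m * x m)
    (he : ∃ i < m, x i * l ^ i = x m * l ^ m) : l < η := by
  by_contra hcon
  push Not at hcon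
  obtain ⟨i, hi, h⟩ := he
  have h1 : x i = x m * l ^ (m - i) := by
    have h2 : l ^ m = l ^ (m - i) * l ^ i := by rw [← pow_add, Nat.sub_add_cancel hi.le]
    rw [h2, ← mul_assoc] at h
    exact mul_right_cancel₀ (pow_pos hl i).ne' h
  have h3 : η ^ m ≤ l ^ (m - i) := by
    calc η ^ m ≤ η ^ (m - i) := pow_le_pow_of_le_one hη.le hη1 (by omega)
      _ ≤ l ^ (m - i) := pow_le_pow_left₀ hη.le hcon _
  have h4 := hsm i hi
  rw [h1] at h4
  have h5 : η ^ m * x m ≤ x m * l ^ (m - i) := by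
    rw [mul_comm]
    gcongr
  linarith

/-- the polynomial curve with given coefficients -/
noncomputable def polyOf {m : ℕ} (B : Fin (m + 1) → Fin N → ℂ) (p : Fin N) : Polynomial ℂ :=
  ∑ i : Fin (m + 1), Polynomial.monomial (i : ℕ) (B i p)

theorem coeff_polyOf {m : ℕ} (B : Fin (m + 1) → Fin N → ℂ) (p : Fin N) (i : Fin (m + 1)) :
    (polyOf B p).coeff i = B i p := by
  unfold polyOf
  rw [Polynomial.finsetSum_coeff]
  simp only [Polynomial.coeff_monomial]
  rw [Finset.sum_eq_single i]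
  · simp
  · intro b _ hb
    rw [if_neg]
    intro h
    exact hb (Fin.ext h)
  · intro h
    exact absurd (Finset.mem_univ i) h

theorem natDegree_polyOf {m : ℕ} (B : Fin (m + 1) → Fin N → ℂ) (p : Fin N) :
    (polyOf B p).natDegree ≤ m := by
  unfold polyOf
  refine Polynomial.natDegree_sum_le_of_forall_le _ _ fun i _ => ?_
  exact (Polynomial.natDegree_monomial_le _).trans (by omega)

theorem eval_polyOf {m : ℕ} (B : Fin (m + 1) → Fin N → ℂ) (z : ℂ) :
    (fun p => (polyOf B p).eval z) = ∑ i : Fin (m + 1), z ^ (i : ℕ) • B i := by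
  funext p
  unfold polyOf
  rw [Polynomial.eval_finsetSum, Finset.sum_apply]
  refine Finset.sum_congr rfl fun i _ => ?_
  rw [Polynomial.eval_monomial, Pi.smul_apply, smul_eq_mul, mul_comm]

theorem poly_alt (hF : ∀ i, ∃ e, (F i).IsHomogeneous e) {m : ℕ} {B : Fin (m + 1) → Fin N → ℂ}
    (hm : ∀ t i, eval (fun p => (polyOf B p).eval t) (F i) = 0) (hno : ¬ RatCurve F m)
    {p0 : Fin N} {i0 : Fin (m + 1)} (h : B i0 p0 ≠ 0) :
    ∃ u : Fin N → ℂ, u p0 = 1 ∧ ∀ p, polyOf B p = Polynomial.C (u p) * polyOf B p0 := by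
  have h1 : ∀ s t p q, (polyOf B p).eval s * (polyOf B q).eval t
      = (polyOf B q).eval s * (polyOf B p).eval t := by
    intro s t p q
    by_contra hcon
    exact hno (ratCurve_of_poly hF m _ (natDegree_polyOf B) hm ⟨s, t, p, q, hcon⟩)
  have h2 : polyOf B p0 ≠ 0 := by
    intro h0
    apply h
    rw [← coeff_polyOf B p0 i0, h0, Polynomial.coeff_zero]
  obtain ⟨t, ht⟩ : ∃ t, (polyOf B p0).eval t ≠ 0 := by
    by_contra hcon
    push Not at hcon
    exact h2 (Polynomial.funext fun t => by rw [hcon t, Polynomial.eval_zero])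
  refine ⟨fun p => (polyOf B p).eval t / (polyOf B p0).eval t, div_self ht, fun p => ?_⟩
  apply Polynomial.funext
  intro s
  rw [Polynomial.eval_mul, Polynomial.eval_C, div_mul_eq_mul_div, eq_div_iff ht, h1 s t p p0]
  ring

end Pool.Agent.K7.H75.LC
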