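import Pool.Agent.K7.H75.LC.BL
import Pool.Agent.K7.H75.LE.DI

/-! # Combinations of ordinates with clustered shifts -/

set_option autoImplicit false

open Filter Topology MeasureTheory Set

namespace Pool.Agent.K7.H75.LC

open SG (ord NZ)
open Pool.Agent.R846.UL (cn cn_eq cn_mono)
open Pool.Agent.K7.H75.LE (pig)

/-- the classes of the doubled relation -/
def dpi {k : ℕ} (π : Fin k → Fin k) : Fin (k + k) → Fin (k + k) :=
  Fin.append (fun a => Fin.castAdd k (π a)) (fun a => Fin.natAdd k (π a))

lemma dpi_left {k : ℕ} (π : Fin k → Fin k) (a : Fin k) : dpi π (Fin.castAdd k a) = Fin.castAdd k (π a) := by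
  unfold dpi
  rw [Fin.append_left]

lemma dpi_right {k : ℕ} (π : Fin k → Fin k) (a : Fin k) : dpi π (Fin.natAdd k a) = Fin.natAdd k (π a) := by
  unfold dpi
  rw [Fin.append_right]

lemma cast_ne_nat {k : ℕ} (a b : Fin k) : Fin.castAdd k a ≠ Fin.natAdd k b := by
  intro h
  have := congrArg Fin.val h
  simp only [Fin.val_castAdd, Fin.val_natAdd] at this
  omega

lemma cs_dpi {k : ℕ} (π : Fin k → Fin k) (c d : Fin k → ℝ) (l : Fin k) :
    cs (dpi π) (Fin.append c d) (Fin.castAdd k l) = cs π c l := by
  unfold cs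
  rw [Finset.sum_filter, Finset.sum_filter, Fin.sum_univ_add]
  have h1 : ∑ i : Fin k, (if dpi π (Fin.natAdd k i) = Fin.castAdd k l then
      (Fin.append c d) (Fin.natAdd k i) else 0) = 0 := by
    refine Finset.sum_eq_zero fun i _ => ?_
    rw [dpi_right, if_neg (cast_ne_nat l (π i)).symm]
  rw [h1, add_zero]
  refine Finset.sum_congr rfl fun i _ => ?_
  rw [dpi_left, Fin.append_left]
  by_cases h : π i = l
  · rw [if_pos (by rw [h]), if_pos h]
  · rw [if_neg (fun h' => h (Fin.castAdd_injective k k h')), if_neg h]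

/-- **combinations of few ordinates, clustered shifts** -/
theorem ordgc (k : ℕ) (B H : ℝ) (hB : 1 ≤ B) (hH : 1 ≤ H) {η : ℝ} (hη : 0 < η) :
    ∃ (ε Λ : ℝ) (D₀ : ℕ), 0 < ε ∧ 1 ≤ Λ ∧
    ∀ (D₁ D₂ : ℝ) (L N : ℕ) (m : Fin k → ℕ) (c : Fin k → ℝ) (π : Fin k → Fin k) (b : ℝ),
    0 ≤ D₁ → Λ * (1 + Real.log (1 + D₁)) ≤ Real.log D₂ →
    (D₀ : ℝ) ≤ D₂ → D₂ ≤ L → 1 ≤ N → (L : ℝ) * Real.log L ≤ B * Real.log N →
    Real.log L ^ 2 ≤ Real.log D₂ ^ 5 → (∀ i, m i ≤ L) →
    (∀ i j, π i = π j → |(m i : ℝ) - m j| ≤ D₁) →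
    (∀ i j, π i ≠ π j → D₂ ≤ |(m i : ℝ) - m j|) →
    (∀ i, |c i| ≤ H) → (∃ l, 1 ≤ |cs π c l|) →
    cn N {n | |∑ i, c i * ord (n + m i) - b| ≤ ε * Real.sqrt (Real.log D₂) / Real.log (ord n)} ≤
      η * N := by
  classical
  obtain ⟨K, hK⟩ : ∃ K : ℕ, K = ⌈4 / η⌉₊ + 1 := ⟨_, rfl⟩
  have hK1 : 1 ≤ K := by omega
  have hKr : (1 : ℝ) ≤ K := by exact_mod_cast hK1
  have hKη : 4 ≤ K * η := by
    have h1 : 4 / η ≤ K := by
      rw [hK]; push_cast
      linarith [Nat.le_ceil (4 / η)]
    rwa [div_le_iff₀ hη] at h1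
  obtain ⟨ε, Λ, D1, hε, hΛ, hordz⟩ := ordzc (k + k) (2 * (2 * K + 1) * B) H (by nlinarith) hH
    (show (0 : ℝ) < 1 / (K : ℝ) ^ 2 by positivity)
  obtain ⟨n0, hn0⟩ := (SG.ord_tendsto.eventually_ge_atTop 3).exists_forall_of_atTop
  refine ⟨ε / 2, Λ, D1 + ⌈Real.exp (2 * B)⌉₊ + K ^ 2 * (n0 + 1) + 2 * K + 16, by positivity, hΛ,
    fun D₁ D₂ L N m c π b hD1 hΛD hDr hDLr hN hLN hLD hm hin hout hc1 hc => ?_⟩
  obtain ⟨i1, hi1⟩ := hc
  have hNpos : (0 : ℝ) < N := by exact_mod_cast hN
  have hD : D1 + ⌈Real.exp (2 * B)⌉₊ + K ^ 2 * (n0 + 1) + 2 * K + 16 ≤ L := by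
    have : ((D1 + ⌈Real.exp (2 * B)⌉₊ + K ^ 2 * (n0 + 1) + 2 * K + 16 : ℕ) : ℝ) ≤ L := hDr.trans hDLr
    exact_mod_cast this
  obtain ⟨hDD1, hD16, h2K⟩ : (D1 : ℝ) ≤ D₂ ∧ (16 : ℝ) ≤ D₂ ∧ 2 * (K : ℝ) + 1 ≤ D₂ := by
    refine ⟨le_trans ?_ hDr, le_trans ?_ hDr, le_trans ?_ hDr⟩
    · exact_mod_cast (by omega)
    · exact_mod_cast (by omega)
    · exact_mod_cast (by omega)
  have hL16 : (16 : ℝ) ≤ L := by linarith
  have hlogD : 2 ≤ Real.log D₂ := by
    rw [Real.le_log_iff_exp_le (by linarith)]
    have h1 : Real.exp 2 = Real.exp 1 ^ 2 := by rw [← Real.exp_nat_mul]; norm_num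
    rw [h1]
    have h2 := Real.exp_one_lt_d9
    have h3 := Real.exp_pos 1
    nlinarith
  have hlogL : 2 * B ≤ Real.log L := by
    rw [Real.le_log_iff_exp_le (by linarith)]
    exact (Nat.le_ceil _).trans (by exact_mod_cast (by omega : ⌈Real.exp (2 * B)⌉₊ ≤ L))
  have hlogN : 2 * (L : ℝ) ≤ Real.log N := by
    have a2 : B * (2 * (L : ℝ)) ≤ B * Real.log N := by
      refine le_trans ?_ hLN
      calc B * (2 * (L : ℝ)) = L * (2 * B) := by ring
        _ ≤ L * Real.log L := mul_le_mul_of_nonneg_left hlogL (by linarith)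
    exact le_of_mul_le_mul_left a2 (by linarith)
  have hK2 : K ^ 2 * (n0 + 1) ≤ L := by omega
  have hK2r : (K : ℝ) ^ 2 * (n0 + 1) ≤ L := by exact_mod_cast hK2
  have hK2L : (K : ℝ) ^ 2 ≤ L := by
    have : (K : ℝ) ^ 2 * 1 ≤ (K : ℝ) ^ 2 * (n0 + 1) := by
      apply mul_le_mul_of_nonneg_left _ (by positivity)
      have : (0 : ℝ) ≤ n0 := Nat.cast_nonneg _
      linarith
    linarith
  have hNexp : 2 * (L : ℝ) ^ 2 + 2 * L ≤ N := by
    have h1 : Real.exp (2 * L) ≤ N := by
      rw [← Real.le_log_iff_exp_le hNpos]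
      exact hlogN
    have h2 := Real.quadratic_le_exp_of_nonneg (show (0 : ℝ) ≤ 2 * L by positivity)
    nlinarith
  -- the events
  obtain ⟨P, hP⟩ : ∃ P : ℕ → Prop, P = fun n => |∑ i, c i * ord (n + m i) - b| ≤
    ε / 2 * Real.sqrt (Real.log D₂) / Real.log (ord n) := ⟨_, rfl⟩
  obtain ⟨J, hJ⟩ : ∃ J : ℕ, J = ⌈D₂⌉₊ := ⟨_, rfl⟩
  have hJL : J ≤ L := by
    rw [hJ]
    exact Nat.ceil_le.2 hDLr
  have hJD : D₂ ≤ J := by
    rw [hJ]
    exact Nat.le_ceil D₂
  obtain ⟨G', hG'⟩ : ∃ G' : ℕ, G' = L + J := ⟨_, rfl⟩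
  obtain ⟨F, hF⟩ : ∃ F : ℕ → Finset ℕ, F = fun i => (Finset.Icc 1 N).filter (fun n => P (n + i * G')) :=
    ⟨_, rfl⟩
  have hFm : ∀ i n, n ∈ F i ↔ (1 ≤ n ∧ n ≤ N) ∧ P (n + i * G') := by
    intro i n
    rw [hF, Finset.mem_filter, Finset.mem_Icc]
  set G := (Finset.Icc 1 N).filter P with hG
  have hGF : ∀ i, G.card ≤ i * G' + (F i).card := by
    intro i
    have hsub : G ⊆ Finset.Icc 1 (i * G') ∪ (F i).image (fun n => n + i * G') := by
      intro n hn
      rw [hG, Finset.mem_filter, Finset.mem_Icc] at hn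
      rw [Finset.mem_union, Finset.mem_Icc, Finset.mem_image]
      by_cases h : n ≤ i * G'
      · left; exact ⟨hn.1.1, h⟩
      · right
        refine ⟨n - i * G', ?_, by omega⟩
        rw [hFm]
        refine ⟨⟨by omega, by omega⟩, ?_⟩
        rw [Nat.sub_add_cancel (by omega)]
        exact hn.2
    have g2 := (Finset.card_le_card hsub).trans ((Finset.card_union_le _ _).trans
      (add_le_add le_rfl Finset.card_image_le))
    rw [Nat.card_Icc] at g2
    omega
  -- the pairs
  have hpair : ∀ i j, j < i → i < K → ((F j ∩ F i).card : ℝ) ≤ n0 + 1 / (K : ℝ) ^ 2 * N := by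
    intro i j hji hiK
    have hjH : j * G' + G' ≤ i * G' := by
      have : (j + 1) * G' ≤ i * G' := Nat.mul_le_mul_right _ hji
      linarith
    have hiH : i * G' + G' ≤ K * G' := by
      have : (i + 1) * G' ≤ K * G' := Nat.mul_le_mul_right _ hiK
      linarith
    obtain ⟨L', hL'⟩ : ∃ L' : ℕ, L' = (2 * K + 1) * L := ⟨_, rfl⟩
    have hKH : K * G' ≤ 2 * K * L := by
      rw [hG']
      have : K * (L + J) ≤ K * (L + L) := Nat.mul_le_mul_left _ (by omega)
      linarith
    have hL'2 : L' = 2 * K * L + L := by rw [hL']; ring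
    have hLL' : L ≤ L' := by omega
    have hlog2K : Real.log (2 * K + 1) ≤ Real.log D₂ := Real.log_le_log (by linarith) h2K
    have hlogDL : Real.log D₂ ≤ Real.log L := Real.log_le_log (by linarith) hDLr
    have hlogL' : Real.log L' = Real.log (2 * K + 1) + Real.log L := by
      rw [hL']
      push_cast
      exact Real.log_mul (by positivity) (by linarith)
    have hlog2K0 : 0 ≤ Real.log (2 * (K : ℝ) + 1) := Real.log_nonneg (by linarith)
    have key : ∀ x y : ℕ, x + J ≤ y → D₂ ≤ |(x : ℝ) - y| := by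
      intro x y h
      have h1 : (x : ℝ) + J ≤ y := by exact_mod_cast h
      rw [abs_sub_comm]
      refine le_trans ?_ (le_abs_self _)
      linarith
    have hz := hordz D₁ D₂ L' N (Fin.append (fun a => j * G' + m a) (fun a => i * G' + m a))
      (Fin.append c (fun a => -c a)) (dpi π) 0 hD1 hΛD hDD1
      (hDLr.trans (by exact_mod_cast hLL')) hN
      (by
        rw [hlogL', hL']
        push_cast
        calc (2 * (K : ℝ) + 1) * L * (Real.log (2 * K + 1) + Real.log L)
            ≤ (2 * (K : ℝ) + 1) * L * (2 * Real.log L) :=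
              mul_le_mul_of_nonneg_left (by linarith) (by positivity)
          _ = 2 * (2 * K + 1) * (L * Real.log L) := by ring
          _ ≤ 2 * (2 * K + 1) * (B * Real.log N) :=
              mul_le_mul_of_nonneg_left hLN (by positivity)
          _ = _ := by ring)
      (by
        rw [hlogL']
        have h1 : (Real.log (2 * K + 1) + Real.log L) ^ 2 ≤ (2 * Real.log L) ^ 2 :=
          pow_le_pow_left₀ (by linarith) (by linarith) 2
        linarith)
      (fun a => by
        refine Fin.addCases (fun a => ?_) (fun a => ?_) a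
        · rw [Fin.append_left]
          have := hm a
          omega
        · rw [Fin.append_right]
          have := hm a
          omega)
      (fun a a' => by
        refine Fin.addCases (fun a => ?_) (fun a => ?_) a
        · refine Fin.addCases (fun a' => ?_) (fun a' => ?_) a'
          · intro h
            rw [dpi_left, dpi_left] at h
            rw [Fin.append_left, Fin.append_left]
            push_cast
            have e : (j : ℝ) * G' + m a - (j * G' + m a') = m a - m a' := by ring
            rw [e]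
            exact hin a a' (Fin.castAdd_injective k k h)
          · intro h
            rw [dpi_left, dpi_right] at h
            exact absurd h (cast_ne_nat _ _)
        · refine Fin.addCases (fun a' => ?_) (fun a' => ?_) a'
          · intro h
            rw [dpi_left, dpi_right] at h
            exact absurd h.symm (cast_ne_nat _ _)
          · intro h
            rw [dpi_right, dpi_right] at h
            rw [Fin.append_right, Fin.append_right]
            push_cast
            have e : (i : ℝ) * G' + m a - (i * G' + m a') = m a - m a' := by ring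
            rw [e]
            exact hin a a' (Fin.natAdd_injective k k h))
      (fun a a' => by
        refine Fin.addCases (fun a => ?_) (fun a => ?_) a
        · refine Fin.addCases (fun a' => ?_) (fun a' => ?_) a'
          · intro h
            rw [dpi_left, dpi_left] at h
            rw [Fin.append_left, Fin.append_left]
            push_cast
            have e : (j : ℝ) * G' + m a - (j * G' + m a') = m a - m a' := by ring
            rw [e]
            exact hout a a' (fun h' => h (by rw [h']))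
          · intro _
            rw [Fin.append_left, Fin.append_right]
            apply key
            have := hm a
            omega
        · refine Fin.addCases (fun a' => ?_) (fun a' => ?_) a'
          · intro _
            rw [Fin.append_left, Fin.append_right, abs_sub_comm]
            apply key
            have := hm a'
            omega
          · intro h
            rw [dpi_right, dpi_right] at h
            rw [Fin.append_right, Fin.append_right]
            push_cast
            have e : (i : ℝ) * G' + m a - (i * G' + m a') = m a - m a' := by ring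
            rw [e]
            exact hout a a' (fun h' => h (by rw [h'])))
      (by
        rw [Fin.sum_univ_add]
        simp only [Fin.append_left, Fin.append_right]
        rw [Finset.sum_neg_distrib, add_neg_cancel])
      (fun a => by
        refine Fin.addCases (fun a => ?_) (fun a => ?_) a
        · rw [Fin.append_left]
          exact hc1 a
        · rw [Fin.append_right, abs_neg]
          exact hc1 a)
      ⟨Fin.castAdd k i1, by rw [cs_dpi]; exact hi1⟩
    have hsub : F j ∩ F i ⊆ Finset.Icc 1 n0 ∪ (Finset.Icc 1 N).filter (fun n =>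
        |∑ a, (Fin.append c (fun a => -c a)) a *
          ord (n + (Fin.append (fun a => j * G' + m a) (fun a => i * G' + m a)) a) - 0| ≤
          ε * Real.sqrt (Real.log D₂) / Real.log (ord n)) := by
      intro n hn
      rw [Finset.mem_inter, hFm, hFm] at hn
      rw [Finset.mem_union, Finset.mem_Icc, Finset.mem_filter, Finset.mem_Icc]
      by_cases h : n ≤ n0
      · left; exact ⟨hn.1.1.1, h⟩
      · right
        refine ⟨hn.1.1, ?_⟩
        obtain ⟨⟨⟨hn1, _⟩, g1⟩, ⟨_, g2⟩⟩ := hn
        rw [hP] at g1 g2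
        have hord : 3 ≤ ord n := hn0 n (by omega)
        have hlog0 : 0 < Real.log (ord n) := Real.log_pos (by linarith)
        have hs0 := Real.sqrt_nonneg (Real.log D₂)
        have hmono : ∀ a : ℕ, ε / 2 * Real.sqrt (Real.log D₂) / Real.log (ord (n + a)) ≤
            ε / 2 * Real.sqrt (Real.log D₂) / Real.log (ord n) := by
          intro a
          apply div_le_div_of_nonneg_left (by positivity) hlog0
          exact Real.log_le_log (by linarith) (SG.ord_mono hn1 (by omega))
        have g1' := g1.trans (hmono (j * G'))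
        have g2' := g2.trans (hmono (i * G'))
        rw [sub_zero, Fin.sum_univ_add]
        simp only [Fin.append_left, Fin.append_right]
        have e1 : ∀ a, n + (j * G' + m a) = n + j * G' + m a := fun a => by omega
        have e2 : ∀ a, n + (i * G' + m a) = n + i * G' + m a := fun a => by omega
        simp only [e1, e2, neg_mul]
        rw [Finset.sum_neg_distrib]
        have e3 : ∑ a, c a * ord (n + j * G' + m a) + -∑ a, c a * ord (n + i * G' + m a) =
            (∑ a, c a * ord (n + j * G' + m a) - b) - (∑ a, c a * ord (n + i * G' + m a) - b) := by ring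
        rw [e3]
        refine (abs_sub _ _).trans ?_
        have e4 : ε * Real.sqrt (Real.log D₂) / Real.log (ord n) =
          ε / 2 * Real.sqrt (Real.log D₂) / Real.log (ord n) +
          ε / 2 * Real.sqrt (Real.log D₂) / Real.log (ord n) := by ring
        rw [e4]
        exact add_le_add g1' g2'
    rw [cn_eq] at hz
    have g3 := (Finset.card_le_card hsub).trans (Finset.card_union_le _ _)
    rw [Nat.card_Icc] at g3
    have g4 : ((F j ∩ F i).card : ℝ) ≤ n0 + (((Finset.Icc 1 N).filter (fun n =>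
        |∑ a, (Fin.append c (fun a => -c a)) a *
          ord (n + (Fin.append (fun a => j * G' + m a) (fun a => i * G' + m a)) a) - 0| ≤
          ε * Real.sqrt (Real.log D₂) / Real.log (ord n))).card : ℝ) := by
      have : (F j ∩ F i).card ≤ n0 + ((Finset.Icc 1 N).filter (fun n =>
        |∑ a, (Fin.append c (fun a => -c a)) a *
          ord (n + (Fin.append (fun a => j * G' + m a) (fun a => i * G' + m a)) a) - 0| ≤
          ε * Real.sqrt (Real.log D₂) / Real.log (ord n))).card := by omega
      exact_mod_cast this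
    linarith
  -- the sum
  have hpig := pig F K
  have hU : ((Finset.range K).biUnion F).card ≤ N := by
    have h1 : (Finset.range K).biUnion F ⊆ Finset.Icc 1 N := by
      intro n hn
      obtain ⟨i, _, hi⟩ := Finset.mem_biUnion.1 hn
      rw [hFm] at hi
      exact Finset.mem_Icc.2 hi.1
    have h2 := Finset.card_le_card h1
    rw [Nat.card_Icc] at h2
    omega
  have hpigr : (∑ i ∈ Finset.range K, ((F i).card : ℝ)) ≤ N +
      ∑ i ∈ Finset.range K, ∑ j ∈ Finset.range i, ((F j ∩ F i).card : ℝ) := by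
    have : ∑ i ∈ Finset.range K, (F i).card ≤ N +
      ∑ i ∈ Finset.range K, ∑ j ∈ Finset.range i, (F j ∩ F i).card := by omega
    exact_mod_cast this
  have hN0 : (0 : ℝ) ≤ n0 + 1 / (K : ℝ) ^ 2 * N := by positivity
  have hS : ∑ i ∈ Finset.range K, ∑ j ∈ Finset.range i, ((F j ∩ F i).card : ℝ) ≤
      (K : ℝ) ^ 2 * (n0 + 1 / (K : ℝ) ^ 2 * N) := by
    calc _ ≤ ∑ i ∈ Finset.range K, (K : ℝ) * (n0 + 1 / (K : ℝ) ^ 2 * N) := by
          refine Finset.sum_le_sum fun i hi => ?_
          have hiK := Finset.mem_range.1 hi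
          calc _ ≤ ∑ j ∈ Finset.range i, (n0 + 1 / (K : ℝ) ^ 2 * N) :=
                Finset.sum_le_sum fun j hj => hpair i j (Finset.mem_range.1 hj) hiK
            _ = i * (n0 + 1 / (K : ℝ) ^ 2 * N) := by
                rw [Finset.sum_const, Finset.card_range, nsmul_eq_mul]
            _ ≤ _ := by
                apply mul_le_mul_of_nonneg_right _ hN0
                exact_mod_cast hiK.le
      _ = _ := by
          rw [Finset.sum_const, Finset.card_range, nsmul_eq_mul]
          ring
  have hGK : (K : ℝ) * G.card ≤ K * (K * G') + ∑ i ∈ Finset.range K, ((F i).card : ℝ) := by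
    have h1 : ∑ i ∈ Finset.range K, (G.card : ℝ) ≤ ∑ i ∈ Finset.range K, ((K * G' : ℝ) + (F i).card) := by
      refine Finset.sum_le_sum fun i hi => ?_
      have h2 := hGF i
      have h3 : i * G' ≤ K * G' := Nat.mul_le_mul_right _ (Finset.mem_range.1 hi).le
      have h4 : G.card ≤ K * G' + (F i).card := by omega
      exact_mod_cast h4
    rw [Finset.sum_add_distrib, Finset.sum_const, Finset.sum_const, Finset.card_range, nsmul_eq_mul,
      nsmul_eq_mul] at h1
    exact h1
  have hHr : (G' : ℝ) ≤ 2 * L := by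
    rw [hG']; push_cast
    have : (J : ℝ) ≤ L := by exact_mod_cast hJL
    linarith
  have e5 : (K : ℝ) ^ 2 * (n0 + 1 / (K : ℝ) ^ 2 * N) = K ^ 2 * n0 + N := by
    field_simp
  rw [e5] at hS
  have g5 : {n | |∑ i, c i * ord (n + m i) - b| ≤ ε / 2 * Real.sqrt (Real.log D₂) / Real.log (ord n)} =
      {n | P n} := by rw [hP]
  rw [g5, cn_eq]
  have h6 : (K : ℝ) * (K * G') ≤ N := by
    calc (K : ℝ) * (K * G') = K ^ 2 * G' := by ring
      _ ≤ L * (2 * L) := mul_le_mul hK2L hHr (Nat.cast_nonneg _) (by linarith)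
      _ ≤ N := by nlinarith
  have h7 : (K : ℝ) ^ 2 * n0 ≤ N := by
    have : (K : ℝ) ^ 2 * n0 ≤ (K : ℝ) ^ 2 * (n0 + 1) := mul_le_mul_of_nonneg_left (by linarith) (by positivity)
    nlinarith
  have h8 : (K : ℝ) * G.card ≤ K * (η * N) := by
    calc (K : ℝ) * G.card ≤ 4 * N := by linarith
      _ ≤ (K * η) * N := mul_le_mul_of_nonneg_right hKη hNpos.le
      _ = K * (η * N) := by ring
  exact le_of_mul_le_mul_left h8 (by linarith)

end Pool.Agent.K7.H75.LC
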