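import Pool.Agent.K7.H75.LE.HO

/-! # The energy and the variance, some coefficients being zero -/

set_option autoImplicit false

namespace Pool.Agent.K7.H75.LC

open Complex Filter Topology MeasureTheory Set
open Pool.Agent.K7.H75.LE
open Pool.Agent.TH850.UV (kap)
open Pool.Agent.Y743.CL (VS VS_nonneg rc XK er er_meas comb small_log gs)
open Pool.Agent.R846.VS (Dd)
open Pool.Agent.R321.QA (hs)
open SG (NZ)

/-- the logarithmic energy, the points with nonzero coefficients being separated -/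
theorem energy' {ι : Type*} [Fintype ι] (x c : ι → ℝ) (hc : ∑ i, c i = 0) {D : ℝ} (hD : 0 < D)
    (hx : ∀ i j, i ≠ j → c i ≠ 0 → c j ≠ 0 → D ≤ |x i - x j|) :
    (Real.log D - 1) * ∑ i, c i ^ 2 ≤ -∑ i, ∑ j, c i * c j * Real.log |x i - x j| := by
  classical
  have key : ∀ f : ι → ℝ, (∀ i, c i = 0 → f i = 0) → ∑ i : {i // c i ≠ 0}, f i = ∑ i, f i := by
    intro f hf
    rw [← Finset.sum_subtype (Finset.univ.filter fun i => c i ≠ 0) (fun i => by simp) f]
    refine Finset.sum_filter_of_ne fun i _ hi hc0 => hi (hf i hc0)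
  have h1 := energy (fun i : {i // c i ≠ 0} => x i) (fun i : {i // c i ≠ 0} => c i)
    (by rw [key c (fun i hi => hi)]; exact hc) hD
    (fun i j hij => hx i j (fun h => hij (Subtype.ext h)) i.2 j.2)
  rw [key (fun i => c i ^ 2) (fun i hi => by rw [hi]; norm_num)] at h1
  have h2 : ∑ i : {i // c i ≠ 0}, ∑ j : {i // c i ≠ 0}, c i * c j * Real.log |x i - x j| =
      ∑ i, ∑ j, c i * c j * Real.log |x i - x j| := by
    have h3 : ∀ i : {i // c i ≠ 0}, ∑ j : {i // c i ≠ 0}, c i * c j * Real.log |x i - x j| =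
        ∑ j, c i * c j * Real.log |x i - x j| := fun i =>
      key (fun j => c i * c j * Real.log |x i - x j|) (fun j hj => by rw [hj]; ring)
    rw [Finset.sum_congr rfl fun i _ => h3 i]
    exact key (fun i => ∑ j, c i * c j * Real.log |x i - x j|)
      (fun i hi => Finset.sum_eq_zero fun j _ => by rw [hi]; ring)
  rw [h2] at h1
  exact h1

variable {k : ℕ}

/-- **the lower bound for the variance** -/
theorem var_lb' (l T : ℝ) (hT : 0 < Real.log T) (x c : Fin k → ℝ) (hc : ∑ j, c j = 0) (X : ℕ) {D C' : ℝ}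
    (hD : 0 < D) (hx : ∀ i j, i ≠ j → c i ≠ 0 → c j ≠ 0 → D ≤ |x i - x j|) (hC' : 0 ≤ C')
    (hV : ∀ i j, i ≠ j → c i ≠ 0 → c j ≠ 0 → |VS (rc l (2 * Real.pi * |x i - x j| / Real.log T)) X -
      2 / Real.pi ^ 2 * Real.log (|x i - x j|)| ≤ C') :
    1 / Real.pi ^ 2 * ((Real.log D - 1) * ∑ i, c i ^ 2) - C' / 2 * (∑ i, |c i|) ^ 2 ≤
      VS (rr (zc l (fun j => 2 * Real.pi * x j / Real.log T) c)) X := by
  have hpi := Real.pi_pos
  rw [VS_zc _ _ _ hc]
  have h1 : ∀ i j, c i ≠ 0 → c j ≠ 0 →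
      |VS (rc l (2 * Real.pi * x i / Real.log T - 2 * Real.pi * x j / Real.log T)) X -
      2 / Real.pi ^ 2 * Real.log (|x i - x j|)| ≤ C' := by
    intro i j hci hcj
    by_cases h : i = j
    · subst h
      rw [sub_self, sub_self, VS_zero, abs_zero, Real.log_zero, mul_zero, sub_zero, abs_zero]
      exact hC'
    · have e : 2 * Real.pi * |x i - x j| / Real.log T =
          |2 * Real.pi * x i / Real.log T - 2 * Real.pi * x j / Real.log T| := by
        rw [← sub_div, ← mul_sub, abs_div, abs_mul, abs_of_pos (by positivity : 0 < 2 * Real.pi),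
          abs_of_pos hT]
      have h2 := hV i j h hci hcj
      rw [e, VS_abs] at h2
      exact h2
  have h2 : ∀ i j, c i * c j * VS (rc l (2 * Real.pi * x i / Real.log T - 2 * Real.pi * x j / Real.log T)) X ≤
      2 / Real.pi ^ 2 * (c i * c j * Real.log |x i - x j|) + C' * (|c i| * |c j|) := by
    intro i j
    by_cases hci : c i = 0
    · rw [hci]; simp
    by_cases hcj : c j = 0
    · rw [hcj]; simp
    have h3 := h1 i j hci hcj
    set v := VS (rc l (2 * Real.pi * x i / Real.log T - 2 * Real.pi * x j / Real.log T)) X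
    have h4 : c i * c j * v = 2 / Real.pi ^ 2 * (c i * c j * Real.log |x i - x j|) +
        c i * c j * (v - 2 / Real.pi ^ 2 * Real.log |x i - x j|) := by ring
    have h5 : c i * c j * (v - 2 / Real.pi ^ 2 * Real.log |x i - x j|) ≤ C' * (|c i| * |c j|) := by
      refine (le_abs_self _).trans ?_
      rw [abs_mul, abs_mul, mul_comm]
      exact mul_le_mul_of_nonneg_right h3 (by positivity)
    linarith
  have h3 : ∑ i, ∑ j, c i * c j * VS (rc l (2 * Real.pi * x i / Real.log T - 2 * Real.pi * x j / Real.log T)) X ≤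
      2 / Real.pi ^ 2 * (∑ i, ∑ j, c i * c j * Real.log |x i - x j|) + C' * (∑ i, |c i|) ^ 2 := by
    calc _ ≤ ∑ i, ∑ j, (2 / Real.pi ^ 2 * (c i * c j * Real.log |x i - x j|) + C' * (|c i| * |c j|)) :=
          Finset.sum_le_sum fun i _ => Finset.sum_le_sum fun j _ => h2 i j
      _ = _ := by
          rw [sq (∑ i, |c i|), Finset.sum_mul_sum]
          simp only [Finset.sum_add_distrib, Finset.mul_sum]
  have h4 := energy' x c hc hD hx
  have h5 : 0 < 1 / Real.pi ^ 2 := by positivity
  have h6 := mul_le_mul_of_nonneg_left h4 h5.le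
  have h7 : 1 / Real.pi ^ 2 * -∑ i, ∑ j, c i * c j * Real.log |x i - x j| =
      -(1 / 2) * (2 / Real.pi ^ 2 * (∑ i, ∑ j, c i * c j * Real.log |x i - x j|)) := by ring
  linarith

end Pool.Agent.K7.H75.LC
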