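import Pool.Agent.K7.H75.LC.DI

/-! # Persistent relations between few ordinates split into clusters of coefficient sum zero -/

set_option autoImplicit false

open Filter Topology MeasureTheory Set

namespace Pool.Agent.K7.H75.LC

open SG (ord NZ)
open Pool.Agent.R846.UL (cn cn_eq cn_mono cn_union cn_lt cn_biUnion)

/-- a scale without differences -/
lemma scale {k P : ℕ} (hP : k * k < P) (E : ℕ → ℝ) (hE : ∀ i < P, E i < E (i + 1)) (d : Fin k → Fin k → ℝ) :
    ∃ i < P, ∀ a b, d a b ≤ E i ∨ E (i + 1) ≤ d a b := by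
  by_contra hcon
  push Not at hcon
  have h1 : ∀ i : Fin P, ∃ p : Fin k × Fin k, E i < d p.1 p.2 ∧ d p.1 p.2 < E (i + 1) := by
    intro i
    obtain ⟨a, b, h⟩ := hcon i i.2
    exact ⟨(a, b), h⟩
  choose f hf using h1
  have hmono : ∀ j n, j + n ≤ P → E j ≤ E (j + n) := by
    intro j n
    induction n with
    | zero => intro _; exact le_rfl
    | succ n ih =>
      intro h
      exact (ih (by omega)).trans (hE (j + n) (by omega)).le
  have hinj : Function.Injective f := by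
    intro i j hij
    by_contra hne
    have key : ∀ i j : Fin P, (i : ℕ) < j → f i = f j → False := by
      intro i j hlt h
      have h2 := (hf i).2
      have h3 := (hf j).1
      rw [h] at h2
      have h4 := hmono (i + 1) (j - (i + 1)) (by omega)
      have e : (i : ℕ) + 1 + (j - (i + 1)) = j := by omega
      rw [e] at h4
      linarith
    rcases lt_or_gt_of_ne (fun h => hne (Fin.ext h) : (i : ℕ) ≠ j) with h | h
    · exact key i j h hij
    · exact key j i h hij.symm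
  have := Fintype.card_le_of_injective f hinj
  rw [Fintype.card_fin, Fintype.card_prod, Fintype.card_fin] at this
  omega

/-- classes of an equivalence relation on `Fin k` -/
lemma classes {k : ℕ} (r : Fin k → Fin k → Prop) (h1 : ∀ a, r a a) (h2 : ∀ a b, r a b → r b a)
    (h3 : ∀ a b c, r a b → r b c → r a c) : ∃ π : Fin k → Fin k, ∀ a b, π a = π b ↔ r a b := by
  let s : Setoid (Fin k) := ⟨r, ⟨fun a => h1 a, fun {a b} h => h2 a b h, fun {a b c} h h' => h3 a b c h h'⟩⟩
  refine ⟨fun a => (Quotient.mk s a).out, fun a b => ⟨fun h => ?_, fun h => ?_⟩⟩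
  · have h4 : (Quotient.mk s (Quotient.mk s a).out) = Quotient.mk s (Quotient.mk s b).out := by
      have h' : (Quotient.mk s a).out = (Quotient.mk s b).out := h
      rw [h']
    rw [Quotient.out_eq, Quotient.out_eq] at h4
    exact Quotient.exact h4
  · have h4 : Quotient.mk s a = Quotient.mk s b := Quotient.sound h
    show (Quotient.mk s a).out = (Quotient.mk s b).out
    rw [h4]

/-- **the structure of persistent relations**, real coefficients -/
theorem fin_real (k : ℕ) (B H η : ℝ) (hη : 0 < η) : ∃ (ε : ℝ) (D₀ : ℕ), 0 < ε ∧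
    ∀ D L N : ℕ, D₀ ≤ D → D ≤ L → 1 ≤ N → L * Real.log L ≤ B * Real.log N →
    Real.log L ≤ Real.log D ^ 2 →
    ∀ (m : Fin k → ℕ) (c : Fin k → ℝ) (b : ℝ), (∀ i, m i ≤ L) →
    (∀ π : Fin k → Fin k, (∀ i j, π i = π j → |(m i : ℝ) - m j| < D) →
      ∃ l, 1 ≤ |cs π c l| ∧ ∀ i, |c i| ≤ H * |cs π c l|) →
    cn N {n | |∑ i, c i * ord (n + m i) - b| ≤ ε * Real.sqrt (Real.log D) / Real.log (ord n)} ≤
      η * N := by
  obtain ⟨ε0, Λ, D1, hε0, hΛ, hmain⟩ := ordgc k (max B 1) (max H 1) (le_max_right _ _)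
    (le_max_right _ _) (show 0 < η / 2 by positivity)
  obtain ⟨n0, hn0⟩ := (SG.ord_tendsto.eventually_ge_atTop 3).exists_forall_of_atTop
  obtain ⟨P, hP⟩ : ∃ P : ℕ, P = k * k + 1 := ⟨_, rfl⟩
  obtain ⟨q, hq⟩ : ∃ q : ℝ, q = 2 * Λ := ⟨_, rfl⟩
  have hq2 : 2 ≤ q := by rw [hq]; linarith
  have hq0 : 0 < q := by linarith
  have hqP : 0 < q ^ P := by positivity
  have hqP1 : 1 ≤ q ^ P := one_le_pow₀ (by linarith)
  refine ⟨ε0 / Real.sqrt (q ^ P),
    ⌈Real.exp (q ^ P * (2 + Real.log (D1 + 1)) + (q ^ P) ^ 5)⌉₊ + ⌈2 * n0 / η⌉₊ +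
      ⌈Real.exp (max B 1)⌉₊ + 3, by positivity,
    fun D L N hD hDL hN hLN hLD m c b hm hc => ?_⟩
  have hB1 : (1 : ℝ) ≤ max B 1 := le_max_right _ _
  have hlogN : 0 ≤ Real.log N := Real.log_natCast_nonneg N
  have hLN' : (L : ℝ) * Real.log L ≤ max B 1 * Real.log N :=
    hLN.trans (mul_le_mul_of_nonneg_right (le_max_left _ _) hlogN)
  have hNpos : (0 : ℝ) < N := by exact_mod_cast hN
  have hD3 : (3 : ℝ) ≤ D := by exact_mod_cast (by omega : 3 ≤ D)
  have hDLr : (D : ℝ) ≤ L := by exact_mod_cast hDL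
  have hL3 : (3 : ℝ) ≤ L := by linarith
  obtain ⟨ℓ, hℓ⟩ : ∃ ℓ : ℝ, ℓ = Real.log D := ⟨_, rfl⟩
  have hD1' : (0 : ℝ) ≤ D1 := Nat.cast_nonneg _
  have hlogD1 : 0 ≤ Real.log ((D1 : ℝ) + 1) := Real.log_nonneg (by linarith)
  have hℓ1 : q ^ P * (2 + Real.log (D1 + 1)) + (q ^ P) ^ 5 ≤ ℓ := by
    rw [hℓ, Real.le_log_iff_exp_le (by linarith)]
    refine (Nat.le_ceil _).trans (Nat.cast_le.2 ?_)
    omega
  have hq5 : 0 < (q ^ P) ^ 5 := by positivity
  have hℓ2 : q ^ P * (2 + Real.log (D1 + 1)) ≤ ℓ := by linarith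
  have hℓ3 : (q ^ P) ^ 5 ≤ ℓ := by
    have : 0 ≤ q ^ P * (2 + Real.log ((D1 : ℝ) + 1)) := by positivity
    linarith
  have hℓ0 : 0 < ℓ := by
    have : 0 < q ^ P * (2 + Real.log ((D1 : ℝ) + 1)) := by positivity
    linarith
  -- the scales
  obtain ⟨E, hE⟩ : ∃ E : ℕ → ℝ, E = fun i => Real.exp (ℓ * q ^ i / q ^ P) := ⟨_, rfl⟩
  have hElog : ∀ i, Real.log (E i) = ℓ * q ^ i / q ^ P := fun i => by rw [hE]; exact Real.log_exp _
  have hE0 : ∀ i, 0 < E i := fun i => by rw [hE]; exact Real.exp_pos _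
  have hElog1 : ∀ i, Real.log (E (i + 1)) = q * Real.log (E i) := fun i => by
    rw [hElog, hElog]; ring
  have hEge : ∀ i, 2 + Real.log (D1 + 1) ≤ Real.log (E i) := by
    intro i
    rw [hElog, le_div_iff₀ hqP]
    have h1 : (1 : ℝ) ≤ q ^ i := one_le_pow₀ (by linarith)
    have h2 : ℓ ≤ ℓ * q ^ i := le_mul_of_one_le_right hℓ0.le h1
    linarith
  have hEge2 : ∀ i, 2 ≤ Real.log (E i) := fun i => by linarith [hEge i]
  have hElt : ∀ i, 2 * E i < E (i + 1) := by
    intro i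
    rw [← Real.log_lt_log_iff (by have := hE0 i; positivity) (hE0 _), hElog1,
      Real.log_mul (by norm_num) (hE0 i).ne']
    have h1 := hEge2 i
    have h2 := Real.log_two_lt_d9
    nlinarith
  have hEP : ∀ i, i ≤ P → E i ≤ D := by
    intro i hi
    have h1 : Real.log (E i) ≤ Real.log D := by
      rw [hElog, ← hℓ, div_le_iff₀ hqP]
      exact mul_le_mul_of_nonneg_left (pow_le_pow_right₀ (by linarith) hi) hℓ0.le
    exact (Real.log_le_log_iff (hE0 i) (by linarith)).1 h1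
  obtain ⟨i, hiP, hi⟩ := scale (k := k) (P := P) (by omega) E
    (fun i _ => by have := hElt i; have := hE0 i; linarith) (fun a b => |(m a : ℝ) - m b|)
  obtain ⟨π, hπ⟩ := classes (fun a b : Fin k => |(m a : ℝ) - m b| ≤ E i)
    (fun a => by rw [sub_self, abs_zero]; exact (hE0 i).le)
    (fun a b h => by rw [abs_sub_comm]; exact h)
    (fun a b c h h' => by
      have h1 : |(m a : ℝ) - m c| ≤ |(m a : ℝ) - m b| + |(m b : ℝ) - m c| := abs_sub_le _ _ _
      rcases hi a c with h2 | h2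
      · exact h2
      · have h3 := hElt i
        have h4 : |(m a : ℝ) - m b| ≤ E i := h
        have h5 : |(m b : ℝ) - m c| ≤ E i := h'
        linarith)
  obtain ⟨l, hl1, hl2⟩ := hc π (fun a b hab => ((hπ a b).1 hab).trans_lt (by
    have h1 := hElt i
    have h2 := hE0 i
    have h3 := hEP (i + 1) (by omega)
    linarith))
  obtain ⟨M, hM⟩ : ∃ M : ℝ, M = |cs π c l| := ⟨_, rfl⟩
  rw [← hM] at hl1 hl2
  have hM0 : 0 < M := by linarith
  have hcsM : cs π (fun i => c i / M) l = cs π c l / M := by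
    unfold cs
    rw [Finset.sum_div]
  have hmain1 := hmain (E i) (E (i + 1)) L N m (fun i => c i / M) π (b / M) (hE0 i).le
    (by
      rw [hElog1]
      have h1 : Real.log (1 + E i) ≤ Real.log 2 + Real.log (E i) := by
        rw [← Real.log_mul (by norm_num) (hE0 i).ne']
        apply Real.log_le_log (by have := hE0 i; linarith)
        have h2 : 1 ≤ E i := by
          have h3 : 0 ≤ Real.log (E i) := by linarith [hEge2 i]
          exact (Real.log_nonneg_iff (hE0 i)).1 h3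
        linarith
      have h2 := Real.log_two_lt_d9
      have h3 := hEge2 i
      rw [hq]
      calc Λ * (1 + Real.log (1 + E i)) ≤ Λ * (2 * Real.log (E i)) :=
            mul_le_mul_of_nonneg_left (by linarith) (by linarith)
        _ = _ := by ring)
    (by
      have h1 : Real.log ((D1 : ℝ) + 1) ≤ Real.log (E (i + 1)) := by linarith [hEge (i + 1)]
      have h2 := (Real.log_le_log_iff (by linarith) (hE0 _)).1 h1
      linarith)
    ((hEP (i + 1) (by omega)).trans hDLr) hN hLN'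
    (by
      have h1 : Real.log L ^ 2 ≤ ℓ ^ 4 := by
        have h2 : 0 ≤ Real.log L := Real.log_nonneg (by linarith)
        rw [hℓ]
        calc Real.log L ^ 2 ≤ (Real.log D ^ 2) ^ 2 := pow_le_pow_left₀ h2 hLD 2
          _ = _ := by ring
      refine h1.trans ?_
      have h3 : ℓ / q ^ P ≤ Real.log (E (i + 1)) := by
        rw [hElog]
        apply div_le_div_of_nonneg_right _ hqP.le
        exact le_mul_of_one_le_right hℓ0.le (one_le_pow₀ (by linarith))
      calc ℓ ^ 4 ≤ (ℓ / q ^ P) ^ 5 := by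
            rw [div_pow, le_div_iff₀ hq5]
            calc ℓ ^ 4 * (q ^ P) ^ 5 ≤ ℓ ^ 4 * ℓ := mul_le_mul_of_nonneg_left hℓ3 (by positivity)
              _ = ℓ ^ 5 := by ring
        _ ≤ _ := pow_le_pow_left₀ (by positivity) h3 5)
    hm (fun a b hab => (hπ a b).1 hab)
    (fun a b hab => by
      rcases hi a b with h | h
      · exact absurd ((hπ a b).2 h) hab
      · exact h)
    (fun a => by
      rw [abs_div, abs_of_pos hM0, div_le_iff₀ hM0]
      exact (hl2 a).trans (mul_le_mul_of_nonneg_right (le_max_left _ _) hM0.le))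
    ⟨l, by rw [hcsM, abs_div, abs_of_pos hM0, ← hM, div_self hM0.ne']⟩
  have hLB : max B 1 ≤ Real.log L := by
    rw [Real.le_log_iff_exp_le (by linarith)]
    refine (Nat.le_ceil _).trans (Nat.cast_le.2 ?_)
    omega
  have hLNr : (L : ℝ) ≤ N := by
    have a1 := Real.log_le_sub_one_of_pos hNpos
    have a2 : max B 1 * (L : ℝ) ≤ max B 1 * Real.log N := by
      refine le_trans ?_ hLN'
      rw [mul_comm]
      exact mul_le_mul_of_nonneg_left hLB (by linarith)
    have a3 := le_of_mul_le_mul_left a2 (by linarith)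
    linarith
  have hn0N : (n0 : ℝ) ≤ η / 2 * N := by
    have a1 : 2 * n0 / η ≤ L := by
      refine (Nat.le_ceil _).trans (Nat.cast_le.2 ?_)
      omega
    have a2 : 2 * n0 / η ≤ N := a1.trans hLNr
    rw [div_le_iff₀ hη] at a2
    linarith
  have h2 : cn N {n | |∑ i, c i * ord (n + m i) - b| ≤
      ε0 / Real.sqrt (q ^ P) * Real.sqrt (Real.log D) / Real.log (ord n)} ≤
      cn N ({n | n < n0} ∪ {n | |∑ i, c i / M * ord (n + m i) - b / M| ≤
        ε0 * Real.sqrt (Real.log (E (i + 1))) / Real.log (ord n)}) := by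
    refine cn_mono fun n hn _ hb => ?_
    by_cases hlt : n < n0
    · left; exact hlt
    · right
      have hb' : |∑ i, c i * ord (n + m i) - b| ≤
        ε0 / Real.sqrt (q ^ P) * Real.sqrt (Real.log D) / Real.log (ord n) := hb
      have hord : 3 ≤ ord n := hn0 n (by omega)
      have hlog0 : 0 < Real.log (ord n) := Real.log_pos (by linarith)
      have e1 : ∑ i, c i / M * ord (n + m i) - b / M = (∑ i, c i * ord (n + m i) - b) / M := by
        rw [sub_div, Finset.sum_div]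
        congr 1
        exact Finset.sum_congr rfl fun i _ => by ring
      show |∑ i, c i / M * ord (n + m i) - b / M| ≤ _
      rw [e1, abs_div, abs_of_pos hM0]
      refine (div_le_self (abs_nonneg _) hl1).trans (hb'.trans ?_)
      apply div_le_div_of_nonneg_right _ hlog0.le
      rw [div_mul_eq_mul_div, mul_div_assoc]
      apply mul_le_mul_of_nonneg_left _ hε0.le
      rw [← Real.sqrt_div' _ hqP.le]
      apply Real.sqrt_le_sqrt
      rw [hElog, ← hℓ]
      apply div_le_div_of_nonneg_right _ hqP.le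
      exact le_mul_of_one_le_right hℓ0.le (one_le_pow₀ (by linarith))
  have h4 := cn_union N {n | n < n0}
    {n | |∑ i, c i / M * ord (n + m i) - b / M| ≤
        ε0 * Real.sqrt (Real.log (E (i + 1))) / Real.log (ord n)}
  have h5 := cn_lt N n0
  linarith

/-- **the structure of persistent relations** -/
theorem fin_both (k H : ℕ) (B η : ℝ) (hη : 0 < η) : ∃ (ε : ℝ) (D₀ : ℕ), 0 < ε ∧
    ∀ D L N : ℕ, D₀ ≤ D → D ≤ L → 1 ≤ N → L * Real.log L ≤ B * Real.log N →
    Real.log L ≤ Real.log D ^ 2 → ∀ m : Fin k → ℕ, (∀ i, m i ≤ L) →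
    (∀ (c : Fin k → ℝ) (b : ℝ),
      (∀ π : Fin k → Fin k, (∀ i j, π i = π j → |(m i : ℝ) - m j| < D) →
        ∃ l, 1 ≤ |∑ i with π i = l, c i| ∧ ∀ i, |c i| ≤ H * |∑ i with π i = l, c i|) →
      cn N {n | |∑ i, c i * ord (n + m i) - b| ≤ ε * Real.sqrt (Real.log D) / Real.log (ord n)} ≤
      η * N) ∧
    (∀ b : (Fin k → ℤ) → ℝ,
      cn N {n | ∃ c : Fin k → ℤ, (∀ i, |c i| ≤ H) ∧
        |∑ i, (c i : ℝ) * ord (n + m i) - b c| ≤ ε * Real.sqrt (Real.log D) / Real.log (ord n) ∧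
        ¬ ∃ π : Fin k → Fin k, (∀ i j, π i = π j → |(m i : ℝ) - m j| < D) ∧
          ∀ l, ∑ i with π i = l, c i = 0} ≤ η * N) := by
  classical
  obtain ⟨Q, hQ⟩ : ∃ Q : ℝ, Q = ((2 * H + 1 : ℕ) : ℝ) ^ k := ⟨_, rfl⟩
  have hQ1 : 1 ≤ Q := by
    rw [hQ]
    apply one_le_pow₀
    exact_mod_cast (by omega : 1 ≤ 2 * H + 1)
  have hQ0 : 0 < Q := by linarith
  obtain ⟨ε, D₀, hε, h⟩ := fin_real k B H (η / Q) (by positivity)
  refine ⟨ε, D₀, hε, fun D L N hD hDL hN hLN hLD m hm => ⟨fun c b hc => ?_, fun b => ?_⟩⟩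
  · refine (h D L N hD hDL hN hLN hLD m c b hm hc).trans ?_
    apply mul_le_mul_of_nonneg_right _ (Nat.cast_nonneg _)
    exact div_le_self hη.le hQ1
  have hcs : ∀ (π : Fin k → Fin k) (c : Fin k → ℤ) (l : Fin k),
      cs π (fun i => (c i : ℝ)) l = ((∑ i with π i = l, c i : ℤ) : ℝ) := by
    intro π c l
    unfold cs
    push_cast
    rfl
  obtain ⟨Box, hBox⟩ : ∃ Box : Finset (Fin k → ℤ), Box = Fintype.piFinset
    (fun _ : Fin k => Finset.Icc (-(H : ℤ)) H) := ⟨_, rfl⟩
  have hcard : (Box.card : ℝ) = Q := by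
    rw [hBox, Fintype.card_piFinset, hQ]
    simp only [Int.card_Icc, Finset.prod_const, Finset.card_univ, Fintype.card_fin]
    have : ((H : ℤ) + 1 - -(H : ℤ)).toNat = 2 * H + 1 := by omega
    rw [this]
    push_cast
    rfl
  obtain ⟨G, hG⟩ : ∃ G : Finset (Fin k → ℤ), G = Box.filter (fun c => ∀ π : Fin k → Fin k,
    (∀ i j, π i = π j → |(m i : ℝ) - m j| < D) → ∃ l, ∑ i with π i = l, c i ≠ 0) := ⟨_, rfl⟩
  have h1 : cn N {n | ∃ c : Fin k → ℤ, (∀ i, |c i| ≤ H) ∧
        |∑ i, (c i : ℝ) * ord (n + m i) - b c| ≤ ε * Real.sqrt (Real.log D) / Real.log (ord n) ∧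
        ¬ ∃ π : Fin k → Fin k, (∀ i j, π i = π j → |(m i : ℝ) - m j| < D) ∧
          ∀ l, ∑ i with π i = l, c i = 0} ≤
      cn N (⋃ c ∈ G, {n | |∑ i, (c i : ℝ) * ord (n + m i) - b c| ≤
        ε * Real.sqrt (Real.log D) / Real.log (ord n)}) := by
    refine cn_mono fun n _ _ hn => ?_
    obtain ⟨c, hc1, hc2, hc3⟩ := hn
    refine Set.mem_biUnion (x := c) ?_ hc2
    show c ∈ G
    rw [hG, Finset.mem_filter, hBox, Fintype.mem_piFinset]
    refine ⟨fun i => Finset.mem_Icc.2 (abs_le.1 (hc1 i)), fun π hπ => ?_⟩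
    by_contra hcon
    push Not at hcon
    exact hc3 ⟨π, hπ, hcon⟩
  refine h1.trans ((cn_biUnion N G _).trans ?_)
  have h2 : ∀ c ∈ G, cn N {n | |∑ i, (c i : ℝ) * ord (n + m i) - b c| ≤
        ε * Real.sqrt (Real.log D) / Real.log (ord n)} ≤ η / Q * N := by
    intro c hc
    rw [hG, Finset.mem_filter, hBox, Fintype.mem_piFinset] at hc
    obtain ⟨hc1, hc2⟩ := hc
    refine h D L N hD hDL hN hLN hLD m (fun i => (c i : ℝ)) (b c) hm fun π hπ => ?_
    obtain ⟨l, hl⟩ := hc2 π hπ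
    have h3 : (1 : ℝ) ≤ |cs π (fun i => (c i : ℝ)) l| := by
      rw [hcs]
      exact_mod_cast Int.one_le_abs hl
    refine ⟨l, h3, fun i => ?_⟩
    have h4 : |(c i : ℝ)| ≤ H := by
      have := Finset.mem_Icc.1 (hc1 i)
      exact_mod_cast abs_le.2 this
    calc |(c i : ℝ)| ≤ H * 1 := by rw [mul_one]; exact h4
      _ ≤ _ := mul_le_mul_of_nonneg_left h3 (Nat.cast_nonneg _)
  have hη' : 0 ≤ η / Q * N := by positivity
  calc ∑ c ∈ G, cn N {n | |∑ i, (c i : ℝ) * ord (n + m i) - b c| ≤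
        ε * Real.sqrt (Real.log D) / Real.log (ord n)} ≤ ∑ c ∈ G, η / Q * N := Finset.sum_le_sum h2
    _ = G.card * (η / Q * N) := by rw [Finset.sum_const, nsmul_eq_mul]
    _ ≤ Box.card * (η / Q * N) := by
        apply mul_le_mul_of_nonneg_right _ hη'
        have : G.card ≤ Box.card := by
          rw [hG]
          exact Finset.card_filter_le _ _
        exact_mod_cast this
    _ = η * N := by
        rw [hcard]
        field_simp

end Pool.Agent.K7.H75.LC
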