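import Pool.Agent.K7.H75.LC.Idx
import Pool.Agent.TH182.TC.Core

/-! Existence of jumps, Hutchinson's condition, gaps, tori. -/

set_option autoImplicit false
set_option linter.unusedSectionVars false

namespace Pool.Agent.K7.H75.LC

open Filter Topology Metric Set MvPolynomial

variable {N : ℕ} {ι κ : Type} {F : ι → MvPolynomial (Fin N) ℂ}

/-- a nonconstant entire curve has a circle with two maximal terms -/
theorem exists_jump {f : ℂ → Fin N → ℂ} (hf : Cur F f)
    (hnc : ∃ s t p q, f s p * f t q ≠ f s q * f t p) :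
    ∃ r : ℝ, 0 < r ∧ ∃ i j : ℕ, i ≠ j ∧ MaxIndex f r i ∧ MaxIndex f r j := by
  have ha0 : 0 < ‖coef f 0‖ := by rw [coef_zero]; exact norm_pos_iff.2 (hf.ne 0)
  obtain ⟨k1, hk1, hk1'⟩ : ∃ k, 1 ≤ k ∧ coef f k ≠ 0 := by
    by_contra hcon
    push Not at hcon
    have h1 : ∀ z, f z = coef f 0 := by
      intro z
      have h2 := hasSum_coef hf.diff z
      have h3 : HasSum (fun k => z ^ k • coef f k) (∑ k ∈ {0}, z ^ k • coef f k) := by
        apply hasSum_sum_of_ne_finset_zero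
        intro k hk
        rw [hcon k (Nat.one_le_iff_ne_zero.2 (by simpa using hk)), smul_zero]
      rw [Finset.sum_singleton, pow_zero, one_smul] at h3
      exact h2.unique h3
    obtain ⟨s, t, p, q, h⟩ := hnc
    apply h
    rw [h1 s, h1 t]
    ring
  have hk1n : 0 < ‖coef f k1‖ := norm_pos_iff.2 hk1'
  -- the radii for which the term of index zero is maximal
  set S : Set ℝ := {ρ | 0 ≤ ρ ∧ ∀ k, ‖coef f k‖ * ρ ^ k ≤ ‖coef f 0‖} with hS
  have h0S : (0 : ℝ) ∈ S := by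
    refine ⟨le_rfl, fun k => ?_⟩
    rcases Nat.eq_zero_or_pos k with rfl | hk
    · simp
    · rw [zero_pow hk.ne', mul_zero]
      exact ha0.le
  have hbdd : BddAbove S := by
    refine ⟨max 1 (‖coef f 0‖ / ‖coef f k1‖), fun ρ hρ => ?_⟩
    rcases le_total ρ 1 with h1 | h1
    · exact h1.trans (le_max_left _ _)
    · refine le_trans ?_ (le_max_right _ _)
      rw [le_div_iff₀ hk1n]
      calc ρ * ‖coef f k1‖ ≤ ρ ^ k1 * ‖coef f k1‖ := by
            gcongr
            exact le_self_pow₀ h1 (by omega)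
        _ = ‖coef f k1‖ * ρ ^ k1 := mul_comm _ _
        _ ≤ ‖coef f 0‖ := hρ.2 k1
  have hclosed : IsClosed S := by
    have h1 : S = Ici 0 ∩ ⋂ k, {ρ : ℝ | ‖coef f k‖ * ρ ^ k ≤ ‖coef f 0‖} := by
      ext ρ
      simp [hS]
    rw [h1]
    exact isClosed_Ici.inter (isClosed_iInter fun k =>
      isClosed_le (by fun_prop) continuous_const)
  -- if all other terms are smaller, the radius can be increased
  have key : ∀ ρ ∈ S, (∀ k, 1 ≤ k → ‖coef f k‖ * ρ ^ k < ‖coef f 0‖) → ∃ ρ' ∈ S, ρ < ρ' := by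
    intro ρ hρ hlt
    have h1 := (coef_tendsto hf.diff (ρ := 2 * ρ + 1) (by linarith [hρ.1])).eventually
      (gt_mem_nhds ha0)
    obtain ⟨K, hK⟩ := eventually_atTop.1 h1
    have h2 : ∀ᶠ x in 𝓝 ρ, ∀ k ∈ Finset.range K, 1 ≤ k → ‖coef f k‖ * x ^ k < ‖coef f 0‖ := by
      rw [Finset.eventually_all]
      intro k _
      by_cases hk : 1 ≤ k
      · have h3 : Continuous fun x : ℝ => ‖coef f k‖ * x ^ k := by fun_prop
        filter_upwards [h3.continuousAt.eventually (gt_mem_nhds (hlt k hk))] with x hx _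
        exact hx
      · exact Eventually.of_forall fun x h => absurd h hk
    have h3 : ∀ᶠ x in 𝓝 ρ, x < 2 * ρ + 1 := gt_mem_nhds (by linarith [hρ.1])
    obtain ⟨x, ⟨hx1, hx2⟩, hx3⟩ := (((h2.and h3).filter_mono nhdsWithin_le_nhds).and
      (self_mem_nhdsWithin : Ioi ρ ∈ 𝓝[>] ρ)).exists
    have hx0 : 0 ≤ x := hρ.1.trans hx3.le
    refine ⟨x, ⟨hx0, fun k => ?_⟩, hx3⟩
    rcases Nat.eq_zero_or_pos k with rfl | hk
    · simp
    by_cases hkK : k < K
    · exact (hx1 k (Finset.mem_range.2 hkK) hk).le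
    · calc ‖coef f k‖ * x ^ k ≤ ‖coef f k‖ * (2 * ρ + 1) ^ k := by gcongr
        _ ≤ ‖coef f 0‖ := (hK k (by omega)).le
  have hrS : sSup S ∈ S := hclosed.csSup_mem ⟨0, h0S⟩ hbdd
  have hr0 : 0 < sSup S := by
    obtain ⟨ρ', h1, h2⟩ := key 0 h0S (fun k hk => by
      rw [zero_pow (by omega), mul_zero]; exact ha0)
    exact h2.trans_le (le_csSup hbdd h1)
  refine ⟨sSup S, hr0, 0, ?_⟩
  have h1 : MaxIndex f (sSup S) 0 := fun l => by
    rw [pow_zero, mul_one]
    exact hrS.2 l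
  by_contra hcon
  push Not at hcon
  obtain ⟨ρ', h2, h3⟩ := key _ hrS (fun k hk => by
    refine lt_of_le_of_ne (hrS.2 k) fun h4 => hcon k (by omega) h1 fun l => ?_
    rw [h4]
    exact hrS.2 l)
  exact absurd (le_csSup hbdd h2) (not_le.2 h3)

/-- **A Hutchinson type condition.** -/
theorem hutchinson (hF : ∀ i, ∃ e, (F i).IsHomogeneous e) (hno : ¬ RatCurve F 1) :
    ∃ C : ℝ, 0 < C ∧ ∀ f : ℂ → Fin N → ℂ, Cur F f → (∀ k, coef f k ≠ 0) →
      ∃ k, ‖coef f (k + 1)‖ ^ 2 < C * (‖coef f k‖ * ‖coef f (k + 2)‖) := by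
  obtain ⟨R, ε, hR, hε, hD⟩ := not_dominated hF hno
  set K : ℝ := max 2 (4 * R ^ 1 / ε) with hKdef
  have hK : 2 ≤ K := le_max_left _ _
  have hK0 : 0 < K := by linarith
  have hR0 : 0 < R := by linarith
  have hKe : 4 * R ^ 1 / K ≤ ε := by
    rw [div_le_iff₀ hK0]
    have h1 : 4 * R ^ 1 / ε ≤ K := le_max_right _ _
    rw [div_le_iff₀ hε] at h1
    linarith
  have hL0 : 0 < R * K := by positivity
  have hL1 : 1 < R * K := by nlinarith
  refine ⟨R * K, hL0, fun f hf hne => ?_⟩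
  by_contra hcon
  push Not at hcon
  have hpos : ∀ k, 0 < ‖coef f k‖ := fun k => norm_pos_iff.2 (hne k)
  set r : ℝ := ‖coef f 0‖ / ‖coef f 1‖ with hr
  have hr0 : 0 < r := div_pos (hpos 0) (hpos 1)
  set t : ℕ → ℝ := fun k => ‖coef f k‖ * r ^ k with ht
  have htpos : ∀ k, 0 < t k := fun k => mul_pos (hpos k) (pow_pos hr0 k)
  have ht0 : t 0 = ‖coef f 0‖ := by simp [ht]
  have ht1 : t 1 = ‖coef f 0‖ := by
    simp only [ht, hr, pow_one]
    have := (hpos 1).ne'
    field_simp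
  have hstep : ∀ k, R * K * (t k * t (k + 2)) ≤ t (k + 1) ^ 2 := by
    intro k
    have h1 := hcon k
    have h2 : 0 < r ^ (2 * k + 2) := pow_pos hr0 _
    calc R * K * (t k * t (k + 2)) = (R * K * (‖coef f k‖ * ‖coef f (k + 2)‖)) * r ^ (2 * k + 2) := by
          simp only [ht]
          ring
      _ ≤ ‖coef f (k + 1)‖ ^ 2 * r ^ (2 * k + 2) := by gcongr
      _ = t (k + 1) ^ 2 := by
          simp only [ht]
          ring
  have hmono : ∀ k, t (k + 1) ≤ t k ∧ t (k + 2) ≤ t (k + 1) * (R * K)⁻¹ := by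
    intro k
    induction k with
    | zero =>
      have h1 : t (0 + 1) ≤ t 0 := by rw [zero_add, ht1, ht0]
      refine ⟨h1, ?_⟩
      rw [le_mul_inv_iff₀ hL0]
      have h2 := hstep 0
      have h3 : t (0 + 1) ^ 2 ≤ t (0 + 1) * t 0 := by
        rw [sq]; exact mul_le_mul_of_nonneg_left h1 (htpos _).le
      have h4 : 0 < t 0 := htpos 0
      refine le_of_mul_le_mul_right ?_ h4
      nlinarith
    | succ k ih =>
      have h1 : t (k + 1 + 1) ≤ t (k + 1) := by
        refine ih.2.trans ?_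
        have h2 : (R * K)⁻¹ ≤ 1 := inv_le_one_of_one_le₀ hL1.le
        exact mul_le_of_le_one_right (htpos _).le h2
      refine ⟨h1, ?_⟩
      rw [le_mul_inv_iff₀ hL0]
      have h2 := hstep (k + 1)
      have h3 : t (k + 1 + 1) ^ 2 ≤ t (k + 1 + 1) * t (k + 1) := by
        rw [sq]; exact mul_le_mul_of_nonneg_left h1 (htpos _).le
      have h4 : 0 < t (k + 1) := htpos (k + 1)
      refine le_of_mul_le_mul_right ?_ h4
      nlinarith
  have hgeo : ∀ k, t (k + 1) ≤ ‖coef f 0‖ * ((R * K)⁻¹) ^ k := by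
    intro k
    induction k with
    | zero => rw [zero_add, ht1, pow_zero, mul_one]
    | succ k ih =>
      calc t (k + 1 + 1) ≤ t (k + 1) * (R * K)⁻¹ := (hmono k).2
        _ ≤ (‖coef f 0‖ * ((R * K)⁻¹) ^ k) * (R * K)⁻¹ := by gcongr
        _ = _ := by rw [pow_succ]; ring
  apply hD f hf r ‖coef f 0‖ 0 1
  refine dominated_of_geom hR hK hKe hr0 (hpos 0) (fun i hi => ?_) ⟨0, 1, one_pos, le_rfl, ?_, ?_⟩
    (fun k hk => absurd hk (Nat.not_lt_zero k)) (fun k hk => ?_)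
  · rw [zero_add]
    interval_cases i
    · exact ht0.le
    · exact ht1.le
  · exact ht0
  · exact ht1
  · obtain ⟨l, rfl⟩ : ∃ l, k = l + 1 := ⟨k - 1, by omega⟩
    have h1 := hgeo l
    rw [show l + 1 - (0 + 1) = l by omega]
    exact h1

end Pool.Agent.K7.H75.LC
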