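import Pool.Agent.K7.H75.LC.Fin

/-! Gaps in the Taylor series. -/

set_option autoImplicit false
set_option linter.unusedSectionVars false

namespace Pool.Agent.K7.H75.LC

open Filter Topology Metric Set MvPolynomial

variable {N : ℕ} {ι κ : Type} {F : ι → MvPolynomial (Fin N) ℂ}

/-- a polynomial of degree at most `M` which is `O(z ^ (M + 1))` at the origin vanishes -/
theorem poly_zero_of_small {Q : Polynomial ℂ} {M : ℕ} (hQ : Q.natDegree ≤ M) {C : ℝ}
    (h : ∀ᶠ z : ℂ in 𝓝 0, ‖Q.eval z‖ ≤ C * ‖z‖ ^ (M + 1)) : Q = 0 := by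
  by_contra h0
  set a := Q.natTrailingDegree with ha
  have haM : a ≤ M := (Polynomial.natTrailingDegree_le_natDegree Q).trans hQ
  have hlead : Q.coeff a ≠ 0 := by
    rw [ha]
    exact Polynomial.trailingCoeff_nonzero_iff_nonzero.2 h0
  obtain ⟨Q', hQ'⟩ : Polynomial.X ^ a ∣ Q := by
    rw [Polynomial.X_pow_dvd_iff]
    intro i hi
    exact Polynomial.coeff_eq_zero_of_lt_natTrailingDegree hi
  have hQ'0 : Q'.eval 0 ≠ 0 := by
    rw [← Polynomial.coeff_zero_eq_eval_zero]
    have h1 : Q.coeff a = Q'.coeff 0 := by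
      rw [hQ', mul_comm]
      have := Polynomial.coeff_mul_X_pow Q' a 0
      rwa [zero_add] at this
    rwa [h1] at hlead
  have h1 : Tendsto (fun z : ℂ => Q'.eval z) (𝓝[≠] 0) (𝓝 (Q'.eval 0)) :=
    (Q'.continuous.tendsto 0).mono_left nhdsWithin_le_nhds
  have h2 : Tendsto (fun z : ℂ => Q'.eval z) (𝓝[≠] 0) (𝓝 0) := by
    have h3 : Tendsto (fun z : ℂ => C * ‖z‖ ^ (M + 1 - a)) (𝓝[≠] 0) (𝓝 0) := by
      have h4 : Continuous fun z : ℂ => C * ‖z‖ ^ (M + 1 - a) := by fun_prop
      have h5 := h4.tendsto 0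
      simp only [norm_zero] at h5
      rw [zero_pow (by omega), mul_zero] at h5
      exact h5.mono_left nhdsWithin_le_nhds
    refine squeeze_zero_norm' ?_ h3
    filter_upwards [h.filter_mono nhdsWithin_le_nhds, self_mem_nhdsWithin] with z hz hz0
    have hz0' : 0 < ‖z‖ ^ a := pow_pos (norm_pos_iff.2 hz0) a
    rw [hQ', Polynomial.eval_mul, Polynomial.eval_pow, Polynomial.eval_X, norm_mul, norm_pow] at hz
    refine le_of_mul_le_mul_left ?_ hz0'
    calc ‖z‖ ^ a * ‖Q'.eval z‖ ≤ C * ‖z‖ ^ (M + 1) := hz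
      _ = ‖z‖ ^ a * (C * ‖z‖ ^ (M + 1 - a)) := by
          have : ‖z‖ ^ (M + 1) = ‖z‖ ^ a * ‖z‖ ^ (M + 1 - a) := by
            rw [← pow_add]; congr 1; omega
          rw [this]; ring
  exact hQ'0 (tendsto_nhds_unique h1 h2)

/-- the Taylor polynomial -/
noncomputable def trunc (f : ℂ → Fin N → ℂ) (m : ℕ) : Fin N → Polynomial ℂ :=
  polyOf fun i : Fin (m + 1) => coef f i

theorem eval_trunc (f : ℂ → Fin N → ℂ) (m : ℕ) (z : ℂ) :
    (fun p => (trunc f m p).eval z) = ∑ k ∈ Finset.range (m + 1), z ^ k • coef f k := by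
  unfold trunc
  rw [eval_polyOf, Fin.sum_univ_eq_sum_range (fun k => z ^ k • coef f k)]

theorem aeval_eval (P : Fin N → Polynomial ℂ) (G : MvPolynomial (Fin N) ℂ) (t : ℂ) :
    (aeval P G : Polynomial ℂ).eval t = eval (fun j => (P j).eval t) G := by
  have h2 : (aeval P G : Polynomial ℂ).eval t
      = (Polynomial.aeval t : Polynomial ℂ →ₐ[ℂ] ℂ) (aeval P G) := by
    rw [Polynomial.coe_aeval_eq_eval]
  rw [h2, comp_aeval_apply, ← aeval_eq_eval]
  rfl

/-- **Gaps.** -/
theorem gap {D : ℕ} (hF : ∀ i, ∃ e ≤ D, (F i).IsHomogeneous e) {f : ℂ → Fin N → ℂ}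
    (hf : Cur F f) {m : ℕ} (hgap : ∀ k, m < k → k ≤ D * m → coef f k = 0) (z : ℂ) (i : ι) :
    eval (fun p => (trunc f m p).eval z) (F i) = 0 := by
  rw [← aeval_eval]
  suffices h : (aeval (trunc f m) (F i) : Polynomial ℂ) = 0 by rw [h, Polynomial.eval_zero]
  obtain ⟨e, he, hhom⟩ := hF i
  by_cases hD0 : D = 0
  · -- the forms are constants, hence zero
    have he0 : e = 0 := by omega
    subst he0
    have h1 : F i = C (coeff 0 (F i)) := by
      rw [← totalDegree_eq_zero_iff_eq_C]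
      exact Nat.le_zero.1 hhom.totalDegree_le
    have h2 := hf.mem 0 i
    rw [h1, eval_C] at h2
    rw [h1, h2, map_zero, map_zero]
  have hDm : m ≤ D * m := Nat.le_mul_of_pos_left m (Nat.pos_of_ne_zero hD0)
  have hdeg : (aeval (trunc f m) (F i) : Polynomial ℂ).natDegree ≤ D * m :=
    (aeval_natDegree_le (F i) hhom.totalDegree_le _ (natDegree_polyOf _)).trans
      (Nat.mul_le_mul_right m he)
  -- Lipschitz bound
  have hcd : ContDiffAt ℂ 1 (fun x : Fin N → ℂ => eval x (F i)) (f 0) :=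
    (AnalyticOnNhd.eval_mvPolynomial (F i) (f 0) (mem_univ _)).contDiffAt
  obtain ⟨K, t, ht, hK⟩ := hcd.exists_lipschitzOnWith
  obtain ⟨M, hM⟩ := (isCompact_sphere (0 : ℂ) 1).exists_bound_of_continuousOn
    hf.diff.continuous.continuousOn
  have hM' : ∀ z : ℂ, ‖z‖ = 1 → ‖f z‖ ≤ M := fun z hz => hM z (by simpa using hz)
  have htr : ∀ z : ℂ, (fun p => (trunc f m p).eval z)
      = ∑ k ∈ Finset.range (D * m + 1), z ^ k • coef f k := by
    intro z
    rw [eval_trunc]
    apply Finset.sum_subset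
    · intro k hk
      rw [Finset.mem_range] at hk ⊢
      omega
    · intro k hk hk'
      rw [Finset.mem_range] at hk hk'
      rw [hgap k (by omega) (by omega), smul_zero]
  have hev1 : ∀ᶠ z : ℂ in 𝓝 0, f z ∈ t := hf.diff.continuous.continuousAt.eventually ht
  have hev2 : ∀ᶠ z : ℂ in 𝓝 0, (fun p => (trunc f m p).eval z) ∈ t := by
    have h1 : Continuous fun z : ℂ => fun p => (trunc f m p).eval z := by fun_prop
    have h2 : (fun p => (trunc f m p).eval 0) = f 0 := by
      rw [eval_trunc, Finset.sum_eq_single 0]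
      · rw [pow_zero, one_smul, coef_zero]
      · intro k _ hk
        rw [zero_pow hk, zero_smul]
      · intro h
        exact absurd (Finset.mem_range.2 (Nat.succ_pos m)) h
    have h3 : Tendsto (fun z : ℂ => fun p => (trunc f m p).eval z) (𝓝 0)
        (𝓝 (fun p => (trunc f m p).eval 0)) := h1.tendsto 0
    rw [h2] at h3
    exact h3.eventually ht
  have hev3 : ∀ᶠ z : ℂ in 𝓝 0, ‖z‖ ≤ 1 / 2 := by
    have h1 : ContinuousAt (fun z : ℂ => ‖z‖) 0 := continuous_norm.continuousAt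
    have h2 := h1.eventually (ge_mem_nhds (show ‖(0 : ℂ)‖ < 1 / 2 by rw [norm_zero]; norm_num))
    exact h2
  refine poly_zero_of_small hdeg (C := K * (2 * M)) ?_
  filter_upwards [hev1, hev2, hev3] with z h1 h2 h3
  have h4 := hK.dist_le_mul _ h2 _ h1
  have h5 : eval (f z) (F i) = 0 := hf.mem z i
  rw [dist_eq_norm, dist_eq_norm, h5, sub_zero] at h4
  rw [aeval_eval]
  refine h4.trans ?_
  have h6 := remainder hf.diff hM' (D * m) h3
  rw [← htr, norm_sub_rev] at h6
  calc (K : ℝ) * ‖(fun p => (trunc f m p).eval z) - f z‖ ≤ K * (2 * M * ‖z‖ ^ (D * m + 1)) := by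
        gcongr
    _ = _ := by ring

/-- all nonconstant rational curves in `{F = 0}` lie in `{G = 0}` -/
def RatCurvesIn (F : ι → MvPolynomial (Fin N) ℂ) (G : κ → MvPolynomial (Fin N) ℂ) : Prop :=
  ∀ P : Fin N → Polynomial ℂ, (∀ t i, eval (fun p => (P p).eval t) (F i) = 0) →
    (∃ s t p q, (P p).eval s * (P q).eval t ≠ (P q).eval s * (P p).eval t) →
    ∀ t l, eval (fun p => (P p).eval t) (G l) = 0

theorem gaps {D : ℕ} (hF : ∀ i, ∃ e ≤ D, (F i).IsHomogeneous e)
    {G : κ → MvPolynomial (Fin N) ℂ} (hG : RatCurvesIn F G) {f : ℂ → Fin N → ℂ}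
    (hf : Cur F f) (hgap : ∃ᶠ m in atTop, ∀ k, m < k → k ≤ D * m → coef f k = 0) :
    (∀ z w p q, f z p * f w q = f z q * f w p) ∨ ∀ z l, eval (f z) (G l) = 0 := by
  have hlim : ∀ z, Tendsto (fun m => fun p => (trunc f m p).eval z) atTop (𝓝 (f z)) := by
    intro z
    have h1 := (hasSum_coef hf.diff z).tendsto_sum_nat
    refine (h1.comp (tendsto_add_atTop_nat 1)).congr fun m => ?_
    rw [eval_trunc]
    rfl
  by_cases hc : ∃ᶠ m in atTop, ∃ s t p q, (trunc f m p).eval s * (trunc f m q).eval t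
      ≠ (trunc f m q).eval s * (trunc f m p).eval t ∧
        ∀ k, m < k → k ≤ D * m → coef f k = 0
  · right
    intro z l
    have h2 : Tendsto (fun m => eval (fun p => (trunc f m p).eval z) (G l)) atTop
        (𝓝 (eval (f z) (G l))) := ((ev_cont (G l)).tendsto _).comp (hlim z)
    have h3 : ∃ᶠ m in atTop, eval (fun p => (trunc f m p).eval z) (G l) ∈ ({0} : Set ℂ) := by
      refine hc.mono fun m hm => ?_
      obtain ⟨s, t, p, q, h4, h5⟩ := hm
      exact hG (trunc f m) (gap hF hf h5) ⟨s, t, p, q, h4⟩ z l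
    have h4 : eval (f z) (G l) ∈ closure ({0} : Set ℂ) :=
      mem_closure_of_frequently_of_tendsto h3 h2
    simpa using h4
  · left
    rw [not_frequently] at hc
    intro z w p q
    have h1 : ∃ᶠ m in atTop, (trunc f m p).eval z * (trunc f m q).eval w
        - (trunc f m q).eval z * (trunc f m p).eval w ∈ ({0} : Set ℂ) := by
      refine (hgap.and_eventually hc).mono fun m hm => ?_
      rw [mem_singleton_iff, sub_eq_zero]
      by_contra h
      exact hm.2 ⟨z, w, p, q, h, hm.1⟩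
    have hz := tendsto_pi_nhds.1 (hlim z)
    have hw := tendsto_pi_nhds.1 (hlim w)
    have h2 := ((hz p).mul (hw q)).sub ((hz q).mul (hw p))
    have h4 := mem_closure_of_frequently_of_tendsto h1 h2
    rw [closure_singleton, mem_singleton_iff, sub_eq_zero] at h4
    exact h4

end Pool.Agent.K7.H75.LC
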