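import Pool.Agent.K7.H75.LC.HX

/-! # Combinations of windows with clustered end points -/

set_option autoImplicit false

namespace Pool.Agent.K7.H75.LC

open Filter Topology MeasureTheory
open Pool.Agent.Y743.NC (dev dev_int dev_nonneg)
open Pool.Agent.R321.QA (hs)
open Pool.Agent.R846.VS (Dd dev_meas cheb dev_zero union_bd edge pos1 Dd_dev)
open Pool.Agent.K7.H75.LE
open SG (NZ ord ord_le_iff)

variable {k : ℕ}

/-- a representative of a class -/
noncomputable def rep (π : Fin k → Fin k) (l : Fin k) : Fin k := by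
  classical
  exact if h : ∃ i, π i = l then h.choose else l

lemma rep_spec (π : Fin k → Fin k) {l : Fin k} (h : ∃ i, π i = l) : π (rep π l) = l := by
  unfold rep
  rw [dif_pos h]
  exact h.choose_spec

/-- the sum of the coefficients of a class -/
noncomputable def cs (π : Fin k → Fin k) (c : Fin k → ℝ) (l : Fin k) : ℝ :=
  ∑ i ∈ Finset.univ.filter (fun i => π i = l), c i

lemma cs_ne {π : Fin k → Fin k} {c : Fin k → ℝ} {l : Fin k} (h : cs π c l ≠ 0) : ∃ i, π i = l := by
  by_contra hcon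
  push Not at hcon
  apply h
  unfold cs
  rw [Finset.filter_false_of_mem (fun i _ => hcon i), Finset.sum_empty]

lemma cs_sum (π : Fin k → Fin k) (c f : Fin k → ℝ) :
    ∑ l, cs π c l * f l = ∑ i, c i * f (π i) := by
  unfold cs
  rw [← Finset.sum_fiberwise Finset.univ π fun i => c i * f (π i)]
  refine Finset.sum_congr rfl fun l _ => ?_
  rw [Finset.sum_mul]
  refine Finset.sum_congr rfl fun i hi => ?_
  rw [(Finset.mem_filter.1 hi).2]

/-- **clusters** -/
theorem hxc (k : ℕ) (B H : ℝ) (hB : 1 ≤ B) (hH : 1 ≤ H) {η : ℝ} (hη : 0 < η) : ∃ ε R Λ : ℝ, 0 < ε ∧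
    3 ≤ R ∧ 1 ≤ Λ ∧
    ∀ (D₁ D₂ A T : ℝ) (x c : Fin k → ℝ) (π : Fin k → Fin k) (b : ℝ), 0 ≤ D₁ →
    Λ * (1 + Real.log (1 + D₁)) ≤ Real.log D₂ → R ≤ D₂ → D₂ ≤ A → 1 ≤ T →
    A * Real.log A ≤ B * Real.log T →
    (∀ i, R ≤ x i) → (∀ i, x i ≤ A) → (∀ i j, π i = π j → |x i - x j| ≤ D₁) →
    (∀ i j, π i ≠ π j → D₂ ≤ |x i - x j|) →
    ∑ i, c i = 0 → (∀ i, |c i| ≤ H) → (∃ l, 1 ≤ |cs π c l|) →
    volume {t | t ∈ Set.Icc T (2 * T) ∧ |∑ i, c i * Dd T t (x i) - b| ≤ ε * Real.sqrt (Real.log D₂)} ≤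
      ENNReal.ofReal (η * T) := by
  obtain ⟨ε, R1, hε, hR1, hhx⟩ := hx k B hB (show 0 < η / 4 by positivity)
  obtain ⟨C, R0, hC, hR0, hmom⟩ := momB B hB
  obtain ⟨Λ, hΛ⟩ : ∃ Λ : ℝ, Λ = 16 * (k + 1) ^ 3 * H ^ 2 * (1 + C) / (η * ε ^ 2) + 1 := ⟨_, rfl⟩
  have hΛ0 : 0 ≤ 16 * ((k : ℝ) + 1) ^ 3 * H ^ 2 * (1 + C) / (η * ε ^ 2) := by positivity
  refine ⟨ε / 2, R1 + R0 + 112 / η, Λ, by positivity, ?_, by rw [hΛ]; linarith,
    fun D₁ D₂ A T x c π b hD1 hΛD hD2 hDA hT hAT hxR hxA hin hout hc0 hc1 hc2 => ?_⟩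
  · have : 0 ≤ 112 / η := by positivity
    linarith
  have h112 : 0 ≤ 112 / η := by positivity
  obtain ⟨hT100, haL, hm⟩ := hmom A T (by linarith) hT hAT
  have hpi := Real.pi_pos
  have hpi2 := Real.pi_lt_d2
  have hA3 : (3 : ℝ) ≤ A := by linarith
  have hLT : 0 < Real.log T := by linarith
  have hT0 : 0 < T := by linarith
  have hTA : A ≤ T := by
    have := Real.log_le_sub_one_of_pos hT0
    linarith
  obtain ⟨l1, hl1⟩ := hc2
  have : Nonempty (Fin k) := ⟨l1⟩
  have hk0 : 0 < k := l1.pos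
  have hkr : (0 : ℝ) < k := by exact_mod_cast hk0
  set J := Set.Icc (T + 14) (2 * T - 14) with hJ
  -- shifts
  have hshift : ∀ y : ℝ, |y| ≤ 2 * A → |hs y T| ≤ 14 := by
    intro y hy
    unfold hs
    rw [abs_div, abs_mul, abs_of_pos (by positivity : 0 < 2 * Real.pi), abs_of_pos hLT, div_le_iff₀ hLT]
    calc 2 * Real.pi * |y| ≤ 2 * Real.pi * (2 * A) := mul_le_mul_of_nonneg_left hy (by positivity)
      _ = 4 * Real.pi * A := by ring
      _ ≤ 14 * A := by
          apply mul_le_mul_of_nonneg_right _ (by linarith)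
          linarith
      _ ≤ 14 * Real.log T := by linarith
  have hlogD1 : 0 ≤ Real.log (1 + D₁) := Real.log_nonneg (by linarith)
  have hlogD2 : 1 ≤ Real.log D₂ := by
    rw [hΛ] at hΛD
    nlinarith
  set r := Real.sqrt (Real.log D₂) with hr
  have hr0 : 0 < r := Real.sqrt_pos.2 (by linarith)
  have hr2 : r ^ 2 = Real.log D₂ := Real.sq_sqrt (by linarith)
  -- the differences
  obtain ⟨δ, hδ⟩ : ∃ δ : ℝ, δ = ε * r / (2 * k * H) := ⟨_, rfl⟩
  have hδ0 : 0 < δ := by rw [hδ]; positivity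
  set y : Fin k → ℝ := fun l => x (rep π l) with hy
  have hrepi : ∀ i, π (rep π (π i)) = π i := fun i => rep_spec π ⟨i, rfl⟩
  have hone : ∀ i, volume {t ∈ J | δ ^ 2 < (Dd T t (x i) - Dd T t (y (π i))) ^ 2} ≤
      ENNReal.ofReal (η / 4 * T / k) := by
    intro i
    obtain ⟨h, hh⟩ : ∃ h : ℝ, h = x i - y (π i) := ⟨_, rfl⟩
    have hxi : x i = y (π i) + h := by rw [hh]; ring
    have hhD : |h| ≤ D₁ := by
      rw [hh]
      exact hin i (rep π (π i)) (hrepi i).symm
    have e1 : ∀ t, (Dd T t (x i) - Dd T t (y (π i))) ^ 2 =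
        dev T |h| (t + hs (min (y (π i)) (y (π i) + h)) T) := fun t => by
      rw [hxi]; exact Dd_dev T t (y (π i)) h
    simp only [e1]
    have hxy : 0 ≤ y (π i) ∧ y (π i) ≤ A := ⟨by
      have := hxR (rep π (π i))
      simp only [hy]; linarith, hxA _⟩
    have hxi2 : 0 ≤ x i ∧ x i ≤ A := ⟨by have := hxR i; linarith, hxA i⟩
    rcases eq_or_ne h 0 with h0 | h0
    · have : {t ∈ J | δ ^ 2 < dev T |h| (t + hs (min (y (π i)) (y (π i) + h)) T)} = ∅ := by
        ext t
        rw [h0, abs_zero]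
        simp only [Set.mem_ofPred_eq, Set.mem_empty_iff_false, iff_false, not_and, not_lt, dev_zero]
        exact fun _ => by positivity
      rw [this, measure_empty]
      exact zero_le
    · have hhA : |h| ≤ A := by
        rw [hh, abs_le]
        constructor <;> linarith [hxy.1, hxy.2, hxi2.1, hxi2.2]
      have hmin : |min (y (π i)) (y (π i) + h)| ≤ 2 * A := by
        rw [← hxi, abs_le]
        constructor
        · apply le_min <;> linarith [hxy.1, hxi2.1]
        · exact (min_le_left _ _).trans (by linarith [hxy.2])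
      obtain ⟨h1, h2⟩ := hm |h| (hs (min (y (π i)) (y (π i) + h)) T) (abs_pos.2 h0) (by linarith)
        (hshift _ hmin)
      refine (cheb ((dev_meas T |h|).comp (measurable_id.add_const _)) (fun t => dev_nonneg _ _ _) h1 h2
        (by positivity)).trans (ENNReal.ofReal_le_ofReal ?_)
      rw [div_le_iff₀ (by positivity)]
      have h3 : Real.log (1 + |h|) ≤ Real.log (1 + D₁) :=
        Real.log_le_log (by positivity) (by linarith)
      have h4 : Real.log (1 + |h|) + C ≤ (1 + C) * (1 + Real.log (1 + D₁)) := by nlinarith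
      have h5 : 16 * ((k : ℝ) + 1) ^ 3 * H ^ 2 * (1 + C) / (η * ε ^ 2) * (1 + Real.log (1 + D₁)) ≤ r ^ 2 := by
        rw [hr2]
        refine le_trans ?_ hΛD
        apply mul_le_mul_of_nonneg_right _ (by linarith)
        rw [hΛ]; linarith
      have h6 : 16 * ((k : ℝ) + 1) ^ 3 * H ^ 2 * ((1 + C) * (1 + Real.log (1 + D₁))) ≤ η * ε ^ 2 * r ^ 2 := by
        have e2 : 16 * ((k : ℝ) + 1) ^ 3 * H ^ 2 * (1 + C) / (η * ε ^ 2) * (1 + Real.log (1 + D₁)) =
            16 * ((k : ℝ) + 1) ^ 3 * H ^ 2 * ((1 + C) * (1 + Real.log (1 + D₁))) / (η * ε ^ 2) := by ring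
        rw [e2, div_le_iff₀ (by positivity)] at h5
        linarith
      have h7 : (k : ℝ) ^ 3 ≤ ((k : ℝ) + 1) ^ 3 := pow_le_pow_left₀ hkr.le (by linarith) 3
      have h8 : 16 * (k : ℝ) ^ 3 * H ^ 2 * (Real.log (1 + |h|) + C) ≤ η * ε ^ 2 * r ^ 2 := by
        refine le_trans ?_ h6
        apply mul_le_mul _ h4 _ (by positivity)
        · apply mul_le_mul_of_nonneg_right _ (by positivity)
          linarith
        · have : 0 ≤ Real.log (1 + |h|) := Real.log_nonneg (by linarith [abs_nonneg h])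
          linarith
      have e3 : η / 4 * T / k * δ ^ 2 = η * ε ^ 2 * r ^ 2 * T / (16 * k ^ 3 * H ^ 2) := by
        rw [hδ]
        field_simp
        norm_num
      rw [e3, le_div_iff₀ (by positivity)]
      calc (Real.log (1 + |h|) + C) * T * (16 * k ^ 3 * H ^ 2)
          = 16 * (k : ℝ) ^ 3 * H ^ 2 * (Real.log (1 + |h|) + C) * T := by ring
        _ ≤ η * ε ^ 2 * r ^ 2 * T := mul_le_mul_of_nonneg_right h8 hT0.le
  -- the representatives
  obtain ⟨l0, hl0⟩ := Finite.exists_max fun l => |cs π c l|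
  obtain ⟨M, hM⟩ : ∃ M : ℝ, M = |cs π c l0| := ⟨_, rfl⟩
  have hM1 : 1 ≤ M := by
    rw [hM]
    exact hl1.trans (hl0 l1)
  have hM0 : 0 < M := by linarith
  have hcM : ∀ l, |cs π c l / M| = |cs π c l| / M := fun l => by rw [abs_div, abs_of_pos hM0]
  have hne : ∀ l, cs π c l / M ≠ 0 → π (rep π l) = l := fun l hl =>
    rep_spec π (cs_ne fun h => hl (by rw [h, zero_div]))
  have hmain := hhx D₂ A T y (fun l => cs π c l / M) (b / M) (by linarith) hDA hT hAT
    (fun l => by have := hxR (rep π l); simp only [hy]; linarith) (fun l => hxA _)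
    (fun l l' hll h1 h2 => hout _ _ (by rw [hne l h1, hne l' h2]; exact hll))
    (by
      rw [← Finset.sum_div]
      have h1 := cs_sum π c (fun _ => 1)
      simp only [mul_one] at h1
      rw [h1, hc0, zero_div])
    (fun l => by
      rw [hcM, div_le_one hM0, hM]
      exact hl0 l) ⟨l0, by rw [hcM, ← hM, div_self hM0.ne']⟩
  have hfin : volume {t | t ∈ Set.Icc T (2 * T) ∧ |∑ l, cs π c l / M * Dd T t (y l) - b / M| ≤ ε * r} ≠ ⊤ :=
    ne_top_of_le_ne_top (by rw [Real.volume_Icc]; exact ENNReal.ofReal_ne_top)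
      (measure_mono fun t ht => ht.1)
  have hmain' : volume {t | t ∈ Set.Icc T (2 * T) ∧ |∑ l, cs π c l / M * Dd T t (y l) - b / M| ≤ ε * r} ≤
      ENNReal.ofReal (η / 4 * T) := by
    rw [← ofReal_measureReal hfin]
    exact ENNReal.ofReal_le_ofReal hmain
  have hU : volume (⋃ i ∈ (Finset.univ : Finset (Fin k)),
      {t ∈ J | δ ^ 2 < (Dd T t (x i) - Dd T t (y (π i))) ^ 2}) ≤ ENNReal.ofReal (η / 4 * T) := by
    refine (union_bd Finset.univ (fun i t => (Dd T t (x i) - Dd T t (y (π i))) ^ 2)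
      (by rw [Finset.card_univ, Fintype.card_fin]) (fun i _ => hone i)).trans
      (ENNReal.ofReal_le_ofReal (le_of_eq ?_))
    field_simp
  refine (measure_mono (t := (Set.Icc T (2 * T) \ Set.Icc (T + 14) (2 * T - 14)) ∪
    ((⋃ i ∈ (Finset.univ : Finset (Fin k)), {t ∈ J | δ ^ 2 < (Dd T t (x i) - Dd T t (y (π i))) ^ 2}) ∪
    {t | t ∈ Set.Icc T (2 * T) ∧ |∑ l, cs π c l / M * Dd T t (y l) - b / M| ≤ ε * r})) ?_).trans
    ((measure_union_le _ _).trans ((add_le_add edge ((measure_union_le _ _).trans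
      (add_le_add hU hmain'))).trans ?_))
  · rintro t ⟨ht, ht2⟩
    by_cases htJ : t ∈ J
    · right
      by_cases hG : ∃ i, δ ^ 2 < (Dd T t (x i) - Dd T t (y (π i))) ^ 2
      · left
        obtain ⟨i, hi⟩ := hG
        exact Set.mem_biUnion (Finset.mem_univ i) ⟨htJ, hi⟩
      · right
        push Not at hG
        refine ⟨ht, ?_⟩
        have h1 : ∀ i, |Dd T t (x i) - Dd T t (y (π i))| ≤ δ := fun i => by
          rw [← abs_of_pos hδ0, ← sq_le_sq]
          exact hG i
        have h2 : ∑ l, cs π c l * Dd T t (y l) = ∑ i, c i * Dd T t (y (π i)) :=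
          cs_sum π c (fun l => Dd T t (y l))
        have h3 : |∑ i, c i * Dd T t (x i) - ∑ i, c i * Dd T t (y (π i))| ≤ ε * r / 2 := by
          rw [← Finset.sum_sub_distrib]
          refine (Finset.abs_sum_le_sum_abs _ _).trans ?_
          calc ∑ i, |c i * Dd T t (x i) - c i * Dd T t (y (π i))| ≤ ∑ i : Fin k, H * δ := by
                refine Finset.sum_le_sum fun i _ => ?_
                rw [← mul_sub, abs_mul]
                exact mul_le_mul (hc1 i) (h1 i) (abs_nonneg _) (by linarith)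
            _ = ε * r / 2 := by
                rw [Finset.sum_const, Finset.card_univ, Fintype.card_fin, nsmul_eq_mul, hδ]
                field_simp
        have h4 : ∑ l, cs π c l / M * Dd T t (y l) - b / M = (∑ i, c i * Dd T t (y (π i)) - b) / M := by
          rw [← h2, sub_div, Finset.sum_div]
          congr 1
          exact Finset.sum_congr rfl fun l _ => by ring
        rw [h4, abs_div, abs_of_pos hM0]
        refine (div_le_self (abs_nonneg _) hM1).trans ?_
        have h5 := abs_le.1 h3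
        have h6 := abs_le.1 ht2
        rw [abs_le]
        constructor <;> linarith [h5.1, h5.2, h6.1, h6.2]
    · left
      exact ⟨ht, htJ⟩
  · have hηT : 0 ≤ η / 4 * T := by positivity
    rw [← ENNReal.ofReal_add hηT hηT, ← ENNReal.ofReal_add (by norm_num) (by linarith)]
    apply ENNReal.ofReal_le_ofReal
    have h28 : 28 ≤ η / 4 * T := by
      have h1 : 112 / η ≤ T := by linarith
      rw [div_le_iff₀ hη] at h1
      linarith
    linarith

end Pool.Agent.K7.H75.LC
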