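import Pool.Agent.K7.H75.LC.HC
import Pool.Agent.K7.H75.LE.HO

/-! # Anticoncentration for combinations of ordinates following a height, clustered shifts -/

set_option autoImplicit false

namespace Pool.Agent.K7.H75.LC

open Filter Topology MeasureTheory
open Pool.Agent.Y743.NC (dev dev_int dev_nonneg)
open Pool.Agent.R321.QA (hs)
open Pool.Agent.R846.VS (Dd dev_meas cheb dev_zero union_bd edge pos1)
open Pool.Agent.K7.H75.LE
open SG (NZ ord ord_le_iff)

/-- the numerical conditions -/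
lemma params' {κ Q C u s A : ℝ} (hκ : 0 < κ) (hQ : 0 ≤ Q) (hC : 0 < C) (hu : 1 ≤ u) (hs1 : 1 ≤ s)
    (hrs : u ^ 4 ≤ s) (hsr : s ≤ 2 * u ^ 10) (hsA : s ≤ Real.sqrt A) (hA : (1 + Q + 3 * κ) ^ 2 ≤ A) :
    ∃ S : ℕ, 1 + Q * s + 2 * (κ * u ^ 4) ≤ S * (κ * u ^ 4) ∧ (S : ℝ) * (κ * u ^ 4) ≤ A ∧
    (2 * (S : ℝ) + 1) * (Real.log (1 + S * (κ * u ^ 4)) + C) ≤
      (4 * (1 + Q) / κ + 7) * u ^ 6 * ((Real.log (2 + 2 * Q + 3 * κ) + C + 10) * u) := by
  have hu0 : 0 < u := by linarith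
  have hr : 1 ≤ u ^ 4 := one_le_pow₀ hu
  have he : 0 < κ * u ^ 4 := by positivity
  refine ⟨⌈(1 + Q * s + 2 * (κ * u ^ 4)) / (κ * u ^ 4)⌉₊, ?_, ?_, ?_⟩
  · have h1 := Nat.le_ceil ((1 + Q * s + 2 * (κ * u ^ 4)) / (κ * u ^ 4))
    rwa [div_le_iff₀ he] at h1
  · have hQs : 0 ≤ Q * s := by positivity
    have h1 := (Nat.ceil_lt_add_one (show 0 ≤ (1 + Q * s + 2 * (κ * u ^ 4)) / (κ * u ^ 4) by
      positivity)).le
    have h2 := mul_le_mul_of_nonneg_right h1 he.le
    have h3 : ((1 + Q * s + 2 * (κ * u ^ 4)) / (κ * u ^ 4) + 1) * (κ * u ^ 4) =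
        1 + Q * s + 3 * (κ * u ^ 4) := by
      field_simp; ring
    rw [h3] at h2
    refine h2.trans ?_
    have hA0 : 0 ≤ A := (sq_nonneg _).trans hA
    have h4 : 1 + Q + 3 * κ ≤ Real.sqrt A := Real.le_sqrt_of_sq_le hA
    calc 1 + Q * s + 3 * (κ * u ^ 4) ≤ 1 * s + Q * s + 3 * (κ * s) := by
          have : κ * u ^ 4 ≤ κ * s := mul_le_mul_of_nonneg_left hrs hκ.le
          linarith
      _ = (1 + Q + 3 * κ) * s := by ring
      _ ≤ Real.sqrt A * Real.sqrt A := mul_le_mul h4 hsA (by linarith) (Real.sqrt_nonneg _)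
      _ = A := Real.mul_self_sqrt hA0
  · have hQs : 0 ≤ Q * s := by positivity
    have h1 := (Nat.ceil_lt_add_one (show 0 ≤ (1 + Q * s + 2 * (κ * u ^ 4)) / (κ * u ^ 4) by
      positivity)).le
    set S : ℝ := (⌈(1 + Q * s + 2 * (κ * u ^ 4)) / (κ * u ^ 4)⌉₊ : ℝ) with hS
    have hS0 : 0 ≤ S := Nat.cast_nonneg _
    have h2 := mul_le_mul_of_nonneg_right h1 he.le
    have h3 : ((1 + Q * s + 2 * (κ * u ^ 4)) / (κ * u ^ 4) + 1) * (κ * u ^ 4) =
        1 + Q * s + 3 * (κ * u ^ 4) := by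
      field_simp; ring
    rw [h3] at h2
    have h10 : 1 ≤ u ^ 10 := one_le_pow₀ hu
    have h6' : 1 ≤ u ^ 6 := one_le_pow₀ hu
    have h5 : 1 + Q * s ≤ (1 + Q) * (2 * u ^ 10) := by
      have a1 : (1 + Q) * s ≤ (1 + Q) * (2 * u ^ 10) := mul_le_mul_of_nonneg_left hsr (by linarith)
      linarith
    have h6 : 2 * S + 1 ≤ (4 * (1 + Q) / κ + 7) * u ^ 6 := by
      have a1 : (1 + Q * s) / (κ * u ^ 4) ≤ (1 + Q) * (2 * u ^ 10) / (κ * u ^ 4) :=
        div_le_div_of_nonneg_right h5 he.le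
      have a2 : (1 + Q) * (2 * u ^ 10) / (κ * u ^ 4) = 2 * (1 + Q) / κ * u ^ 6 := by
        have : u ^ 10 = u ^ 6 * u ^ 4 := by ring
        rw [this]
        field_simp
      have a3 : (1 + Q * s + 2 * (κ * u ^ 4)) / (κ * u ^ 4) = (1 + Q * s) / (κ * u ^ 4) + 2 := by
        field_simp
      have a4 : (4 * (1 + Q) / κ + 7) * u ^ 6 = 2 * (2 * (1 + Q) / κ * u ^ 6) + 7 * u ^ 6 := by ring
      rw [a3] at h1
      rw [a4]
      linarith
    have h7 : 1 + S * (κ * u ^ 4) ≤ (2 + 2 * Q + 3 * κ) * u ^ 10 := by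
      have a1 : Q * s ≤ Q * (2 * u ^ 10) := mul_le_mul_of_nonneg_left hsr hQ
      have a2 : u ^ 4 ≤ u ^ 10 := pow_le_pow_right₀ hu (by norm_num)
      have a3 : κ * u ^ 4 ≤ κ * u ^ 10 := mul_le_mul_of_nonneg_left a2 hκ.le
      nlinarith
    have h8 : Real.log (1 + S * (κ * u ^ 4)) + C ≤
        (Real.log (2 + 2 * Q + 3 * κ) + C + 10) * u := by
      have a1 := Real.log_le_log (by positivity) h7
      rw [Real.log_mul (by positivity) (by positivity), Real.log_pow] at a1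
      push_cast at a1
      have a3 := Real.log_le_sub_one_of_pos hu0
      have a4 : 0 ≤ Real.log (2 + 2 * Q + 3 * κ) := Real.log_nonneg (by linarith)
      have a5 : Real.log (2 + 2 * Q + 3 * κ) ≤ Real.log (2 + 2 * Q + 3 * κ) * u :=
        le_mul_of_one_le_right a4 hu
      have a6 : C ≤ C * u := le_mul_of_one_le_right hC.le hu
      linarith
    have h9 : 0 ≤ Real.log (1 + S * (κ * u ^ 4)) + C := by
      have : 0 ≤ Real.log (1 + S * (κ * u ^ 4)) := Real.log_nonneg (by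
        have : 0 ≤ S * (κ * u ^ 4) := by positivity
        linarith)
      linarith
    exact mul_le_mul h6 h8 h9 (by positivity)

/-- **anticoncentration for combinations of the ordinates following a height, clustered shifts** -/
theorem hoc (k : ℕ) (B H : ℝ) (hB : 1 ≤ B) (hH : 1 ≤ H) {η : ℝ} (hη : 0 < η) : ∃ ε R Λ : ℝ, 0 < ε ∧
    3 ≤ R ∧ 1 ≤ Λ ∧
    ∀ (D₁ D₂ A T : ℝ) (x : Fin k → ℕ) (c : Fin k → ℝ) (π : Fin k → Fin k) (b : ℝ), 0 ≤ D₁ →
    Λ * (1 + Real.log (1 + D₁)) ≤ Real.log D₂ → R ≤ D₂ → D₂ ≤ A → 1 ≤ T →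
    A * Real.log A ≤ B * Real.log T → Real.log A ^ 2 ≤ 16 * Real.log D₂ ^ 5 →
    (∀ i, R ≤ x i) → (∀ i, (x i : ℝ) ≤ A) → (∀ i j, π i = π j → |(x i : ℝ) - x j| ≤ D₁) →
    (∀ i j, π i ≠ π j → D₂ ≤ |(x i : ℝ) - x j|) →
    ∑ i, c i = 0 → (∀ i, |c i| ≤ H) → (∃ l, 1 ≤ |cs π c l|) →
    volume {t ∈ Set.Icc T (2 * T) | |∑ i, c i * ord (NZ t + 1 + x i) - b| ≤
      ε * Real.sqrt (Real.log D₂) / Real.log T} ≤ ENNReal.ofReal (η * T) := by
  obtain ⟨ε, R1, Λ, hε, hR1, hΛ, hhx⟩ := hxc k B H hB hH (show 0 < η / 4 by positivity)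
  obtain ⟨C, R0, hC, hR0, hexc⟩ := exc3 B hB
  obtain ⟨κ, hκd⟩ : ∃ κ : ℝ, κ = ε / (4 * (k + 1) * H) := ⟨_, rfl⟩
  have hk1 : (0 : ℝ) < k + 1 := by positivity
  have hH0 : 0 < H := by linarith
  have hκ : 0 < κ := by rw [hκd]; positivity
  obtain ⟨Q, hQd⟩ : ∃ Q : ℝ, Q = Real.sqrt (4 * (k + 1) * (2 + C) / η) := ⟨_, rfl⟩
  have hQ0 : 0 < Q := by rw [hQd]; exact Real.sqrt_pos.2 (by positivity)
  have hQ2 : Q ^ 2 = 4 * (k + 1) * (2 + C) / η := by rw [hQd]; exact Real.sq_sqrt (by positivity)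
  obtain ⟨K1, hK1⟩ : ∃ K1 : ℝ, K1 = 4 * (1 + Q) / κ + 7 := ⟨_, rfl⟩
  obtain ⟨C3, hC3⟩ : ∃ C3 : ℝ, C3 = Real.log (2 + 2 * Q + 3 * κ) + C + 10 := ⟨_, rfl⟩
  have hK10 : 0 < K1 := by rw [hK1]; positivity
  have hC30 : 0 < C3 := by
    have : 0 ≤ Real.log (2 + 2 * Q + 3 * κ) := Real.log_nonneg (by linarith)
    rw [hC3]; linarith
  obtain ⟨U, hU⟩ : ∃ U : ℝ, U = 4 * (k + 1) * K1 * C3 / (η * κ ^ 2) + 1 := ⟨_, rfl⟩
  have hU1 : 1 ≤ U := by
    have : 0 ≤ 4 * (k + 1) * K1 * C3 / (η * κ ^ 2) := by positivity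
    rw [hU]; linarith
  have hUU : 4 * (k + 1) * K1 * C3 / (η * κ ^ 2) ≤ U := by rw [hU]; linarith
  refine ⟨ε, Real.exp (U ^ 8) + R1 + R0 + (1 + Q + 3 * κ) ^ 2 + 112 / η + 3, Λ, hε, ?_, hΛ,
    fun D₁ D₂ A T x c π b hD1 hΛD hD hDA hT hAT hAD hxR hxA hin hout hc0 hc1 hc2 => ?_⟩
  · have h1 := Real.exp_pos (U ^ 8)
    have h2 : 0 ≤ 112 / η := by positivity
    have h3 := sq_nonneg (1 + Q + 3 * κ)
    linarith
  have hexpU := Real.exp_pos (U ^ 8)
  have h112 : 0 ≤ 112 / η := by positivity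
  have hsq := sq_nonneg (1 + Q + 3 * κ)
  have hDU : Real.exp (U ^ 8) ≤ D₂ := by linarith
  have hDR1 : R1 ≤ D₂ := by linarith
  have hAR0 : R0 ≤ A := by linarith
  have hA2 : (1 + Q + 3 * κ) ^ 2 ≤ A := by linarith
  have hA112 : 112 / η ≤ A := by linarith
  have hD3 : 3 ≤ D₂ := by linarith
  have hA3 : 3 ≤ A := by linarith
  have hlD : U ^ 8 ≤ Real.log D₂ := by
    rw [Real.le_log_iff_exp_le (by linarith)]
    exact hDU
  have hU4 : 1 ≤ U ^ 8 := one_le_pow₀ hU1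
  have hlD1 : 1 ≤ Real.log D₂ := hU4.trans hlD
  have hlDA : Real.log D₂ ≤ Real.log A := Real.log_le_log (by linarith) hDA
  have hlA1 : 1 ≤ Real.log A := hlD1.trans hlDA
  have hT0 : 0 < T := by linarith
  have hLT0 : 0 < Real.log T := by
    have h1 : 0 < A * Real.log A := by positivity
    have h2 : 0 < B * Real.log T := lt_of_lt_of_le h1 hAT
    exact (mul_pos_iff_of_pos_left (by linarith : 0 < B)).1 h2
  set r := Real.sqrt (Real.log D₂) with hr
  set s := Real.sqrt (Real.log A) with hs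
  set u := Real.sqrt (Real.sqrt r) with hu
  have hr2 : r ^ 2 = Real.log D₂ := Real.sq_sqrt (by linarith)
  have hs2 : s ^ 2 = Real.log A := Real.sq_sqrt (by linarith)
  have hr1 : 1 ≤ r := Real.one_le_sqrt.2 hlD1
  have hs1 : 1 ≤ s := Real.one_le_sqrt.2 hlA1
  have hu1 : 1 ≤ u := Real.one_le_sqrt.2 (Real.one_le_sqrt.2 hr1)
  have hu4 : u ^ 4 = r := by
    have e : u ^ 4 = (u ^ 2) ^ 2 := by ring
    rw [e, hu, Real.sq_sqrt (Real.sqrt_nonneg _), Real.sq_sqrt (by linarith)]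
  have hrs : u ^ 4 ≤ s := by
    rw [hu4]
    exact Real.sqrt_le_sqrt hlDA
  have hsr : s ≤ 2 * u ^ 10 := by
    by_contra hcon
    push Not at hcon
    have h1 : (2 * u ^ 10) ^ 4 < s ^ 4 := pow_lt_pow_left₀ hcon (by positivity) (by norm_num)
    have h2 : s ^ 4 = Real.log A ^ 2 := by
      rw [← hs2]; ring
    have h3 : (2 * u ^ 10) ^ 4 = 16 * Real.log D₂ ^ 5 := by
      rw [← hr2, ← hu4]; ring
    rw [h2, h3] at h1
    linarith
  have hsA : s ≤ Real.sqrt A := by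
    apply Real.sqrt_le_sqrt
    have := Real.log_le_sub_one_of_pos (by linarith : 0 < A)
    linarith
  obtain ⟨S, hS1, hS2, hS3⟩ := params' hκ hQ0.le hC hu1 hs1 hrs hsr hsA hA2
  rw [← hK1, ← hC3] at hS3
  rw [hu4] at hS1 hS2 hS3
  set e := κ * r with he
  have hr0 : 0 < r := by linarith
  have he0 : 0 < e := by rw [he]; positivity
  have hUu : U ≤ u := by
    apply Real.le_sqrt_of_sq_le
    apply Real.le_sqrt_of_sq_le
    rw [hr]
    apply Real.le_sqrt_of_sq_le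
    calc ((U ^ 2) ^ 2) ^ 2 = U ^ 8 := by ring
      _ ≤ _ := hlD
  have hbad := hexc k (Finset.univ.image x) S A T (Q * s) e η
    (Finset.card_image_le.trans (by rw [Finset.card_univ, Fintype.card_fin])) hη hAR0 hT hAT
    (fun y hy => by
      obtain ⟨i, _, rfl⟩ := Finset.mem_image.1 hy
      exact hxA i) hS2 he0 (by positivity)
    (by
      have h1 : Real.log (1 + A) ≤ 2 * Real.log A := by
        have h2 : Real.log (1 + A) ≤ Real.log (A ^ 2) := Real.log_le_log (by linarith) (by nlinarith)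
        rwa [Real.log_pow] at h2
      have h3 : Real.log (1 + A) + C ≤ (2 + C) * s ^ 2 := by
        rw [hs2]
        have : C ≤ C * Real.log A := le_mul_of_one_le_right hC.le hlA1
        linarith
      calc (k : ℝ) * (Real.log (1 + A) + C) ≤ (k + 1) * ((2 + C) * s ^ 2) := by
            apply mul_le_mul (by linarith) h3 _ hk1.le
            have : 0 ≤ Real.log (1 + A) := Real.log_nonneg (by linarith)
            linarith
        _ = η / 4 * (Q * s) ^ 2 := by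
            rw [mul_pow, hQ2]
            field_simp)
    (by
      have h1 : (k : ℝ) * (2 * S + 1) * (Real.log (1 + S * e) + C) ≤
          (k + 1) * (K1 * u ^ 6 * (C3 * u)) := by
        rw [mul_assoc]
        apply mul_le_mul (by linarith) hS3 _ hk1.le
        have : 0 ≤ Real.log (1 + S * e) := Real.log_nonneg (by
          have : 0 ≤ (S : ℝ) * e := by positivity
          linarith)
        positivity
      refine h1.trans ?_
      have h2 : 4 * (k + 1) * K1 * C3 ≤ u * (η * κ ^ 2) := by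
        rw [← div_le_iff₀ (by positivity)]
        exact hUU.trans hUu
      have h4 : 0 ≤ u ^ 7 := by positivity
      calc (k + 1) * (K1 * u ^ 6 * (C3 * u)) = (4 * (k + 1) * K1 * C3) / 4 * u ^ 7 := by ring
        _ ≤ (u * (η * κ ^ 2)) / 4 * u ^ 7 :=
            mul_le_mul_of_nonneg_right (by linarith) h4
        _ = η / 4 * (κ * u ^ 4) ^ 2 := by ring
        _ = η / 4 * e ^ 2 := by rw [hu4])
    hA112
  obtain ⟨K, hK⟩ : ∃ K : ℝ, K = Real.log T / (2 * Real.pi) := ⟨_, rfl⟩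
  have hpi := Real.pi_pos
  have hK0 : 0 < K := by rw [hK]; positivity
  obtain ⟨b', hb'⟩ : ∃ b' : ℝ, b' = ∑ i, c i * x i - K * b := ⟨_, rfl⟩
  have hgood' := hhx D₁ D₂ A T (fun i => (x i : ℝ)) c π b' hD1 hΛD hDR1 hDA hT hAT
    (fun i => by
      have := hxR i
      linarith) hxA hin hout hc0 hc1 hc2
  refine (measure_mono (t := {t ∈ Set.Icc T (2 * T) | ¬ Good3 (Finset.univ.image x) S T (Q * s) e t} ∪
    {t | t ∈ Set.Icc T (2 * T) ∧ |∑ i, c i * Dd T t (x i) - b'| ≤ ε * r}) ?_).trans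
    ((measure_union_le _ _).trans ((add_le_add hbad hgood').trans ?_))
  · rintro t ⟨ht, ht2⟩
    by_cases hG : Good3 (Finset.univ.image x) S T (Q * s) e t
    · right
      refine ⟨ht, ?_⟩
      have h1 : ∀ i, |(ord (NZ t + 1 + x i) - t) * K - (x i + 1) + Dd T t (x i)| ≤ 2 * e := by
        intro i
        obtain ⟨g1, g2⟩ := hG (x i) (Finset.mem_image_of_mem x (Finset.mem_univ i))
        have := pos1 hLT0 he0 (by positivity : 0 ≤ Q * s) hS1 g1 g2
        rw [hK]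
        exact this
      have h2 : ∑ i, c i * Dd T t (x i) - b' =
          ∑ i, c i * ((ord (NZ t + 1 + x i) - t) * K - (x i + 1) + Dd T t (x i)) -
          K * (∑ i, c i * ord (NZ t + 1 + x i) - b) := by
        have h3 : ∀ i, c i * ((ord (NZ t + 1 + x i) - t) * K - (x i + 1) + Dd T t (x i)) =
            K * (c i * ord (NZ t + 1 + x i)) - (t * K + 1) * c i - c i * x i + c i * Dd T t (x i) := by
          intro i; ring
        rw [Finset.sum_congr rfl fun i _ => h3 i, Finset.sum_add_distrib, Finset.sum_sub_distrib,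
          Finset.sum_sub_distrib, ← Finset.mul_sum, ← Finset.mul_sum, hc0, hb']
        ring
      have h4 : |∑ i, c i * ((ord (NZ t + 1 + x i) - t) * K - (x i + 1) + Dd T t (x i))| ≤
          k * (H * (2 * e)) := by
        refine (Finset.abs_sum_le_sum_abs _ _).trans ?_
        calc ∑ i, |c i * ((ord (NZ t + 1 + x i) - t) * K - (x i + 1) + Dd T t (x i))|
            ≤ ∑ i : Fin k, H * (2 * e) := by
              refine Finset.sum_le_sum fun i _ => ?_
              rw [abs_mul]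
              exact mul_le_mul (hc1 i) (h1 i) (abs_nonneg _) hH0.le
          _ = _ := by rw [Finset.sum_const, Finset.card_univ, Fintype.card_fin, nsmul_eq_mul]
      have h5 : |K * (∑ i, c i * ord (NZ t + 1 + x i) - b)| ≤ ε * r / 2 := by
        rw [abs_mul, abs_of_pos hK0]
        calc K * |∑ i, c i * ord (NZ t + 1 + x i) - b| ≤ K * (ε * r / Real.log T) :=
              mul_le_mul_of_nonneg_left ht2 hK0.le
          _ = ε * r / (2 * Real.pi) := by rw [hK]; field_simp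
          _ ≤ ε * r / 2 := by
              apply div_le_div_of_nonneg_left (by positivity) (by norm_num)
              linarith [Real.pi_gt_three]
      have h6 : (k : ℝ) * (H * (2 * e)) ≤ ε * r / 2 := by
        have h7 : (k + 1 : ℝ) * (H * (2 * e)) = ε * r / 2 := by
          rw [he, hκd]; field_simp; ring
        have h8 : 0 ≤ H * (2 * e) := by positivity
        linarith
      rw [h2]
      refine (abs_sub _ _).trans ?_
      linarith
    · left
      exact ⟨ht, hG⟩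
  · rw [← ENNReal.ofReal_add (by positivity) (by positivity)]
    apply ENNReal.ofReal_le_ofReal
    linarith

end Pool.Agent.K7.H75.LC
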