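import Pool.Agent.K7.H75.LC.EN

/-! # Anticoncentration for combinations of the numbers of ordinates in windows -/

set_option autoImplicit false

namespace Pool.Agent.K7.H75.LC

open Complex Filter Topology MeasureTheory Set
open Pool.Agent.TH850.UV (kap)
open Pool.Agent.Y743.CL (VS VS_nonneg rc XK er er_meas comb small_log gs)
open Pool.Agent.R846.VS (Dd)
open Pool.Agent.R321.QA (hs)
open SG (NZ)
open Pool.Agent.K7.H75.LE

variable {k : ℕ}

theorem hx_seq (k : ℕ) (B : ℝ) (hB : 1 ≤ B) {η : ℝ} (hη : 0 < η) : ∃ ε A0 : ℝ, 0 < ε ∧ 3 ≤ A0 ∧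
    ∀ (D A T : ℕ → ℝ) (x c : ℕ → Fin k → ℝ) (b : ℕ → ℝ),
    (∀ j, A0 ≤ D j) → Tendsto D atTop atTop → (∀ j, D j ≤ A j) → (∀ j, 1 ≤ T j) →
    (∀ j, A j * Real.log (A j) ≤ B * Real.log (T j)) →
    (∀ j i, A0 ≤ x j i) → (∀ j i, x j i ≤ A j) →
    (∀ j i i', i ≠ i' → c j i ≠ 0 → c j i' ≠ 0 → D j ≤ |x j i - x j i'|) →
    (∀ j, ∑ i, c j i = 0) → (∀ j i, |c j i| ≤ 1) → (∀ j, ∃ i, 1 ≤ |c j i|) →
    ∀ᶠ j in atTop, volume.real {t | t ∈ Icc (T j) (2 * T j) ∧
      |∑ i, c j i * Dd (T j) t (x j i) - b j| ≤ ε * Real.sqrt (Real.log (D j))} ≤ η * T j := by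
  obtain ⟨lam, C, T0, hlam, hC, hT0, hcomb⟩ := comb B hB
  obtain ⟨ε₀, hε₀, hanti⟩ := anti (show 0 < η / 4 by positivity)
  have hev : ∀ᶠ T : ℝ in atTop, 2 * Real.log T + 7 ≤ 1 * T / 2 := by
    have h1 : (fun T : ℝ => 2 * Real.log T + 7) =o[atTop] fun T : ℝ => T :=
      (Real.isLittleO_log_id_atTop.const_mul_left 2).add (Asymptotics.isLittleO_const_id_atTop _)
    have h2 := h1.bound (c := 1 / 2) (by norm_num)
    filter_upwards [h2, eventually_ge_atTop 1] with T hT hT1
    rw [Real.norm_of_nonneg (by linarith : (0 : ℝ) ≤ T)] at hT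
    have := (le_abs_self _).trans hT
    linarith
  obtain ⟨T3, hT3⟩ := hev.exists_forall_of_atTop
  have hpi := Real.pi_pos
  refine ⟨ε₀ / 13, max (max lam 3) (max (B * Real.log (max T0 T3)) (72 * B)), by positivity,
    (le_max_right _ _).trans (le_max_left _ _),
    fun D A T x c b hD hDt hDA hT1 hAT hxA0 hxA hsep hc0 hc1 hc2 => ?_⟩
  -- the basic facts
  have f1 : ∀ j, lam ≤ D j := fun j => ((le_max_left _ _).trans (le_max_left _ _)).trans (hD j)
  have f1x : ∀ j i, lam ≤ x j i := fun j i => ((le_max_left _ _).trans (le_max_left _ _)).trans (hxA0 j i)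
  have f1A : ∀ j, lam ≤ A j := fun j => (f1 j).trans (hDA j)
  have f2 : ∀ j, 3 ≤ A j := fun j =>
    (((le_max_right _ _).trans (le_max_left _ _)).trans (hD j)).trans (hDA j)
  have f3 : ∀ j, B * Real.log (max T0 T3) ≤ A j := fun j =>
    (((le_max_left _ _).trans (le_max_right _ _)).trans (hD j)).trans (hDA j)
  have f4 : ∀ j, 72 * B ≤ A j := fun j =>
    (((le_max_right _ _).trans (le_max_right _ _)).trans (hD j)).trans (hDA j)
  have f5 : ∀ j, 1 ≤ Real.log (A j) := fun j => by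
    rw [Real.le_log_iff_exp_le (by linarith [f2 j])]
    linarith [Real.exp_one_lt_d9, f2 j]
  have f5D : ∀ j, 1 ≤ Real.log (D j) := fun j => by
    have := f1 j
    rw [Real.le_log_iff_exp_le (by linarith)]
    linarith [Real.exp_one_lt_d9]
  have f6 : ∀ j, A j / B ≤ Real.log (T j) := fun j => by
    rw [div_le_iff₀ (by linarith)]
    have := hAT j
    have h1 : A j * 1 ≤ A j * Real.log (A j) :=
      mul_le_mul_of_nonneg_left (f5 j) (by linarith [f2 j])
    linarith
  have f7 : ∀ j, max T0 T3 ≤ T j := fun j => by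
    have h0 : 0 < max T0 T3 := lt_of_lt_of_le (by linarith) (le_max_left T0 T3)
    rw [← Real.log_le_log_iff h0 (by linarith [hT1 j])]
    refine le_trans ?_ (f6 j)
    rw [le_div_iff₀ (by linarith)]
    linarith [f3 j]
  have f8 : ∀ j, T0 ≤ T j := fun j => (le_max_left _ _).trans (f7 j)
  have f9 : ∀ j, 2 * Real.log (T j) + 7 ≤ T j / 2 := fun j => by
    have := hT3 (T j) ((le_max_right _ _).trans (f7 j))
    linarith
  have f10 : ∀ j, 0 < T j := fun j => by linarith [hT1 j]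
  have f11 : ∀ j, 0 < Real.log (T j) := fun j => Real.log_pos (by linarith [f8 j])
  have hAt : Tendsto A atTop atTop := tendsto_atTop_mono hDA hDt
  have hTt : Tendsto T atTop atTop := by
    refine tendsto_atTop_mono (fun j => ?_) (hAt.atTop_div_const (by linarith : 0 < B))
    have h1 := Real.log_le_sub_one_of_pos (f10 j)
    linarith [f6 j]
  have hLt : Tendsto (fun j => Real.log (A j)) atTop atTop := Real.tendsto_log_atTop.comp hAt
  have hDl : Tendsto (fun j => Real.log (D j)) atTop atTop := Real.tendsto_log_atTop.comp hDt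
  -- the parameters
  set κ : ℕ → ℝ := fun j => 1 / (8 + Real.log (D j)) with hκ
  have hDA' : ∀ j, Real.log (D j) ≤ Real.log (A j) := fun j =>
    Real.log_le_log (by linarith [f1 j]) (hDA j)
  have k1 : ∀ j, 0 < κ j := fun j => by
    have := f5D j
    simp only [hκ]; positivity
  have k2 : ∀ j, κ j ≤ 1 / 8 := fun j => by
    have := f5D j
    simp only [hκ]
    exact one_div_le_one_div_of_le (by norm_num) (by linarith)
  have k3 : ∀ j, 8 ≤ κ j * Real.log (T j) := fun j => by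
    have h0 := f5D j
    have h1 := f5 j
    have h2 := hAT j
    have h7 := hDA' j
    simp only [hκ]
    rw [div_mul_eq_mul_div, one_mul, le_div_iff₀ (by linarith)]
    have h3 : 8 * (8 + Real.log (A j)) ≤ 72 * Real.log (A j) := by linarith
    have h4 : 72 * B * Real.log (A j) ≤ A j * Real.log (A j) :=
      mul_le_mul_of_nonneg_right (f4 j) (by linarith)
    have h5 : B * (72 * Real.log (A j)) ≤ B * Real.log (T j) := by linarith
    have h6 := le_of_mul_le_mul_left h5 (by linarith : 0 < B)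
    linarith
  have k4 : ∀ j, Real.log (1 / κ j) = Real.log (8 + Real.log (D j)) := fun j => by
    simp only [hκ]; rw [one_div_one_div]
  -- the estimates
  have hcb : ∀ j a, lam ≤ a → a ≤ A j → IntervalIntegrable (fun t => er lam (κ j) (T j) a t ^ 2) volume
      (T j + Real.log (T j)) (2 * T j - Real.log (T j) - 7) ∧
      ∫ t in (T j + Real.log (T j))..(2 * T j - Real.log (T j) - 7), er lam (κ j) (T j) a t ^ 2 ≤
        C * (1 + Real.log (8 + 2 * Real.log (D j) ^ 2)) * T j ∧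
      |VS (rc (Real.log (T j) / lam) (2 * Real.pi * a / Real.log (T j))) (XK (κ j) (T j)) -
        2 / Real.pi ^ 2 * Real.log a| ≤ C * (1 + Real.log (8 + 2 * Real.log (D j) ^ 2)) := by
    intro j a ha1 ha2
    have h1 : a * Real.log a ≤ B * Real.log (T j) := by
      refine le_trans ?_ (hAT j)
      exact mul_le_mul ha2 (Real.log_le_log (by linarith) ha2) (Real.log_nonneg (by linarith))
        (by linarith [f2 j])
    obtain ⟨g1, g2, g3⟩ := hcomb (T j) (f8 j) a ha1 h1 (κ j) (k1 j) (k2 j) (k3 j)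
    have h2 : Real.log (1 / κ j) ≤ Real.log (8 + 2 * Real.log (D j) ^ 2) := by
      rw [k4]
      have := f5D j
      exact Real.log_le_log (by linarith) (by nlinarith)
    have h3 : C * (1 + Real.log (1 / κ j)) ≤ C * (1 + Real.log (8 + 2 * Real.log (D j) ^ 2)) :=
      mul_le_mul_of_nonneg_left (by linarith) hC.le
    exact ⟨g1, g2.trans (mul_le_mul_of_nonneg_right h3 (f10 j).le), g3.trans h3⟩
  set q : ℕ → ℝ := fun j => (1 + Real.log (8 + 2 * Real.log (D j) ^ 2)) / Real.log (D j) with hq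
  have hq0 : Tendsto q atTop (𝓝 0) := small_log2.comp hDl
  set X : ℕ → ℕ := fun j => XK (κ j) (T j) with hX
  set z : ℕ → ℕ → ℂ := fun j => zc (Real.log (T j) / lam) (fun i => 2 * Real.pi * x j i / Real.log (T j)) (c j) with hz
  set V : ℕ → ℝ := fun j => VS (rr (z j)) (X j) with hV
  have hl1 : ∀ j, ∑ i, |c j i| ≤ k := fun j => by
    refine (Finset.sum_le_sum fun i _ => hc1 j i).trans ?_
    rw [Finset.sum_const, Finset.card_univ, Fintype.card_fin, nsmul_eq_mul, mul_one]
  have hl2 : ∀ j, 1 ≤ ∑ i, c j i ^ 2 := fun j => by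
    obtain ⟨i, hi⟩ := hc2 j
    refine le_trans ?_ (Finset.single_le_sum (f := fun i => c j i ^ 2) (fun i _ => sq_nonneg _)
      (Finset.mem_univ i))
    show 1 ≤ c j i ^ 2
    rw [← sq_abs]
    nlinarith
  -- the variance
  have hVlb : ∀ᶠ j in atTop, Real.log (D j) / 20 ≤ V j := by
    have e1 : ∀ᶠ j in atTop, C * k ^ 2 / 2 * q j ≤ 1 / 100 := by
      have h1 := hq0.const_mul (C * k ^ 2 / 2)
      rw [mul_zero] at h1
      exact h1.eventually_le_const (by norm_num)
    filter_upwards [e1, hDl.eventually_ge_atTop 10] with j h1 h2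
    have hDj : 0 < D j := by linarith [f1 j]
    have hC' : 0 ≤ C * (1 + Real.log (8 + 2 * Real.log (D j) ^ 2)) := by
      have : 0 ≤ Real.log (8 + 2 * Real.log (D j) ^ 2) := Real.log_nonneg (by nlinarith)
      positivity
    have h3 := var_lb' (Real.log (T j) / lam) (T j) (f11 j) (x j) (c j) (hc0 j) (X j) hDj (hsep j) hC'
      (fun i i' hii hci hci' => (hcb j _ ((f1 j).trans (hsep j i i' hii hci hci')) (by
        have g1 := f1x j i
        have g2 := f1x j i'
        have g3 := hxA j i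
        have g4 := hxA j i'
        rw [abs_le]
        constructor <;> linarith)).2.2)
    have h4 : 1 / Real.pi ^ 2 * ((Real.log (D j) - 1) * 1) ≤
        1 / Real.pi ^ 2 * ((Real.log (D j) - 1) * ∑ i, c j i ^ 2) := by
      apply mul_le_mul_of_nonneg_left _ (by positivity)
      exact mul_le_mul_of_nonneg_left (hl2 j) (by linarith)
    have h5 : C * (1 + Real.log (8 + 2 * Real.log (D j) ^ 2)) / 2 * (∑ i, |c j i|) ^ 2 ≤
        Real.log (D j) * (1 / 100) := by
      have g1 : (∑ i, |c j i|) ^ 2 ≤ (k : ℝ) ^ 2 :=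
        pow_le_pow_left₀ (Finset.sum_nonneg fun _ _ => abs_nonneg _) (hl1 j) 2
      calc C * (1 + Real.log (8 + 2 * Real.log (D j) ^ 2)) / 2 * (∑ i, |c j i|) ^ 2
          ≤ C * (1 + Real.log (8 + 2 * Real.log (D j) ^ 2)) / 2 * (k : ℝ) ^ 2 :=
            mul_le_mul_of_nonneg_left g1 (by linarith)
        _ = Real.log (D j) * (C * k ^ 2 / 2 * q j) := by
            simp only [hq]
            have : Real.log (D j) ≠ 0 := by linarith
            field_simp
        _ ≤ _ := mul_le_mul_of_nonneg_left h1 (by linarith)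
    have h6 : 1 / 10 ≤ 1 / Real.pi ^ 2 := by
      apply one_div_le_one_div_of_le (by positivity)
      nlinarith [Real.pi_lt_d2]
    have h7 : 1 / 10 * (Real.log (D j) - 1) ≤ 1 / Real.pi ^ 2 * (Real.log (D j) - 1) :=
      mul_le_mul_of_nonneg_right h6 (by linarith)
    have h8 : V j = VS (rr (zc (Real.log (T j) / lam) (fun i => 2 * Real.pi * x j i / Real.log (T j))
      (c j))) (X j) := rfl
    rw [← h8] at h3
    linarith
  have hVt : Tendsto V atTop atTop :=
    tendsto_atTop_mono' _ hVlb (hDl.atTop_div_const (by norm_num))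
  -- the central limit theorem
  have hlen : Tendsto (fun j => ((2 * T j - Real.log (T j) - 7) - (T j + Real.log (T j))) / T j)
      atTop (𝓝 1) := by
    have h1 : Tendsto (fun j => 1 - (2 * (Real.log (T j) / T j ^ (1:ℝ)) + 7 / T j)) atTop
        (𝓝 (1 - (2 * 0 + 0))) := by
      refine tendsto_const_nhds.sub ?_
      refine Tendsto.add ?_ (tendsto_const_nhds.div_atTop hTt)
      exact ((isLittleO_log_rpow_atTop (by norm_num : (0:ℝ) < 1)).tendsto_div_nhds_zero.comp hTt).const_mul 2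
    rw [mul_zero, add_zero, sub_zero] at h1
    refine h1.congr fun j => ?_
    have := (f10 j).ne'
    rw [Real.rpow_one]
    field_simp
    ring
  have hABj : ∀ j, T j + Real.log (T j) ≤ 2 * T j - Real.log (T j) - 7 := fun j => by
    have := f9 j
    linarith [f10 j]
  have hclt := clt_polyz T (fun j => T j + Real.log (T j)) (fun j => 2 * T j - Real.log (T j) - 7) X z
    (M := (k : ℝ) ^ 2) (fun j p => by
      have h1 := zc_le (div_pos (f11 j) (by linarith : 0 < lam))
        (fun i => 2 * Real.pi * x j i / Real.log (T j)) (c j) p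
      exact pow_le_pow_left₀ (norm_nonneg _) (h1.trans (hl1 j)) 2) hTt f10 hABj hlen
    (fun j => by
      simp only [hX]
      unfold XK
      apply Nat.le_floor
      push_cast
      exact Real.one_le_rpow (hT1 j) (k1 j).le)
    (fun m => by
      filter_upwards [hDl.eventually_ge_atTop (2 * (m : ℝ))] with j hj
      have h1 : ((X j ^ m : ℕ) : ℝ) ≤ (T j ^ κ j) ^ m := by
        push_cast
        exact pow_le_pow_left₀ (Nat.cast_nonneg _) (Nat.floor_le (by have := f10 j; positivity)) m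
      refine h1.trans ?_
      rw [← Real.rpow_natCast, ← Real.rpow_mul (f10 j).le, Real.sqrt_eq_rpow]
      apply Real.rpow_le_rpow_of_exponent_le (hT1 j)
      simp only [hκ]
      rw [div_mul_eq_mul_div, one_mul, div_le_iff₀ (by linarith [f5D j])]
      linarith)
    hVt
  have hY := hanti T (fun j => T j + Real.log (T j)) (fun j => 2 * T j - Real.log (T j) - 7)
    (fun j t => Real.sqrt 2 * ((Gz (z j) (X j) t).re / Real.sqrt (V j)))
    (fun j => (continuous_const.mul ((Complex.continuous_re.comp (Gz_cont _ _)).div_const _)).measurable)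
    f10 hABj hlen hclt
  -- the eventual inequalities
  have e4 : ∀ᶠ j in atTop, k ^ 3 * C * q j / (ε₀ / 13) ^ 2 ≤ η / 4 := by
    have h1 := (hq0.const_mul (k ^ 3 * C)).div_const ((ε₀ / 13) ^ 2)
    rw [mul_zero, zero_div] at h1
    exact h1.eventually_le_const (by positivity)
  have e5 : ∀ᶠ j in atTop, (2 * Real.log (T j) + 7) / T j ≤ η / 4 := by
    have h1 : Tendsto (fun j => 2 * (Real.log (T j) / T j ^ (1:ℝ)) + 7 / T j) atTop
        (𝓝 (2 * 0 + 0)) := by
      refine Tendsto.add ?_ (tendsto_const_nhds.div_atTop hTt)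
      exact ((isLittleO_log_rpow_atTop (by norm_num : (0:ℝ) < 1)).tendsto_div_nhds_zero.comp hTt).const_mul 2
    rw [mul_zero, add_zero] at h1
    filter_upwards [h1.eventually_le_const (show (0 : ℝ) < η / 4 by positivity)] with j hj
    refine le_trans (le_of_eq ?_) hj
    have := (f10 j).ne'
    rw [Real.rpow_one]
    field_simp
  filter_upwards [hY, e4, e5, hVlb] with j g1 g4 g5 g6
  have hTj := f10 j
  have hlD : 0 < Real.log (D j) := by linarith [f5D j]
  have hsD : 0 < Real.sqrt (Real.log (D j)) := Real.sqrt_pos.2 hlD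
  have hVj : 0 < V j := by linarith
  have hsV : 0 < Real.sqrt (V j) := Real.sqrt_pos.2 hVj
  have hk0 : 0 < k := by
    obtain ⟨i, _⟩ := hc2 j
    exact i.pos
  have hkr : (0 : ℝ) < k := by exact_mod_cast hk0
  set I0 : Set ℝ := Ioc (T j + Real.log (T j)) (2 * T j - Real.log (T j) - 7) with hI0
  have hI0v : volume I0 ≠ ⊤ := by rw [hI0, Real.volume_Ioc]; exact ENNReal.ofReal_ne_top
  set δ : ℝ := (ε₀ / 13) ^ 2 * Real.log (D j) / k ^ 2 with hδ
  have hδ0 : 0 < δ := by positivity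
  set E : Fin k → Set ℝ := fun i => {t | δ ≤ er lam (κ j) (T j) (x j i) t ^ 2} with hE
  have hEm : ∀ i, MeasurableSet (E i) := fun i =>
    measurableSet_le measurable_const ((er_meas _ _ _ _).pow_const 2)
  have hcheb : ∀ i, volume.real (E i ∩ I0) ≤ η / 4 * T j / k := by
    intro i
    obtain ⟨ci, cb, -⟩ := hcb j (x j i) (f1x j i) (hxA j i)
    have h1 := mul_meas_ge_le_integral_of_nonneg (μ := volume.restrict I0)
      (f := fun t => er lam (κ j) (T j) (x j i) t ^ 2) (Eventually.of_forall fun _ => sq_nonneg _)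
      (by
        have := ci
        rw [intervalIntegrable_iff_integrableOn_Ioc_of_le (hABj j)] at this
        exact this) δ
    rw [measureReal_restrict_apply (hEm i)] at h1
    have h2 : ∫ t in I0, er lam (κ j) (T j) (x j i) t ^ 2 ≤
        C * (1 + Real.log (8 + 2 * Real.log (D j) ^ 2)) * T j := by
      rw [hI0, ← intervalIntegral.integral_of_le (hABj j)]
      exact cb
    have h3 : volume.real (E i ∩ I0) ≤ (C * (1 + Real.log (8 + 2 * Real.log (D j) ^ 2)) * T j) / δ := by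
      rw [le_div_iff₀ hδ0, mul_comm]
      exact h1.trans h2
    refine h3.trans ?_
    have h4 : (C * (1 + Real.log (8 + 2 * Real.log (D j) ^ 2)) * T j) / δ =
        (k ^ 3 * C * q j / (ε₀ / 13) ^ 2) * T j / k := by
      simp only [hq, hδ]
      field_simp
    rw [h4]
    apply div_le_div_of_nonneg_right _ hkr.le
    exact mul_le_mul_of_nonneg_right g4 hTj.le
  -- the inclusion
  set b' : ℝ := -(Real.sqrt 2 * (b j / Real.sqrt (V j))) with hb'
  have hsub : {t | t ∈ Icc (T j) (2 * T j) ∧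
      |∑ i, c j i * Dd (T j) t (x j i) - b j| ≤ ε₀ / 13 * Real.sqrt (Real.log (D j))} ⊆
      (Icc (T j) (T j + Real.log (T j)) ∪ Icc (2 * T j - Real.log (T j) - 7) (2 * T j)) ∪
      ((⋃ i ∈ (Finset.univ : Finset (Fin k)), E i ∩ I0) ∪
      {t ∈ I0 | |Real.sqrt 2 * ((Gz (z j) (X j) t).re / Real.sqrt (V j)) - b'| ≤ ε₀}) := by
    intro t ht
    obtain ⟨ht1, ht2⟩ := ht
    rcases le_or_gt t (T j + Real.log (T j)) with h1 | h1
    · left; left; exact ⟨ht1.1, h1⟩
    rcases lt_or_ge (2 * T j - Real.log (T j) - 7) t with h2 | h2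
    · left; right; exact ⟨h2.le, ht1.2⟩
    right
    by_cases h3 : ∃ i, t ∈ E i
    · left
      obtain ⟨i, hi⟩ := h3
      exact mem_biUnion (Finset.mem_univ i) ⟨hi, h1, h2⟩
    right
    refine ⟨⟨h1, h2⟩, ?_⟩
    push Not at h3
    have h4 : ∀ i, |er lam (κ j) (T j) (x j i) t| ≤ ε₀ / 13 * Real.sqrt (Real.log (D j)) / k := by
      intro i
      have h5 := h3 i
      simp only [hE, mem_ofPred_eq, not_le] at h5
      rw [← abs_of_nonneg (show 0 ≤ ε₀ / 13 * Real.sqrt (Real.log (D j)) / k by positivity), ← sq_le_sq,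
        div_pow, mul_pow, Real.sq_sqrt hlD.le]
      exact h5.le
    have h5 : |∑ i, c j i * er lam (κ j) (T j) (x j i) t| ≤ ε₀ / 13 * Real.sqrt (Real.log (D j)) := by
      refine (Finset.abs_sum_le_sum_abs _ _).trans ?_
      calc ∑ i, |c j i * er lam (κ j) (T j) (x j i) t|
          ≤ ∑ i : Fin k, ε₀ / 13 * Real.sqrt (Real.log (D j)) / k := by
            refine Finset.sum_le_sum fun i _ => ?_
            rw [abs_mul]
            calc |c j i| * |er lam (κ j) (T j) (x j i) t| ≤ 1 * |er lam (κ j) (T j) (x j i) t| :=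
                  mul_le_mul_of_nonneg_right (hc1 j i) (abs_nonneg _)
              _ ≤ _ := by rw [one_mul]; exact h4 i
        _ = _ := by
            rw [Finset.sum_const, Finset.card_univ, Fintype.card_fin, nsmul_eq_mul]
            field_simp
    rw [comb_er lam (κ j)] at ht2
    have h6 : |(Gz (z j) (X j) t).re + b j| ≤ 2 * (ε₀ / 13) * Real.sqrt (Real.log (D j)) := by
      have a1 := abs_le.1 h5
      have a2 := abs_le.1 ht2
      rw [abs_le]
      simp only [hz, hX]
      constructor <;> linarith [a1.1, a1.2, a2.1, a2.2]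
    have h7 : Real.sqrt 2 * ((Gz (z j) (X j) t).re / Real.sqrt (V j)) - b' =
        Real.sqrt 2 * ((Gz (z j) (X j) t).re + b j) / Real.sqrt (V j) := by
      rw [hb']; ring
    rw [h7, abs_div, abs_mul, abs_of_pos hsV, abs_of_pos (Real.sqrt_pos.2 (by norm_num : (0 : ℝ) < 2)),
      div_le_iff₀ hsV]
    have h8 : Real.sqrt 2 * |(Gz (z j) (X j) t).re + b j| ≤
        Real.sqrt 2 * (2 * (ε₀ / 13) * Real.sqrt (Real.log (D j))) :=
      mul_le_mul_of_nonneg_left h6 (Real.sqrt_nonneg _)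
    refine h8.trans ?_
    rw [← sq_le_sq₀ (by positivity) (by positivity), mul_pow, mul_pow, mul_pow, mul_pow,
      Real.sq_sqrt (by norm_num), Real.sq_sqrt hlD.le, Real.sq_sqrt hVj.le]
    have h9 : 20 * V j ≥ Real.log (D j) := by linarith
    have h10 : 0 < ε₀ ^ 2 := by positivity
    have h11 : 2 * (2 * (ε₀ / 13)) ^ 2 * Real.log (D j) = ε₀ ^ 2 * (8 / 169 * Real.log (D j)) := by ring
    have h12 : 2 * (2 ^ 2 * (ε₀ / 13) ^ 2 * Real.log (D j)) = ε₀ ^ 2 * (8 / 169 * Real.log (D j)) := by ring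
    rw [h12]
    apply mul_le_mul_of_nonneg_left _ h10.le
    linarith
  have hfin1 : volume (Icc (T j) (T j + Real.log (T j)) ∪ Icc (2 * T j - Real.log (T j) - 7) (2 * T j)) ≠ ⊤ :=
    measure_union_ne_top (by rw [Real.volume_Icc]; exact ENNReal.ofReal_ne_top)
      (by rw [Real.volume_Icc]; exact ENNReal.ofReal_ne_top)
  have hsubI : (⋃ i ∈ (Finset.univ : Finset (Fin k)), E i ∩ I0) ⊆ I0 := by
    intro t ht
    obtain ⟨i, _, hi⟩ := mem_iUnion₂.1 ht
    exact hi.2
  have hfin2 : volume (⋃ i ∈ (Finset.univ : Finset (Fin k)), E i ∩ I0) ≠ ⊤ :=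
    ne_top_of_le_ne_top hI0v (measure_mono hsubI)
  have hfin3 : volume {t ∈ I0 | |Real.sqrt 2 * ((Gz (z j) (X j) t).re / Real.sqrt (V j)) - b'| ≤ ε₀} ≠ ⊤ :=
    ne_top_of_le_ne_top hI0v (measure_mono fun t ht => ht.1)
  have h1 := measureReal_mono hsub (measure_union_ne_top hfin1 (measure_union_ne_top hfin2 hfin3))
  have h2 := measureReal_union_le (μ := volume)
    (Icc (T j) (T j + Real.log (T j)) ∪ Icc (2 * T j - Real.log (T j) - 7) (2 * T j))
    ((⋃ i ∈ (Finset.univ : Finset (Fin k)), E i ∩ I0) ∪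
      {t ∈ I0 | |Real.sqrt 2 * ((Gz (z j) (X j) t).re / Real.sqrt (V j)) - b'| ≤ ε₀})
  have h3 := measureReal_union_le (μ := volume) (Icc (T j) (T j + Real.log (T j)))
    (Icc (2 * T j - Real.log (T j) - 7) (2 * T j))
  have h4 := measureReal_union_le (μ := volume) (⋃ i ∈ (Finset.univ : Finset (Fin k)), E i ∩ I0)
    {t ∈ I0 | |Real.sqrt 2 * ((Gz (z j) (X j) t).re / Real.sqrt (V j)) - b'| ≤ ε₀}
  rw [Real.volume_real_Icc_of_le (by linarith [f11 j]), Real.volume_real_Icc_of_le (by linarith [f11 j])] at h3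
  have h5 : 2 * Real.log (T j) + 7 ≤ η / 4 * T j := by rwa [div_le_iff₀ hTj] at g5
  have h6 : volume.real (⋃ i ∈ (Finset.univ : Finset (Fin k)), E i ∩ I0) ≤ η / 4 * T j := by
    refine (measureReal_biUnion_finset_le _ _).trans ?_
    calc ∑ i, volume.real (E i ∩ I0) ≤ ∑ i : Fin k, η / 4 * T j / k := Finset.sum_le_sum fun i _ => hcheb i
      _ = η / 4 * T j := by
          rw [Finset.sum_const, Finset.card_univ, Fintype.card_fin, nsmul_eq_mul]
          field_simp
  have h7 := g1 b'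
  linarith [mul_pos hη hTj]

/-- **anticoncentration for combinations of windows, uniform version** -/
theorem hx (k : ℕ) (B : ℝ) (hB : 1 ≤ B) {η : ℝ} (hη : 0 < η) : ∃ ε R : ℝ, 0 < ε ∧ 3 ≤ R ∧
    ∀ (D A T : ℝ) (x c : Fin k → ℝ) (b : ℝ), R ≤ D → D ≤ A → 1 ≤ T →
    A * Real.log A ≤ B * Real.log T →
    (∀ i, R ≤ x i) → (∀ i, x i ≤ A) → (∀ i i', i ≠ i' → c i ≠ 0 → c i' ≠ 0 → D ≤ |x i - x i'|) →
    ∑ i, c i = 0 → (∀ i, |c i| ≤ 1) → (∃ i, 1 ≤ |c i|) →
    volume.real {t | t ∈ Icc T (2 * T) ∧ |∑ i, c i * Dd T t (x i) - b| ≤ ε * Real.sqrt (Real.log D)} ≤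
      η * T := by
  obtain ⟨ε, A0, hε, hA0, hseq⟩ := hx_seq k B hB hη
  by_contra hcon
  push Not at hcon
  have hch : ∀ j : ℕ, ∃ y : ℝ × ℝ × ℝ × (Fin k → ℝ) × (Fin k → ℝ) × ℝ, A0 + j ≤ y.1 ∧ y.1 ≤ y.2.1 ∧
      1 ≤ y.2.2.1 ∧ y.2.1 * Real.log y.2.1 ≤ B * Real.log y.2.2.1 ∧
      (∀ i, A0 + j ≤ y.2.2.2.1 i) ∧ (∀ i, y.2.2.2.1 i ≤ y.2.1) ∧
      (∀ i i', i ≠ i' → y.2.2.2.2.1 i ≠ 0 → y.2.2.2.2.1 i' ≠ 0 → y.1 ≤ |y.2.2.2.1 i - y.2.2.2.1 i'|) ∧ ∑ i, y.2.2.2.2.1 i = 0 ∧
      (∀ i, |y.2.2.2.2.1 i| ≤ 1) ∧ (∃ i, 1 ≤ |y.2.2.2.2.1 i|) ∧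
      η * y.2.2.1 < volume.real {t | t ∈ Icc y.2.2.1 (2 * y.2.2.1) ∧
        |∑ i, y.2.2.2.2.1 i * Dd y.2.2.1 t (y.2.2.2.1 i) - y.2.2.2.2.2| ≤ ε * Real.sqrt (Real.log y.1)} := by
    intro j
    obtain ⟨D, A, T, x, c, b, h⟩ := hcon ε (A0 + j) hε
      (by have : (0 : ℝ) ≤ j := Nat.cast_nonneg j; linarith)
    exact ⟨(D, A, T, x, c, b), h⟩
  choose y hy using hch
  have hj0 : ∀ j : ℕ, A0 ≤ A0 + (j : ℝ) := fun j => by
    have : (0 : ℝ) ≤ j := Nat.cast_nonneg j
    linarith
  choose g1 g2 g3 g4 g5 g6 g7 g8 g9 g10 g11 using hy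
  have h := hseq (fun j => (y j).1) (fun j => (y j).2.1) (fun j => (y j).2.2.1)
    (fun j => (y j).2.2.2.1) (fun j => (y j).2.2.2.2.1) (fun j => (y j).2.2.2.2.2)
    (fun j => (hj0 j).trans (g1 j))
    (tendsto_atTop_mono (fun j => by have := g1 j; linarith) tendsto_natCast_atTop_atTop)
    g2 g3 g4 (fun j i => (hj0 j).trans (g5 j i)) g6 g7 g8 g9 g10
  obtain ⟨j, hj⟩ := h.exists
  exact absurd (g11 j) (not_lt.2 hj)

end Pool.Agent.K7.H75.LC
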