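import Pool.Agent.K7.H75.LC.Dom

/-! The central index, Hutchinson's condition, gaps. -/

set_option autoImplicit false
set_option linter.unusedSectionVars false

namespace Pool.Agent.K7.H75.LC

open Filter Topology Metric Set MvPolynomial

variable {N : ℕ} {ι : Type} {F : ι → MvPolynomial (Fin N) ℂ}

/-- geometric bound for the terms outside of an interval -/
theorem geom_out {K A : ℝ} (hK : 2 ≤ K) (hA : 0 ≤ A) {n d : ℕ} {x : ℕ → ℝ}
    (hlo : ∀ k < n, x k ≤ A * (K⁻¹) ^ (n - k)) (hhi : ∀ k, n + d < k → x k ≤ A * (K⁻¹) ^ (k - (n + d)))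
    (s : Finset ℕ) (hs : ∀ k ∈ s, k < n ∨ n + d < k) : ∑ k ∈ s, x k ≤ 4 * A / K := by
  have hK0 : 0 < K := by linarith
  have hK1 : K⁻¹ < 1 := by
    rw [inv_lt_one₀ hK0]; linarith
  have hKi : 0 ≤ K⁻¹ := by positivity
  have hS : Summable fun l : ℕ => K⁻¹ * (K⁻¹) ^ l := (summable_geometric_of_lt_one hKi hK1).mul_left _
  have hT : ∑' l : ℕ, K⁻¹ * (K⁻¹) ^ l ≤ 2 / K := by
    rw [tsum_mul_left, tsum_geometric_of_lt_one hKi hK1]
    have h1 : (1 - K⁻¹)⁻¹ ≤ 2 := by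
      rw [inv_le_comm₀ (by linarith) two_pos]
      have : K⁻¹ ≤ 2⁻¹ := inv_anti₀ two_pos hK
      linarith
    calc K⁻¹ * (1 - K⁻¹)⁻¹ ≤ K⁻¹ * 2 := by gcongr
      _ = 2 / K := by field_simp
  rw [← Finset.sum_filter_add_sum_filter_not s (fun k => k < n)]
  have e1 : ∑ k ∈ s with k < n, x k ≤ A * (2 / K) := by
    calc ∑ k ∈ s with k < n, x k ≤ ∑ k ∈ s with k < n, A * (K⁻¹ * (K⁻¹) ^ (n - k - 1)) := by
          refine Finset.sum_le_sum fun k hk => ?_
          have h2 := (Finset.mem_filter.1 hk).2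
          refine (hlo k h2).trans (le_of_eq ?_)
          rw [← pow_succ', show n - k - 1 + 1 = n - k by omega]
      _ = A * ∑ l ∈ (s.filter fun k => k < n).image (fun k => n - k - 1), K⁻¹ * (K⁻¹) ^ l := by
          rw [← Finset.mul_sum, Finset.sum_image]
          intro a ha b hb hab
          have h2 := (Finset.mem_filter.1 ha).2
          have h3 := (Finset.mem_filter.1 hb).2
          have h4 : n - a - 1 = n - b - 1 := hab
          omega
      _ ≤ A * ∑' l : ℕ, K⁻¹ * (K⁻¹) ^ l := by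
          gcongr
          exact hS.sum_le_tsum _ fun i _ => by positivity
      _ ≤ A * (2 / K) := by gcongr
  have e2 : ∑ k ∈ s with ¬ k < n, x k ≤ A * (2 / K) := by
    have h5 : ∀ k ∈ s.filter (fun k => ¬ k < n), n + d < k := fun k hk => by
      have h2 := Finset.mem_filter.1 hk
      exact (hs k h2.1).resolve_left h2.2
    calc ∑ k ∈ s with ¬ k < n, x k
        ≤ ∑ k ∈ s with ¬ k < n, A * (K⁻¹ * (K⁻¹) ^ (k - (n + d) - 1)) := by
          refine Finset.sum_le_sum fun k hk => ?_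
          have h2 := h5 k hk
          refine (hhi k h2).trans (le_of_eq ?_)
          rw [← pow_succ', show k - (n + d) - 1 + 1 = k - (n + d) by omega]
      _ = A * ∑ l ∈ (s.filter fun k => ¬ k < n).image (fun k => k - (n + d) - 1),
            K⁻¹ * (K⁻¹) ^ l := by
          rw [← Finset.mul_sum, Finset.sum_image]
          intro a ha b hb hab
          have h2 := h5 a ha
          have h3 := h5 b hb
          have h4 : a - (n + d) - 1 = b - (n + d) - 1 := hab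
          omega
      _ ≤ A * ∑' l : ℕ, K⁻¹ * (K⁻¹) ^ l := by
          gcongr
          exact hS.sum_le_tsum _ fun i _ => by positivity
      _ ≤ A * (2 / K) := by gcongr
  calc _ ≤ A * (2 / K) + A * (2 / K) := add_le_add e1 e2
    _ = 4 * A / K := by ring

/-- domination from geometric bounds outside of an interval of indices -/
theorem dominated_of_geom {f : ℂ → Fin N → ℂ} {d : ℕ} {R ε r μ K : ℝ} {n : ℕ} (hR : 1 < R)
    (hK : 2 ≤ K) (hKe : 4 * R ^ d / K ≤ ε) (hr : 0 < r) (hμ : 0 < μ)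
    (hle : ∀ i ≤ d, ‖coef f (n + i)‖ * r ^ (n + i) ≤ μ)
    (htwo : ∃ i j, i < j ∧ j ≤ d ∧ ‖coef f (n + i)‖ * r ^ (n + i) = μ ∧
      ‖coef f (n + j)‖ * r ^ (n + j) = μ)
    (hlo : ∀ k < n, ‖coef f k‖ * r ^ k ≤ μ * ((R * K)⁻¹) ^ (n - k))
    (hhi : ∀ k, n + d < k → ‖coef f k‖ * r ^ k ≤ μ * ((R * K)⁻¹) ^ (k - (n + d))) :
    Dominated f d R ε r μ n 1 where
  r_pos := hr
  μ_pos := hμ
  w_pos := one_pos
  le i hi := by rw [mul_one]; exact hle i hi
  two := by
    obtain ⟨i, j, h1, h2, h3, h4⟩ := htwo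
    exact ⟨i, j, h1, h2, by rw [mul_one]; exact h3, by rw [mul_one]; exact h4⟩
  rest s hs := by
    have hR0 : 0 < R := by linarith
    have hK0 : 0 < K := by linarith
    have hR1 : (1 : ℝ) ≤ R ^ d := one_le_pow₀ hR.le
    have h1 := geom_out (K := K) (A := μ * R ^ d) (n := n) (d := d)
      (x := fun k => ‖coef f k‖ * r ^ k * R ^ (|(k : ℝ) - n| / (1 : ℕ))) hK (by positivity)
      (fun k hk => by
        have h2 : |(k : ℝ) - n| / ((1 : ℕ) : ℝ) = ((n - k : ℕ) : ℝ) := by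
          rw [Nat.cast_one, div_one, abs_sub_comm, Nat.cast_sub hk.le, abs_of_nonneg]
          rw [sub_nonneg]
          exact_mod_cast hk.le
        simp only [h2, Real.rpow_natCast]
        calc ‖coef f k‖ * r ^ k * R ^ (n - k) ≤ (μ * ((R * K)⁻¹) ^ (n - k)) * R ^ (n - k) := by
              exact mul_le_mul_of_nonneg_right (hlo k hk) (by positivity)
          _ = μ * (((R * K)⁻¹) * R) ^ (n - k) := by rw [mul_pow]; ring
          _ = μ * (K⁻¹) ^ (n - k) := by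
              congr 2
              field_simp
          _ ≤ μ * R ^ d * (K⁻¹) ^ (n - k) := by
              have h3 : 0 ≤ (K⁻¹) ^ (n - k) := by positivity
              have h4 : μ ≤ μ * R ^ d := le_mul_of_one_le_right hμ.le hR1
              exact mul_le_mul_of_nonneg_right h4 h3)
      (fun k hk => by
        have h2 : |(k : ℝ) - n| / ((1 : ℕ) : ℝ) = ((k - (n + d) + d : ℕ) : ℝ) := by
          rw [show k - (n + d) + d = k - n by omega]
          rw [Nat.cast_one, div_one, Nat.cast_sub (by omega), abs_of_nonneg]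
          rw [sub_nonneg]
          exact_mod_cast (by omega : n ≤ k)
        simp only [h2, Real.rpow_natCast]
        calc ‖coef f k‖ * r ^ k * R ^ (k - (n + d) + d)
            ≤ (μ * ((R * K)⁻¹) ^ (k - (n + d))) * R ^ (k - (n + d) + d) := by
              exact mul_le_mul_of_nonneg_right (hhi k hk) (by positivity)
          _ = μ * R ^ d * (((R * K)⁻¹) * R) ^ (k - (n + d)) := by rw [mul_pow, pow_add]; ring
          _ = μ * R ^ d * (K⁻¹) ^ (k - (n + d)) := by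
              congr 2
              field_simp) s (fun k hk => by
        by_contra hcon
        push Not at hcon
        exact hs k hk (k - n) (by omega) (by omega))
    refine h1.trans ?_
    calc 4 * (μ * R ^ d) / K = (4 * R ^ d / K) * μ := by ring
      _ ≤ ε * μ := by gcongr

/-- `k` is the index of a maximal term of the Taylor series of `f` on the circle `|z| = ρ` -/
def MaxIndex (f : ℂ → Fin N → ℂ) (ρ : ℝ) (k : ℕ) : Prop :=
  ∀ l, ‖coef f l‖ * ρ ^ l ≤ ‖coef f k‖ * ρ ^ k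

theorem coef_tendsto {f : ℂ → Fin N → ℂ} (hf : Differentiable ℂ f) {ρ : ℝ} (hρ : 0 ≤ ρ) :
    Tendsto (fun k => ‖coef f k‖ * ρ ^ k) atTop (𝓝 0) := by
  have h1 := (hasSum_coef hf (ρ : ℂ)).summable.tendsto_atTop_zero.norm
  rw [norm_zero] at h1
  refine h1.congr fun k => ?_
  rw [norm_smul, norm_pow, Complex.norm_real, Real.norm_eq_abs, abs_of_nonneg hρ, mul_comm]

theorem exists_maxIndex {f : ℂ → Fin N → ℂ} (hf : Differentiable ℂ f) (h0 : f 0 ≠ 0) {ρ : ℝ}
    (hρ : 0 < ρ) : ∃ k, MaxIndex f ρ k := by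
  have h1 : 0 < ‖coef f 0‖ := by rw [coef_zero]; exact norm_pos_iff.2 h0
  have h2 := (coef_tendsto hf hρ.le).eventually (gt_mem_nhds h1)
  obtain ⟨K, hK⟩ := eventually_atTop.1 h2
  obtain ⟨k, -, hk⟩ := Finset.exists_max_image (Finset.range (K + 1))
    (fun k => ‖coef f k‖ * ρ ^ k) ⟨0, Finset.mem_range.2 (by omega)⟩
  refine ⟨k, fun l => ?_⟩
  by_cases hl : l < K + 1
  · exact hk l (Finset.mem_range.2 hl)
  · have h3 := hk 0 (Finset.mem_range.2 (by omega))
    rw [pow_zero, mul_one] at h3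
    exact (hK l (by omega)).le.trans h3

/-- **Growth of the central index.** -/
theorem index_growth (hF : ∀ i, ∃ e, (F i).IsHomogeneous e) {d : ℕ} (hno : ¬ RatCurve F d) :
    ∃ L : ℝ, 1 < L ∧ ∀ f : ℂ → Fin N → ℂ, Cur F f → ∀ r : ℝ, 0 < r → ∀ i j : ℕ, i ≠ j →
      MaxIndex f r i → MaxIndex f r j → ∃ (ρ₁ ρ₂ : ℝ) (k₁ k₂ : ℕ), ρ₁ ∈ Icc (r / L) (r * L) ∧
        ρ₂ ∈ Icc (r / L) (r * L) ∧ MaxIndex f ρ₁ k₁ ∧ MaxIndex f ρ₂ k₂ ∧ k₁ + d < k₂ := by
  classical
  obtain ⟨R, ε, hR, hε, hD⟩ := not_dominated hF hno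
  set K : ℝ := max 2 (4 * R ^ d / ε) with hKdef
  have hK : 2 ≤ K := le_max_left _ _
  have hK0 : 0 < K := by linarith
  have hR0 : 0 < R := by linarith
  have hKe : 4 * R ^ d / K ≤ ε := by
    rw [div_le_iff₀ hK0]
    have h1 : 4 * R ^ d / ε ≤ K := le_max_right _ _
    rw [div_le_iff₀ hε] at h1
    linarith
  have hL : 1 < R * K := by nlinarith
  have hL0 : 0 < R * K := by linarith
  refine ⟨R * K, hL, fun f hf r hr i j hij hi hj => ?_⟩
  by_contra hcon
  push Not at hcon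
  have hrL : r / (R * K) ≤ r := div_le_self hr.le hL.le
  have hrL' : r ≤ r * (R * K) := le_mul_of_one_le_right hr.le hL.le
  -- the smallest index in the window
  have hex : ∃ k, ∃ ρ ∈ Icc (r / (R * K)) (r * (R * K)), MaxIndex f ρ k := ⟨i, r, ⟨hrL, hrL'⟩, hi⟩
  set n := Nat.find hex with hn
  obtain ⟨ρ₁, hρ₁, hmin⟩ := Nat.find_spec hex
  have hin : ∀ ρ ∈ Icc (r / (R * K)) (r * (R * K)), ∀ k, MaxIndex f ρ k → n ≤ k ∧ k ≤ n + d :=
    fun ρ hρ k hk => ⟨Nat.find_min' hex ⟨ρ, hρ, hk⟩, hcon ρ₁ ρ n k hρ₁ hρ hmin hk⟩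
  have hi' := hin r ⟨hrL, hrL'⟩ i hi
  have hj' := hin r ⟨hrL, hrL'⟩ j hj
  set μ := ‖coef f i‖ * r ^ i with hμ
  have hμj : ‖coef f j‖ * r ^ j = μ := le_antisymm (hi j) (hj i)
  have hμ0 : 0 < μ := by
    have h1 := hi 0
    rw [pow_zero, mul_one] at h1
    refine lt_of_lt_of_le ?_ h1
    rw [coef_zero]
    exact norm_pos_iff.2 (hf.ne 0)
  -- the two ends of the window
  obtain ⟨k1, hk1⟩ := exists_maxIndex hf.diff (hf.ne 0) (ρ := r / (R * K)) (by positivity)
  obtain ⟨k2, hk2⟩ := exists_maxIndex hf.diff (hf.ne 0) (ρ := r * (R * K)) (by positivity)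
  have hk1' := hin _ ⟨le_rfl, hrL.trans hrL'⟩ k1 hk1
  have hk2' := hin _ ⟨hrL.trans hrL', le_rfl⟩ k2 hk2
  apply hD f hf r μ n 1
  refine dominated_of_geom hR hK hKe hr hμ0 (fun i _ => hi _) ?_ (fun k hk => ?_) (fun k hk => ?_)
  · rcases lt_or_gt_of_ne hij with h | h
    · exact ⟨i - n, j - n, by omega, by omega, by rw [Nat.add_sub_cancel' hi'.1],
        by rw [Nat.add_sub_cancel' hj'.1]; exact hμj⟩
    · exact ⟨j - n, i - n, by omega, by omega, by rw [Nat.add_sub_cancel' hj'.1]; exact hμj,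
        by rw [Nat.add_sub_cancel' hi'.1]⟩
  · -- small indices
    have h1 := hk1 k
    have h2 : ‖coef f k1‖ * r ^ k1 ≤ μ := hi k1
    have h3 : ‖coef f k‖ * r ^ k * ((R * K)⁻¹) ^ k ≤ μ * ((R * K)⁻¹) ^ k1 := by
      calc ‖coef f k‖ * r ^ k * ((R * K)⁻¹) ^ k = ‖coef f k‖ * (r / (R * K)) ^ k := by
            rw [div_eq_mul_inv, mul_pow]; ring
        _ ≤ ‖coef f k1‖ * (r / (R * K)) ^ k1 := h1
        _ = ‖coef f k1‖ * r ^ k1 * ((R * K)⁻¹) ^ k1 := by
            rw [div_eq_mul_inv, mul_pow]; ring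
        _ ≤ μ * ((R * K)⁻¹) ^ k1 := by gcongr
    have h4 : ((R * K)⁻¹) ^ k1 ≤ ((R * K)⁻¹) ^ n :=
      pow_le_pow_of_le_one (by positivity) (inv_le_one_of_one_le₀ hL.le) hk1'.1
    have h5 : ((R * K)⁻¹) ^ n = ((R * K)⁻¹) ^ (n - k) * ((R * K)⁻¹) ^ k := by
      rw [← pow_add]; congr 1; omega
    have h6 : 0 < ((R * K)⁻¹) ^ k := by positivity
    refine le_of_mul_le_mul_right ?_ h6
    calc ‖coef f k‖ * r ^ k * ((R * K)⁻¹) ^ k ≤ μ * ((R * K)⁻¹) ^ k1 := h3
      _ ≤ μ * ((R * K)⁻¹) ^ n := by gcongr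
      _ = μ * ((R * K)⁻¹) ^ (n - k) * ((R * K)⁻¹) ^ k := by rw [h5]; ring
  · -- large indices
    have h1 := hk2 k
    have h2 : ‖coef f k2‖ * r ^ k2 ≤ μ := hi k2
    have h3 : ‖coef f k‖ * r ^ k * (R * K) ^ k ≤ μ * (R * K) ^ k2 := by
      calc ‖coef f k‖ * r ^ k * (R * K) ^ k = ‖coef f k‖ * (r * (R * K)) ^ k := by
            rw [mul_pow r]; ring
        _ ≤ ‖coef f k2‖ * (r * (R * K)) ^ k2 := h1
        _ = ‖coef f k2‖ * r ^ k2 * (R * K) ^ k2 := by
            rw [mul_pow r]; ring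
        _ ≤ μ * (R * K) ^ k2 := by gcongr
    have h4 : (R * K) ^ k2 ≤ (R * K) ^ (n + d) := pow_le_pow_right₀ hL.le hk2'.2
    have h5 : (R * K) ^ (n + d) = ((R * K)⁻¹) ^ (k - (n + d)) * (R * K) ^ k := by
      have h7 : (R * K) ^ k = (R * K) ^ (k - (n + d)) * (R * K) ^ (n + d) := by
        rw [← pow_add]; congr 1; omega
      rw [h7, ← mul_assoc, ← mul_pow, inv_mul_cancel₀ hL0.ne', one_pow, one_mul]
    have h6 : 0 < (R * K) ^ k := by positivity
    refine le_of_mul_le_mul_right ?_ h6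
    calc ‖coef f k‖ * r ^ k * (R * K) ^ k ≤ μ * (R * K) ^ k2 := h3
      _ ≤ μ * (R * K) ^ (n + d) := by gcongr
      _ = μ * ((R * K)⁻¹) ^ (k - (n + d)) * (R * K) ^ k := by rw [h5]; ring

end Pool.Agent.K7.H75.LC
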