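import Pool.Agent.K7.H75.LC.Base

/-! Rational curves in projective varieties given by forms. -/

set_option autoImplicit false
set_option linter.unusedSectionVars false

namespace Pool.Agent.K7.H75.LC

open Filter Topology Metric Set MvPolynomial

variable {N : ℕ} {ι : Type}

theorem eval_smul_hom {σ : Type*} {p : MvPolynomial σ ℂ} {k : ℕ} (hp : p.IsHomogeneous k)
    (c : ℂ) (v : σ → ℂ) : eval (c • v) p = c ^ k * eval v p := by
  rw [eval_eq, eval_eq, Finset.mul_sum]
  refine Finset.sum_congr rfl fun d hd => ?_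
  have h1 : d.degree = k := by
    have := hp (mem_support_iff.1 hd)
    rw [Finsupp.degree_eq_weight_one]; exact this
  simp only [Pi.smul_apply, smul_eq_mul, mul_pow, Finset.prod_mul_distrib]
  rw [Finset.prod_pow_eq_pow_sum]
  have h2 : ∑ i ∈ d.support, d i = k := by rw [← h1]; rfl
  rw [h2]
  ring

/-- `X = {F = 0}` contains a rational curve of degree at most `d`: there is a nonconstant map from
the line to `X` given by polynomials of degree at most `d` without common zeros. -/
def RatCurve (F : ι → MvPolynomial (Fin N) ℂ) (d : ℕ) : Prop :=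
  ∃ P : Fin N → Polynomial ℂ, (∀ p, (P p).natDegree ≤ d) ∧ (∀ t, ∃ p, (P p).eval t ≠ 0) ∧
    (∀ t i, eval (fun p => (P p).eval t) (F i) = 0) ∧
    ∃ s t p q, (P p).eval s * (P q).eval t ≠ (P q).eval s * (P p).eval t

theorem RatCurve.mono {F : ι → MvPolynomial (Fin N) ℂ} {d e : ℕ} (h : RatCurve F d) (hde : d ≤ e) :
    RatCurve F e := by
  obtain ⟨P, h1, h2⟩ := h
  exact ⟨P, fun p => (h1 p).trans hde, h2⟩

theorem ev_cont (f : MvPolynomial (Fin N) ℂ) : Continuous fun x : Fin N → ℂ => eval x f :=
  MvPolynomial.continuous_eval f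

/-- cancelling common zeros -/
theorem ratCurve_of_poly {F : ι → MvPolynomial (Fin N) ℂ} (hF : ∀ i, ∃ e, (F i).IsHomogeneous e) :
    ∀ (d : ℕ) (P : Fin N → Polynomial ℂ), (∀ p, (P p).natDegree ≤ d) →
    (∀ t i, eval (fun p => (P p).eval t) (F i) = 0) →
    (∃ s t p q, (P p).eval s * (P q).eval t ≠ (P q).eval s * (P p).eval t) → RatCurve F d := by
  intro d
  induction d with
  | zero =>
    intro P hd hm hn
    exfalso
    obtain ⟨s, t, p, q, h⟩ := hn
    apply h
    have h1 : ∀ p t s, (P p).eval t = (P p).eval s := by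
      intro p t s
      rw [Polynomial.eq_C_of_natDegree_le_zero (hd p)]
      simp
    rw [h1 p s t, h1 q t s]
    ring
  | succ d ih =>
    intro P hd hm hn
    by_cases h0 : ∀ t, ∃ p, (P p).eval t ≠ 0
    · exact ⟨P, hd, h0, hm, hn⟩
    push Not at h0
    obtain ⟨t0, ht0⟩ := h0
    have h1 : ∀ p, ∃ Q : Polynomial ℂ, P p = (Polynomial.X - Polynomial.C t0) * Q := fun p =>
      Polynomial.dvd_iff_isRoot.2 (ht0 p)
    choose Q hQ using h1
    have hev : ∀ t, (fun p => (P p).eval t) = (t - t0) • fun p => (Q p).eval t := by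
      intro t
      funext p
      rw [hQ]
      simp
    refine (ih Q ?_ ?_ ?_).mono (Nat.le_succ d)
    · intro p
      by_cases h2 : Q p = 0
      · rw [h2]; simp
      · have h3 := hd p
        rw [hQ, Polynomial.natDegree_mul (Polynomial.X_sub_C_ne_zero t0) h2,
          Polynomial.natDegree_X_sub_C] at h3
        omega
    · intro t i
      obtain ⟨e, he⟩ := hF i
      have h2 : ∀ t, t ≠ t0 → eval (fun p => (Q p).eval t) (F i) = 0 := by
        intro t ht
        have h3 := hm t i
        rw [hev, eval_smul_hom he] at h3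
        exact (mul_eq_zero.1 h3).resolve_left (pow_ne_zero _ (sub_ne_zero.2 ht))
      have h4 : Continuous fun t : ℂ => eval (fun p => (Q p).eval t) (F i) :=
        (ev_cont (F i)).comp (by fun_prop)
      have h5 : IsClosed {t : ℂ | eval (fun p => (Q p).eval t) (F i) = 0} :=
        isClosed_eq h4 continuous_const
      have h6 : closure ({t0}ᶜ : Set ℂ) ⊆ {t : ℂ | eval (fun p => (Q p).eval t) (F i) = 0} :=
        closure_minimal (fun t ht => h2 t ht) h5
      rw [(dense_compl_singleton t0).closure_eq] at h6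
      exact h6 (mem_univ t)
    · obtain ⟨s, t, p, q, h⟩ := hn
      refine ⟨s, t, p, q, fun h2 => h ?_⟩
      rw [hQ p, hQ q]
      simp only [Polynomial.eval_mul]
      linear_combination (((Polynomial.X - Polynomial.C t0).eval s) *
        ((Polynomial.X - Polynomial.C t0).eval t)) * h2

end Pool.Agent.K7.H75.LC
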