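import Pool.Agent.K7.H75.LC.Claim

/-! The rescaling step and the induction on the multiplicity. -/

set_option autoImplicit false
set_option linter.unusedSectionVars false

namespace Pool.Agent.K7.H75.LC

open Filter Topology Metric Set MvPolynomial

variable {N : ℕ} {ι : Type} {F : ι → MvPolynomial (Fin N) ℂ}

/-- the limit polynomial after rescaling at a zero of exact multiplicity `m` -/
theorem rescale (hF : ∀ i, ∃ e, (F i).IsHomogeneous e) {h : ℕ → ℂ → Fin N → ℂ}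
    (hh : ∀ n, Cur F (h n)) {φ : ℂ → ℂ} {u : Fin N → ℂ} {p0 : Fin N} (hφ : Differentiable ℂ φ)
    (hc : Conv h (fun z => φ z • u)) (hz : ∀ n, h n 0 p0 = 0) (hu : u p0 ≠ 0) {m : ℕ} (hm : 0 < m)
    (hlow : ∀ i < m, coef φ i = 0) (htop : coef φ m ≠ 0) :
    ∃ (k : ℕ → ℂ → Fin N → ℂ) (B : Fin (m + 1) → Fin N → ℂ), (∀ n, Cur F (k n)) ∧
      Conv k (fun z => ∑ i : Fin (m + 1), z ^ (i : ℕ) • B i) ∧ B 0 p0 = 0 ∧
      B (Fin.last m) p0 ≠ 0 ∧ ∃ i : Fin (m + 1), (i : ℕ) < m ∧ B i ≠ 0 := by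
  have hu0 : u ≠ 0 := fun h0 => hu (by rw [h0]; rfl)
  set a : ℂ → Fin N → ℂ := fun z => φ z • u with ha
  have had : Differentiable ℂ a := hφ.smul_const u
  have hcoef : ∀ i, coef a i = coef φ i • u := fun i => coef_smul_const hφ u i
  set α : Fin N → ℂ := coef φ m • u with hα
  have hα0 : 0 < ‖α‖ := norm_pos_iff.2 (smul_ne_zero htop hu0)
  -- the coefficients converge
  have hA : ∀ i, Tendsto (fun n => coef (h n) i) atTop (𝓝 (coef φ i • u)) := fun i => by
    have := Conv.coef hc (fun n => (hh n).diff) had i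
    rwa [hcoef] at this
  -- a bound on the unit circle
  obtain ⟨M, hM⟩ : ∃ M : ℝ, ∀ᶠ n in atTop, ∀ z : ℂ, ‖z‖ = 1 → ‖h n z‖ ≤ M := by
    obtain ⟨C, hC⟩ := (isCompact_sphere (0 : ℂ) 1).exists_bound_of_continuousOn
      had.continuous.continuousOn
    refine ⟨C + 1, ?_⟩
    filter_upwards [hc 1 1 one_pos] with n hn z hz
    have h1 := hn z hz.le
    have h2 := hC z (by simpa using hz)
    calc ‖h n z‖ = ‖a z + (h n z - a z)‖ := by congr 1; abel
      _ ≤ ‖a z‖ + ‖h n z - a z‖ := norm_add_le _ _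
      _ ≤ C + 1 := by linarith [h1.le]
  have hM0 : 0 ≤ M := by
    obtain ⟨n, hn⟩ := hM.exists
    exact (norm_nonneg _).trans (hn 1 (by simp))
  -- pass to a tail
  have htail : ∀ᶠ n in atTop, (∀ z : ℂ, ‖z‖ = 1 → ‖h n z‖ ≤ M) ∧
      ‖α‖ / 2 < ‖coef (h n) m‖ := by
    have h1 : Tendsto (fun n => ‖coef (h n) m‖) atTop (𝓝 ‖α‖) := (hA m).norm
    exact hM.and (h1.eventually (lt_mem_nhds (half_lt_self hα0)))
  obtain ⟨n0, hn0⟩ := eventually_atTop.1 htail
  set H : ℕ → ℂ → Fin N → ℂ := fun n => h (n + n0) with hH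
  have hshift : Tendsto (fun n => n + n0) atTop atTop := tendsto_add_atTop_nat n0
  have hHc : Conv H a := Conv.comp hc hshift
  have hHA : ∀ i, Tendsto (fun n => coef (H n) i) atTop (𝓝 (coef φ i • u)) := fun i =>
    (hA i).comp hshift
  have hHcur : ∀ n, Cur F (H n) := fun n => hh _
  have hHM : ∀ n (z : ℂ), ‖z‖ = 1 → ‖H n z‖ ≤ M := fun n => (hn0 (n + n0) (by omega)).1
  have hHm : ∀ n, ‖α‖ / 2 < ‖coef (H n) m‖ := fun n => (hn0 (n + n0) (by omega)).2
  have hHpos : ∀ n, 0 < ‖coef (H n) m‖ := fun n => by linarith [hHm n]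
  -- the scales
  have hsc : ∀ n, ∃ l : ℝ, 0 < l ∧ (∀ i < m, ‖coef (H n) i‖ * l ^ i ≤ ‖coef (H n) m‖ * l ^ m) ∧
      ∃ i < m, ‖coef (H n) i‖ * l ^ i = ‖coef (H n) m‖ * l ^ m := fun n =>
    exists_scale (fun i => ‖coef (H n) i‖) (fun i => norm_nonneg _) (by
      show 0 < ‖coef (H n) 0‖
      rw [coef_zero]
      exact norm_pos_iff.2 ((hHcur n).ne 0)) hm (hHpos n)
  choose l hl0 hl1 hl2 using hsc
  have hl : Tendsto l atTop (𝓝 0) := by
    rw [Metric.tendsto_nhds]
    intro ε hε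
    set η := min ε 1 with hη
    have hη0 : 0 < η := lt_min hε one_pos
    have h1 : ∀ᶠ n in atTop, ∀ i ∈ Finset.range m,
        ‖coef (H n) i‖ < η ^ m * ‖coef (H n) m‖ := by
      rw [Finset.eventually_all]
      intro i hi
      have h2 : Tendsto (fun n => ‖coef (H n) i‖) atTop (𝓝 0) := by
        have h3 := (hHA i).norm
        rwa [hlow i (Finset.mem_range.1 hi), zero_smul, norm_zero] at h3
      have h3 : 0 < η ^ m * (‖α‖ / 2) := by positivity
      filter_upwards [h2.eventually (gt_mem_nhds h3)] with n hn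
      refine hn.trans_le ?_
      gcongr
      exact (hHm n).le
    filter_upwards [h1] with n hn
    rw [Real.dist_eq, sub_zero, abs_of_pos (hl0 n)]
    exact (scale_small hη0 (min_le_right _ _) (hl0 n) (hHpos n)
      (x := fun i => ‖coef (H n) i‖) (fun i hi => hn i (Finset.mem_range.2 hi)) (hl2 n)).trans_le
        (min_le_left _ _)
  -- normalisation
  set κ : ℕ → ℝ := fun n => (‖coef (H n) m‖ * l n ^ m)⁻¹ with hκ
  have hκ0 : ∀ n, 0 < κ n := fun n => inv_pos.2 (mul_pos (hHpos n) (pow_pos (hl0 n) m))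
  set b : ℕ → Fin (m + 1) → Fin N → ℂ := fun n i =>
    ((κ n : ℂ) * (l n : ℂ) ^ (i : ℕ)) • coef (H n) i with hb
  have hbnorm : ∀ n (i : Fin (m + 1)), ‖b n i‖ = κ n * (‖coef (H n) i‖ * l n ^ (i : ℕ)) := by
    intro n i
    rw [hb]
    simp only []
    rw [norm_smul, norm_mul, norm_pow, Complex.norm_real, Complex.norm_real, Real.norm_eq_abs,
      Real.norm_eq_abs, abs_of_pos (hκ0 n), abs_of_pos (hl0 n)]
    ring
  have hκ1 : ∀ n, κ n * (‖coef (H n) m‖ * l n ^ m) = 1 := fun n =>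
    inv_mul_cancel₀ (mul_pos (hHpos n) (pow_pos (hl0 n) m)).ne'
  have hb1 : ∀ n, b n ∈ closedBall (0 : Fin (m + 1) → Fin N → ℂ) 1 := by
    intro n
    rw [mem_closedBall_zero_iff, pi_norm_le_iff_of_nonneg zero_le_one]
    intro i
    rw [hbnorm, ← hκ1 n]
    have h1 : ‖coef (H n) i‖ * l n ^ (i : ℕ) ≤ ‖coef (H n) m‖ * l n ^ m := by
      rcases Nat.lt_succ_iff_lt_or_eq.1 i.2 with h2 | h2
      · exact hl1 n i h2
      · rw [h2]
    exact mul_le_mul_of_nonneg_left h1 (hκ0 n).le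
  obtain ⟨B, -, ψ, hψ, hB⟩ := (isCompact_closedBall (0 : Fin (m + 1) → Fin N → ℂ) 1).tendsto_subseq
    hb1
  have hBi : ∀ i, Tendsto (fun n => b (ψ n) i) atTop (𝓝 (B i)) := fun i =>
    (tendsto_pi_nhds.1 hB) i
  refine ⟨fun n z => (κ (ψ n) : ℂ) • H (ψ n) (0 + (l (ψ n) : ℂ) * z), B, fun n => ?_, ?_, ?_, ?_, ?_⟩
  · exact (hHcur (ψ n)).aff hF (by exact_mod_cast (hκ0 _).ne') _ _
  · -- convergence
    intro R ε hε
    set R' := max R 0 with hR'
    have hR0 : 0 ≤ R' := le_max_right _ _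
    have e1 : Tendsto (fun n => 4 * M * R' ^ (m + 1) / ‖α‖ * l (ψ n)) atTop (𝓝 0) := by
      have := (hl.comp hψ.tendsto_atTop).const_mul (4 * M * R' ^ (m + 1) / ‖α‖)
      rwa [mul_zero] at this
    have e2 : Tendsto (fun n => (∑ i : Fin (m + 1), R' ^ (i : ℕ)) * ‖b (ψ n) - B‖) atTop
        (𝓝 0) := by
      have h1 : Tendsto (fun n => ‖b (ψ n) - B‖) atTop (𝓝 0) := by
        have h2 : Tendsto (fun n => b (ψ n)) atTop (𝓝 B) := hB
        simpa using (h2.sub_const B).norm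
      have := h1.const_mul (∑ i : Fin (m + 1), R' ^ (i : ℕ))
      rwa [mul_zero] at this
    have e3 : Tendsto (fun n => l (ψ n) * R') atTop (𝓝 0) := by
      have := (hl.comp hψ.tendsto_atTop).mul_const R'
      rwa [zero_mul] at this
    filter_upwards [e1.eventually (gt_mem_nhds (half_pos hε)),
      e2.eventually (gt_mem_nhds (half_pos hε)),
      e3.eventually (gt_mem_nhds (show (0 : ℝ) < 1 / 2 by norm_num))] with n h1 h2 h3 z hz
    have hzR : ‖z‖ ≤ R' := hz.trans (le_max_left _ _)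
    set j := ψ n with hj
    have h4 : ‖(0 : ℂ) + (l j : ℂ) * z‖ ≤ l j * R' := by
      rw [zero_add, norm_mul, Complex.norm_real, Real.norm_eq_abs, abs_of_pos (hl0 j)]
      exact mul_le_mul_of_nonneg_left hzR (hl0 j).le
    have h5 := remainder (hHcur j).diff (hHM j) m (z := (0 : ℂ) + (l j : ℂ) * z) (by linarith)
    have h6 : (κ j : ℂ) • ∑ k ∈ Finset.range (m + 1), ((0 : ℂ) + (l j : ℂ) * z) ^ k • coef (H j) k
        = ∑ i : Fin (m + 1), z ^ (i : ℕ) • b j i := by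
      rw [Finset.smul_sum, ← Fin.sum_univ_eq_sum_range (fun k =>
        (κ j : ℂ) • ((0 : ℂ) + (l j : ℂ) * z) ^ k • coef (H j) k)]
      refine Finset.sum_congr rfl fun i _ => ?_
      rw [hb]
      simp only []
      rw [smul_smul, smul_smul, zero_add]
      congr 1
      ring
    have h7 : ‖(κ j : ℂ) • H j (0 + (l j : ℂ) * z) - ∑ i : Fin (m + 1), z ^ (i : ℕ) • b j i‖
        ≤ 4 * M * R' ^ (m + 1) / ‖α‖ * l j := by
      rw [← h6, ← smul_sub, norm_smul, Complex.norm_real, Real.norm_eq_abs, abs_of_pos (hκ0 j)]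
      have h8 : ‖(0 : ℂ) + (l j : ℂ) * z‖ ^ (m + 1) ≤ (l j * R') ^ (m + 1) :=
        pow_le_pow_left₀ (norm_nonneg _) h4 _
      calc κ j * ‖H j (0 + (l j : ℂ) * z) -
            ∑ k ∈ Finset.range (m + 1), ((0 : ℂ) + (l j : ℂ) * z) ^ k • coef (H j) k‖
          ≤ κ j * (2 * M * (l j * R') ^ (m + 1)) := by
            refine mul_le_mul_of_nonneg_left (h5.trans ?_) (hκ0 j).le
            gcongr
        _ = (κ j * (‖coef (H j) m‖ * l j ^ m)) * (2 * M * R' ^ (m + 1) * l j / ‖coef (H j) m‖) := by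
            have := (hHpos j).ne'
            field_simp
            ring
        _ = 2 * M * R' ^ (m + 1) * l j / ‖coef (H j) m‖ := by rw [hκ1, one_mul]
        _ ≤ 2 * M * R' ^ (m + 1) * l j / (‖α‖ / 2) := by
            have := (hHm j).le
            have := (hl0 j).le
            gcongr
        _ = _ := by field_simp; ring
    have h9 : ‖∑ i : Fin (m + 1), z ^ (i : ℕ) • b j i - ∑ i : Fin (m + 1), z ^ (i : ℕ) • B i‖
        ≤ (∑ i : Fin (m + 1), R' ^ (i : ℕ)) * ‖b j - B‖ := by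
      rw [← Finset.sum_sub_distrib, Finset.sum_mul]
      refine (norm_sum_le _ _).trans (Finset.sum_le_sum fun i _ => ?_)
      rw [← smul_sub, norm_smul, norm_pow]
      have h10 : ‖b j i - B i‖ ≤ ‖b j - B‖ := norm_le_pi_norm (b j - B) i
      gcongr
    calc ‖(κ j : ℂ) • H j (0 + (l j : ℂ) * z) - ∑ i : Fin (m + 1), z ^ (i : ℕ) • B i‖
        = ‖((κ j : ℂ) • H j (0 + (l j : ℂ) * z) - ∑ i : Fin (m + 1), z ^ (i : ℕ) • b j i)
          + (∑ i : Fin (m + 1), z ^ (i : ℕ) • b j i - ∑ i : Fin (m + 1), z ^ (i : ℕ) • B i)‖ := by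
          congr 1; abel
      _ ≤ _ := norm_add_le _ _
      _ < ε := by linarith
  · -- the coefficient zero
    have h1 : ∀ n, b (ψ n) 0 p0 = 0 := by
      intro n
      show (((κ (ψ n) : ℂ) * (l (ψ n) : ℂ) ^ ((0 : Fin (m + 1)) : ℕ)) • coef (H (ψ n)) 0) p0 = 0
      rw [coef_zero, Pi.smul_apply]
      show _ • H (ψ n) 0 p0 = 0
      rw [show H (ψ n) 0 p0 = 0 from hz _, smul_zero]
    have h2 : Tendsto (fun n => b (ψ n) 0 p0) atTop (𝓝 (B 0 p0)) := (tendsto_pi_nhds.1 (hBi 0)) p0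
    simp only [h1] at h2
    exact (tendsto_nhds_unique h2 tendsto_const_nhds)
  · -- the top coefficient
    have h1 : ∀ n, b n (Fin.last m) = ((‖coef (H n) m‖⁻¹ : ℝ) : ℂ) • coef (H n) m := by
      intro n
      rw [hb]
      simp only [Fin.val_last]
      congr 1
      rw [hκ]
      simp only []
      have h2 : (l n : ℂ) ^ m ≠ 0 := pow_ne_zero _ (by exact_mod_cast (hl0 n).ne')
      have h3 : (‖coef (H n) m‖ : ℂ) ≠ 0 := by exact_mod_cast (hHpos n).ne'
      push_cast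
      field_simp
    have h2 : Tendsto (fun n => b (ψ n) (Fin.last m)) atTop (𝓝 (((‖α‖⁻¹ : ℝ) : ℂ) • α)) := by
      simp only [h1]
      have h3 : Tendsto (fun n => coef (H (ψ n)) m) atTop (𝓝 α) := (hHA m).comp hψ.tendsto_atTop
      have h4 : Tendsto (fun n => ‖coef (H (ψ n)) m‖⁻¹) atTop (𝓝 ‖α‖⁻¹) := h3.norm.inv₀ hα0.ne'
      exact ((Complex.continuous_ofReal.tendsto _).comp h4).smul h3
    have h3 := tendsto_nhds_unique (hBi (Fin.last m)) h2
    rw [h3, hα, Pi.smul_apply, Pi.smul_apply, smul_eq_mul, smul_eq_mul]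
    exact mul_ne_zero (by exact_mod_cast (inv_pos.2 hα0).ne') (mul_ne_zero htop hu)
  · -- a second coefficient
    have hcl : IsClosed {x : Fin (m + 1) → Fin N → ℂ | ∃ i : Fin (m + 1), (i : ℕ) < m ∧ ‖x i‖ = 1} := by
      have h1 : {x : Fin (m + 1) → Fin N → ℂ | ∃ i : Fin (m + 1), (i : ℕ) < m ∧ ‖x i‖ = 1}
          = ⋃ i ∈ {i : Fin (m + 1) | (i : ℕ) < m}, {x | ‖x i‖ = 1} := by
        ext x
        simp
      rw [h1]
      exact (Set.toFinite _).isClosed_biUnion fun i _ =>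
        isClosed_eq (continuous_apply i).norm continuous_const
    have h2 : ∀ n, b (ψ n) ∈ {x : Fin (m + 1) → Fin N → ℂ |
        ∃ i : Fin (m + 1), (i : ℕ) < m ∧ ‖x i‖ = 1} := by
      intro n
      obtain ⟨i, hi, hi2⟩ := hl2 (ψ n)
      refine ⟨⟨i, by omega⟩, hi, ?_⟩
      rw [hbnorm]
      show κ (ψ n) * (‖coef (H (ψ n)) i‖ * l (ψ n) ^ i) = 1
      rw [hi2, hκ1]
    obtain ⟨i, hi, hi2⟩ := hcl.mem_of_tendsto hB (Eventually.of_forall h2)
    exact ⟨i, hi, fun h0 => by rw [h0, norm_zero] at hi2; exact zero_ne_one hi2⟩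

/-- **The induction on the multiplicity.** -/
theorem ratCurve_of_zero (hF : ∀ i, ∃ e, (F i).IsHomogeneous e) :
    ∀ (m : ℕ) (g : ℕ → ℂ → Fin N → ℂ), (∀ j, Cur F (g j)) → ∀ (φ : ℂ → ℂ) (u : Fin N → ℂ),
      Differentiable ℂ φ → u ≠ 0 → Conv g (fun z => φ z • u) → φ 0 = 0 →
      (∃ i ≤ m, coef φ i ≠ 0) → RatCurve F m := by
  intro m
  induction m using Nat.strong_induction_on with
  | _ m ih =>
    intro g hg φ u hφ hu hc h0 hne
    by_contra hcon
    obtain ⟨p0, hp0⟩ := Function.ne_iff.1 hu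
    -- the exact order
    classical
    have hex : ∃ i, coef φ i ≠ 0 := by
      obtain ⟨i, -, hi⟩ := hne
      exact ⟨i, hi⟩
    set k := Nat.find hex with hk
    have hk1 : coef φ k ≠ 0 := Nat.find_spec hex
    have hk2 : ∀ i < k, coef φ i = 0 := fun i hi => by
      by_contra h
      exact Nat.find_min hex hi h
    have hkm : k ≤ m := by
      obtain ⟨i, him, hi⟩ := hne
      exact (Nat.find_min' hex hi).trans him
    have hk0 : 0 < k := by
      rw [Nat.pos_iff_ne_zero]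
      intro hk0
      rw [hk0, coef_zero] at hk1
      exact hk1 h0
    obtain ⟨h, hh, hhc, hhz⟩ := recenter hF hg hφ hc h0 hex hp0
    obtain ⟨q, B, hq, hqc, hB0, hBm, i0, hi0, hBi0⟩ :=
      rescale hF hh hφ hhc hhz hp0 hk0 hk2 hk1
    have hmem : ∀ t i, eval (fun p => (polyOf B p).eval t) (F i) = 0 := by
      intro t i
      rw [eval_polyOf]
      have h1 : Tendsto (fun n => eval (q n t) (F i)) atTop
          (𝓝 (eval (∑ j : Fin (k + 1), t ^ (j : ℕ) • B j) (F i))) :=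
        ((ev_cont (F i)).tendsto _).comp (hqc.at t)
      simp only [(hq _).mem] at h1
      exact tendsto_nhds_unique h1 tendsto_const_nhds
    obtain ⟨u', hu', hP⟩ := poly_alt hF hmem (fun h => hcon (h.mono hkm)) hBm
    have hcoe : ∀ (i : Fin (k + 1)) p, B i p = u' p * B i p0 := by
      intro i p
      have h1 := congrArg (fun P => P.coeff (i : ℕ)) (hP p)
      simp only [Polynomial.coeff_C_mul] at h1
      rw [coeff_polyOf, coeff_polyOf] at h1
      exact h1
    have hi0p : B i0 p0 ≠ 0 := by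
      intro h1
      apply hBi0
      funext p
      rw [hcoe, h1, mul_zero]
      rfl
    have hlim : (fun z : ℂ => ∑ i : Fin (k + 1), z ^ (i : ℕ) • B i)
        = fun z => (polyOf B p0).eval z • u' := by
      funext z
      rw [← eval_polyOf]
      funext p
      rw [hP p, Polynomial.eval_mul, Polynomial.eval_C, Pi.smul_apply, smul_eq_mul, mul_comm]
    rw [hlim] at hqc
    refine hcon ((ih i0 (by omega) q hq (fun z => (polyOf B p0).eval z) u'
      (Polynomial.differentiable _) (fun h1 => ?_) hqc ?_ ⟨i0, le_rfl, ?_⟩).mono (by omega))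
    · rw [h1] at hu'
      exact zero_ne_one hu'
    · have h1 := coeff_polyOf B p0 0
      rw [hB0] at h1
      rw [← Polynomial.coeff_zero_eq_eval_zero]
      exact h1
    · rw [coef_poly, coeff_polyOf]
      exact hi0p

end Pool.Agent.K7.H75.LC
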